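import Pool.Agent.Lib.MP_9de1de_an.Energy

set_option autoImplicit false

namespace Pool.Agent.Lib.MP_9de1de_an

open MeasureTheory Set Filter Topology

namespace MPair

variable {n : ℝ} (P : MPair n)

theorem exists_bound {b : ℝ} (hb : b < 1) : ∃ C : ℝ, 0 ≤ C ∧
    (∀ X ∈ Icc 0 b, ∀ s ∈ Icc (0:ℝ) 1, |P.ker0 X s| ≤ C) ∧
    (∀ X ∈ Icc 0 b, ∀ s ∈ Icc (0:ℝ) 1, |P.ker1 X s| ≤ C) ∧
    (∀ X ∈ Icc 0 b, ∀ s ∈ Icc (0:ℝ) 1, |P.kerT X s| ≤ C * X) := by
  have hK : IsCompact (Icc 0 b ×ˢ Icc (0:ℝ) 1) := isCompact_Icc.prod isCompact_Icc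
  obtain ⟨C0, h0⟩ := hK.exists_bound_of_continuousOn (P.cont_ker0.continuousOn)
  obtain ⟨C1, h1⟩ := hK.exists_bound_of_continuousOn (P.cont_ker1.continuousOn)
  have hT : ContinuousOn (fun p : ℝ × ℝ => q n p.1 * (p.1 * √p.1 * √(1 - p.1)
      * P.h (1 - p.1) (p.1 * p.2))) (Icc 0 b ×ˢ Icc (0:ℝ) 1) := by
    have h := P.ch.comp (f := fun p : ℝ × ℝ => (1 - p.1, p.1 * p.2)) (by fun_prop)
    unfold q
    apply ContinuousOn.mul
    · apply ContinuousOn.div (by fun_prop) (by fun_prop)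
      intro p hp
      have : p.1 < 1 := lt_of_le_of_lt hp.1.2 hb
      have : (1 - p.1) ≠ 0 := by intro h0; linarith
      exact pow_ne_zero 2 this
    · exact ((by fun_prop : Continuous fun p : ℝ × ℝ => p.1 * √p.1 * √(1 - p.1)).mul h).continuousOn
  obtain ⟨C2, h2⟩ := hK.exists_bound_of_continuousOn hT
  refine ⟨|C0| + |C1| + |C2|, by positivity, ?_, ?_, ?_⟩
  · intro X hX s hs
    have := h0 (X, s) ⟨hX, hs⟩
    rw [Real.norm_eq_abs] at this
    have h3 := le_abs_self C0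
    have h4 := abs_nonneg C1
    have h5 := abs_nonneg C2
    simp only at this
    linarith
  · intro X hX s hs
    have := h1 (X, s) ⟨hX, hs⟩
    rw [Real.norm_eq_abs] at this
    have h3 := le_abs_self C1
    have h4 := abs_nonneg C0
    have h5 := abs_nonneg C2
    simp only at this
    linarith
  · intro X hX s hs
    have := h2 (X, s) ⟨hX, hs⟩
    rw [Real.norm_eq_abs] at this
    have h3 := le_abs_self C2
    have h4 := abs_nonneg C0
    have h5 := abs_nonneg C1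
    simp only at this
    have h6 : P.kerT X s = (q n X * (X * √X * √(1 - X) * P.h (1 - X) (X * s))) * X := by
      unfold kerT; ring
    rw [h6, abs_mul, abs_of_nonneg hX.1]
    exact mul_le_mul_of_nonneg_right (by linarith) hX.1

theorem abs_integral_le {f : ℝ → ℝ} {X C : ℝ} (hX : 0 ≤ X) (hf : ∀ y ∈ Icc 0 X, |f y| ≤ C) :
    |∫ y in (0:ℝ)..X, f y| ≤ C * X := by
  have := intervalIntegral.norm_integral_le_of_norm_le_const (a := 0) (b := X) (f := f) (C := C)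
    (by
      intro x hx
      rw [uIoc_of_le hX] at hx
      exact hf x ⟨hx.1.le, hx.2⟩)
  rw [Real.norm_eq_abs, sub_zero, abs_of_nonneg hX] at this
  exact this

theorem H_zero (α : ℝ) : P.H α 0 = 0 := by
  unfold H En psi Psi Psis
  simp

theorem contOn_H {α b : ℝ} (hα0 : 0 < α) (hα1 : α ≤ 1) (hb : b < 1) :
    ContinuousOn (fun X => P.H α X) (Icc 0 b) := by
  intro X hX
  rcases eq_or_lt_of_le hX.1 with h | h
  · subst h
    obtain ⟨C, hC, b0, b1, bT⟩ := P.exists_bound hb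
    have hbd : ∀ X ∈ Icc 0 b, |P.H α X| ≤ (8 * C ^ 2 * X ^ 2) * α := by
      intro X hX
      unfold H
      apply abs_integral_le hα0.le
      intro s hs
      have hs1 : s ≤ 1 := hs.2.trans hα1
      have hsI : s ∈ Icc (0:ℝ) 1 := ⟨hs.1, hs1⟩
      have k1 : |P.psi X s| ≤ C * X := by
        unfold psi
        rw [abs_mul, abs_of_nonneg hX.1, mul_comm]
        exact mul_le_mul_of_nonneg_right (b0 X hX s hsI) hX.1
      have k2 : |P.Psi X s| ≤ C * X :=
        abs_integral_le hX.1 (fun y hy => b0 y ⟨hy.1, hy.2.trans hX.2⟩ s hsI)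
      have k3 : |P.Psis X s| ≤ C * X :=
        abs_integral_le hX.1 (fun y hy => b1 y ⟨hy.1, hy.2.trans hX.2⟩ s hsI)
      have k4 : |P.Th X s| ≤ (C * X) * X :=
        abs_integral_le hX.1 (fun y hy => (bT y ⟨hy.1, hy.2.trans hX.2⟩ s hsI).trans
          (mul_le_mul_of_nonneg_left hy.2 hC))
      have k5 : |P.Th X s / X| ≤ C * X := by
        rw [abs_div, abs_of_nonneg hX.1]
        rcases eq_or_lt_of_le hX.1 with h0 | h0
        · rw [← h0]; simp
        · rw [div_le_iff₀ h0]; exact k4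
      have sq : ∀ {z : ℝ}, |z| ≤ C * X → z ^ 2 ≤ C ^ 2 * X ^ 2 := by
        intro z hz
        rw [← sq_abs, ← mul_pow]
        exact pow_le_pow_left₀ (abs_nonneg _) hz 2
      have l1 := sq k1
      have l2 := sq k2
      have l3 := sq k3
      have l5 := sq k5
      unfold En
      have hs3 : 0 ≤ s ^ 3 := pow_nonneg hs.1 3
      have hs3' : s ^ 3 ≤ 1 := pow_le_one₀ hs.1 hs1
      have hs2 : 0 ≤ 1 - s ^ 2 := by nlinarith [hs.1]
      have hs2' : 1 - s ^ 2 ≤ 1 := by nlinarith [hs.1]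
      have e0 : 0 ≤ P.psi X s ^ 2 + (1 - s ^ 2) * P.Psis X s ^ 2 + 15 / 4 * P.Psi X s ^ 2
        + (P.Th X s / X) ^ 2 := by positivity
      have e1 : (1 - s ^ 2) * P.Psis X s ^ 2 ≤ P.Psis X s ^ 2 := by nlinarith [sq_nonneg (P.Psis X s)]
      have e2 : 0 ≤ C ^ 2 * X ^ 2 := by positivity
      rw [abs_of_nonneg (mul_nonneg hs3 e0)]
      calc _ ≤ 1 * (P.psi X s ^ 2 + (1 - s ^ 2) * P.Psis X s ^ 2 + 15 / 4 * P.Psi X s ^ 2
        + (P.Th X s / X) ^ 2) := mul_le_mul_of_nonneg_right hs3' e0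
        _ ≤ 8 * C ^ 2 * X ^ 2 := by linarith
    have ht : Tendsto (fun X : ℝ => (8 * C ^ 2 * X ^ 2) * α) (𝓝[Icc 0 b] 0) (𝓝 0) := by
      have : Continuous fun X : ℝ => (8 * C ^ 2 * X ^ 2) * α := by fun_prop
      have h := this.tendsto 0
      simp only [ne_eq, OfNat.ofNat_ne_zero, not_false_eq_true, zero_pow, mul_zero, zero_mul] at h
      exact h.mono_left nhdsWithin_le_nhds
    show Tendsto (fun X => P.H α X) (𝓝[Icc 0 b] 0) (𝓝 (P.H α 0))
    rw [P.H_zero]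
    apply squeeze_zero_norm' _ ht
    filter_upwards [self_mem_nhdsWithin] with X hX
    exact hbd X hX
  · exact (P.hasDerivAt_H α h (lt_of_le_of_lt hX.2 hb)).continuousAt.continuousWithinAt

/-- auxiliary function controlling the flux -/
noncomputable def Phi (α X : ℝ) : ℝ :=
  (1 - α ^ 2) * (α * P.Psis X α + 2 * P.Psi X α) + α ^ 2 * P.psi X α
    + √X * √(1 - X) * P.V (1 - X) (X * α)

noncomputable def Phi' (α X : ℝ) : ℝ :=
  √X * √(1 - X) * (P.V (1 - X) (X * α) / (2 * X) - (n + 1 / 2) * P.V (1 - X) (X * α) / (1 - X)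
    - α ^ 2 * (1 / 2 - (n + 1 / 2) * X / (1 - X)) * P.h (1 - X) (X * α))

theorem hasDerivAt_c {X : ℝ} (h0 : 0 < X) (h1 : X < 1) :
    HasDerivAt (fun X : ℝ => √X * √(1 - X))
      (√X * √(1 - X) * (1 / (2 * X) - 1 / (2 * (1 - X)))) X := by
  have ha := (Real.hasDerivAt_sqrt (ne_of_gt h0))
  have hb := hasDerivAt_sqrt_one_sub h1
  have key := ha.fun_mul hb
  refine key.congr_deriv ?_
  have ha0 : 0 < √X := Real.sqrt_pos.2 h0
  have hb0 : 0 < √(1 - X) := Real.sqrt_pos.2 (by linarith)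
  have ha2 : X = √X ^ 2 := (Real.sq_sqrt h0.le).symm
  have hb2 : 1 - X = √(1 - X) ^ 2 := (Real.sq_sqrt (by linarith)).symm
  generalize √(1 - X) = b at *
  generalize √X = a at *
  subst ha2
  rw [hb2]
  field_simp
  ring

theorem Phi_aux (n α X c H Hx Hr V Vx Vr : ℝ) (hX : 0 < X) (hX1 : 0 < 1 - X)
    (e1 : (1 - X) * Vr = (X * α) * ((1 - X) * Hx + (n + 1) * H))
    (e2 : (1 - X) * ((X * α) * Hr + 2 * H) = (1 - X) * Vx - n * V) :
    (1 - α ^ 2) * (α * (X * c * Hr) + 2 * (c * H)) + α ^ 2 * (c * (3 / 2 - X / (2 * (1 - X))) * H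
      + X * c * (Hx * (-1) + Hr * α)) + (c * (1 / (2 * X) - 1 / (2 * (1 - X))) * V
      + c * (Vx * (-1) + Vr * α))
    = c * (V / (2 * X) - (n + 1 / 2) * V / (1 - X)
      - α ^ 2 * (1 / 2 - (n + 1 / 2) * X / (1 - X)) * H) := by
  have hX1' : (1 - X) ≠ 0 := ne_of_gt hX1
  have hX' : X ≠ 0 := ne_of_gt hX
  have f1 : Vr = (X * α) * (Hx + (n + 1) * H / (1 - X)) := by
    field_simp
    linear_combination e1
  have f2 : Vx = (X * α) * Hr + 2 * H + n * V / (1 - X) := by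
    field_simp
    linear_combination (-1 : ℝ) * e2
  rw [f1, f2]
  field_simp
  ring

theorem hasDerivAt_Phi {X : ℝ} (α : ℝ) (h0 : 0 < X) (h1 : X < 1) :
    HasDerivAt (fun X => P.Phi α X) (P.Phi' α X) X := by
  have k1 := ((((P.hasDerivAt_Psis X α).const_mul α).fun_add
    ((P.hasDerivAt_Psi X α).const_mul 2)).const_mul (1 - α ^ 2))
  have k2 := (P.hasDerivAt_psi' α h0 h1).const_mul (α ^ 2)
  have k3 := (hasDerivAt_c h0 h1).fun_mul (P.hasDerivAt_ray_V α X)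
  have key := (k1.fun_add k2).fun_add k3
  unfold Phi
  refine key.congr_deriv ?_
  have aux := Phi_aux n α X (√X * √(1 - X)) (P.h (1 - X) (X * α)) (P.hx (1 - X) (X * α))
    (P.hr (1 - X) (X * α)) (P.V (1 - X) (X * α)) (P.Vx (1 - X) (X * α)) (P.Vr (1 - X) (X * α))
    h0 (by linarith) (P.e1 _ _) (P.e2 _ _)
  unfold Phi' ker0 ker1
  linear_combination aux

theorem sqrt_mul_inv {X : ℝ} (h0 : 0 < X) : √X * √X = X := Real.mul_self_sqrt h0.le

/-- The constant from the flux bound. -/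
noncomputable def Kc (n b : ℝ) : ℝ := 1 / 2 + |n + 1 / 2| / (1 - b)

theorem Phi'_bound {α b M ε X : ℝ} (hα0 : 0 < α) (hα1 : α ≤ 1) (hb1 : b < 1)
    (h0 : 0 < X) (hXb : X ≤ b)
    (hM : |P.V (1 - X) (X * α)| ≤ M) (hε : |X * α * P.h (1 - X) (X * α)| ≤ ε) :
    |P.Phi' α X| ≤ (Kc n b * (M + ε)) / √X := by
  have hX1 : X < 1 := lt_of_le_of_lt hXb hb1
  have hs : 0 < √X := Real.sqrt_pos.2 h0
  have hM0 : 0 ≤ M := le_trans (abs_nonneg _) hM
  have hε0 : 0 ≤ ε := le_trans (abs_nonneg _) hε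
  have h1b : 0 < 1 - b := by linarith
  have h1X : 0 < 1 - X := by linarith
  have hc1 : √(1 - X) ≤ 1 := by
    exact Real.sqrt_le_iff.mpr ⟨by norm_num, by linarith⟩
  have hc0 : 0 ≤ √(1 - X) := Real.sqrt_nonneg _
  rw [le_div_iff₀ hs]
  unfold Phi' Kc
  set V := P.V (1 - X) (X * α)
  set Hh := P.h (1 - X) (X * α)
  have hk0 : 0 ≤ |n + 1 / 2| := abs_nonneg _
  have e1 : |√X * √(1 - X) * (V / (2 * X) - (n + 1 / 2) * V / (1 - X)
    - α ^ 2 * (1 / 2 - (n + 1 / 2) * X / (1 - X)) * Hh)| * √X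
    = √(1 - X) * |V / 2 - (n + 1 / 2) * X * V / (1 - X)
      - α * (1 / 2 - (n + 1 / 2) * X / (1 - X)) * (X * α * Hh)| := by
    have hXs : √X * √X = X := Real.mul_self_sqrt h0.le
    have e5 : √X * √(1 - X) * (V / (2 * X) - (n + 1 / 2) * V / (1 - X)
      - α ^ 2 * (1 / 2 - (n + 1 / 2) * X / (1 - X)) * Hh) * √X
      = √(1 - X) * (V / 2 - (n + 1 / 2) * X * V / (1 - X)
      - α * (1 / 2 - (n + 1 / 2) * X / (1 - X)) * (X * α * Hh)) := by
      have : √X * √(1 - X) * (V / (2 * X) - (n + 1 / 2) * V / (1 - X)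
        - α ^ 2 * (1 / 2 - (n + 1 / 2) * X / (1 - X)) * Hh) * √X
        = (√X * √X) * √(1 - X) * (V / (2 * X) - (n + 1 / 2) * V / (1 - X)
        - α ^ 2 * (1 / 2 - (n + 1 / 2) * X / (1 - X)) * Hh) := by ring
      rw [this, hXs]
      field_simp
    have e6 := congrArg abs e5
    rw [abs_mul _ (√X), abs_mul (√(1 - X)), abs_of_pos hs, abs_of_nonneg hc0] at e6
    exact e6
  rw [e1]
  have hfrac : |(n + 1 / 2) * X / (1 - X)| ≤ |n + 1 / 2| / (1 - b) := by
    rw [abs_div, abs_mul, abs_of_pos h0, abs_of_pos h1X]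
    apply div_le_div₀ hk0 _ h1b (by linarith)
    nlinarith
  have e2 : |V / 2 - (n + 1 / 2) * X * V / (1 - X)
      - α * (1 / 2 - (n + 1 / 2) * X / (1 - X)) * (X * α * Hh)|
      ≤ (1 / 2 + |n + 1 / 2| / (1 - b)) * (M + ε) := by
    have t1 : |V / 2| ≤ 1 / 2 * M := by
      rw [abs_div, abs_of_pos (by norm_num : (0:ℝ) < 2)]; linarith
    have t2 : |(n + 1 / 2) * X * V / (1 - X)| ≤ |n + 1 / 2| / (1 - b) * M := by
      have : (n + 1 / 2) * X * V / (1 - X) = ((n + 1 / 2) * X / (1 - X)) * V := by ring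
      rw [this, abs_mul]
      exact mul_le_mul hfrac hM (abs_nonneg _) (by positivity)
    have t3 : |α * (1 / 2 - (n + 1 / 2) * X / (1 - X)) * (X * α * Hh)|
        ≤ (1 / 2 + |n + 1 / 2| / (1 - b)) * ε := by
      rw [abs_mul, abs_mul, abs_of_pos hα0]
      have t4 : |1 / 2 - (n + 1 / 2) * X / (1 - X)| ≤ 1 / 2 + |n + 1 / 2| / (1 - b) := by
        calc |1 / 2 - (n + 1 / 2) * X / (1 - X)| ≤ |(1:ℝ) / 2| + |(n + 1 / 2) * X / (1 - X)| :=
              abs_sub _ _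
          _ ≤ 1 / 2 + |n + 1 / 2| / (1 - b) := by
              rw [abs_of_pos (by norm_num : (0:ℝ) < 1 / 2)]; linarith
      have t5 : α * |1 / 2 - (n + 1 / 2) * X / (1 - X)| ≤ 1 * (1 / 2 + |n + 1 / 2| / (1 - b)) :=
        mul_le_mul hα1 t4 (abs_nonneg _) (by norm_num)
      rw [one_mul] at t5
      exact mul_le_mul t5 hε (abs_nonneg _) (by positivity)
    calc _ ≤ |V / 2 - (n + 1 / 2) * X * V / (1 - X)|
          + |α * (1 / 2 - (n + 1 / 2) * X / (1 - X)) * (X * α * Hh)| := abs_sub _ _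
      _ ≤ (|V / 2| + |(n + 1 / 2) * X * V / (1 - X)|)
          + |α * (1 / 2 - (n + 1 / 2) * X / (1 - X)) * (X * α * Hh)| := by
            gcongr; exact abs_sub _ _
      _ ≤ (1 / 2 * M + |n + 1 / 2| / (1 - b) * M) + (1 / 2 + |n + 1 / 2| / (1 - b)) * ε := by
            gcongr
      _ = _ := by ring
  calc √(1 - X) * |V / 2 - (n + 1 / 2) * X * V / (1 - X)
      - α * (1 / 2 - (n + 1 / 2) * X / (1 - X)) * (X * α * Hh)|
      ≤ 1 * |V / 2 - (n + 1 / 2) * X * V / (1 - X)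
      - α * (1 / 2 - (n + 1 / 2) * X / (1 - X)) * (X * α * Hh)| :=
        mul_le_mul_of_nonneg_right hc1 (abs_nonneg _)
    _ ≤ _ := by rw [one_mul]; exact e2

theorem ker0_bound {α ε X : ℝ} (hα0 : 0 < α) (h0 : 0 < X) (_hX1 : X < 1)
    (hε : |X * α * P.h (1 - X) (X * α)| ≤ ε) : |P.ker0 X α| ≤ (ε / α) / √X := by
  have hs : 0 < √X := Real.sqrt_pos.2 h0
  have hc1 : √(1 - X) ≤ 1 := by
    exact Real.sqrt_le_iff.mpr ⟨by norm_num, by linarith⟩
  have hc0 : 0 ≤ √(1 - X) := Real.sqrt_nonneg _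
  rw [le_div_iff₀ hs, le_div_iff₀ hα0]
  unfold ker0
  have : |√X * √(1 - X) * P.h (1 - X) (X * α)| * √X * α
      = √(1 - X) * |X * α * P.h (1 - X) (X * α)| := by
    rw [abs_mul, abs_mul, abs_mul, abs_mul, abs_of_pos hs, abs_of_nonneg hc0, abs_of_pos h0,
      abs_of_pos hα0]
    have hXs : √X * √X = X := Real.mul_self_sqrt h0.le
    calc _ = (√X * √X) * √(1 - X) * α * |P.h (1 - X) (X * α)| := by ring
      _ = _ := by rw [hXs]; ring
  rw [this]
  calc _ ≤ 1 * |X * α * P.h (1 - X) (X * α)| := mul_le_mul_of_nonneg_right hc1 (abs_nonneg _)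
    _ ≤ ε := by rw [one_mul]; exact hε

theorem psi_bound {α ε X : ℝ} (hα0 : 0 < α) (h0 : 0 < X) (hX1 : X < 1)
    (hε : |X * α * P.h (1 - X) (X * α)| ≤ ε) : |P.psi X α| ≤ (ε / α) * √X := by
  have hs : 0 < √X := Real.sqrt_pos.2 h0
  have h := P.ker0_bound hα0 h0 hX1 hε
  rw [le_div_iff₀ hs] at h
  unfold psi
  rw [abs_mul, abs_of_pos h0]
  have hXs : √X * √X = X := Real.mul_self_sqrt h0.le
  calc X * |P.ker0 X α| = (|P.ker0 X α| * √X) * √X := by rw [mul_assoc, hXs]; ring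
    _ ≤ _ := mul_le_mul_of_nonneg_right h hs.le

theorem G_bound {α b M ε : ℝ} (hα0 : 0 < α) (hα1 : α ≤ 1) (hb1 : b < 1)
    (hM : ∀ X ∈ Icc 0 b, |P.V (1 - X) (X * α)| ≤ M)
    (hε : ∀ X ∈ Icc 0 b, |X * α * P.h (1 - X) (X * α)| ≤ ε) {X : ℝ} (h0 : 0 < X) (hXb : X ≤ b) :
    (2 / X) * P.G X α ≤ 2 * ε * (2 * (Kc n b * (M + ε)) + M + 6 * ε) := by
  have hb0 : 0 ≤ b := h0.le.trans hXb
  have hX1 : X < 1 := lt_of_le_of_lt hXb hb1
  have hs : 0 < √X := Real.sqrt_pos.2 h0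
  have hXs : √X * √X = X := Real.mul_self_sqrt h0.le
  have hM0 : 0 ≤ M := le_trans (abs_nonneg _) (hM 0 ⟨le_refl _, hb0⟩)
  have hε0 : 0 ≤ ε := le_trans (abs_nonneg _) (hε 0 ⟨le_refl _, hb0⟩)
  have hXI : X ∈ Icc 0 b := ⟨h0.le, hXb⟩
  have hK0 : 0 ≤ Kc n b := by
    unfold Kc
    have : 0 < 1 - b := by linarith
    positivity
  -- bound on Psi
  have hPsi : |P.Psi X α| ≤ 2 * (ε / α) * √X := by
    apply abs_le_of_deriv_le_inv_sqrt (f := fun X => P.Psi X α) (f' := fun X => P.ker0 X α)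
      (b := b) _ _ _ _ X hXI
    · exact fun X _ => (P.hasDerivAt_Psi X α).continuousAt.continuousWithinAt
    · simp [Psi]
    · exact fun X _ => P.hasDerivAt_Psi X α
    · intro x hx
      exact P.ker0_bound hα0 hx.1 (hx.2.trans hb1) (hε x ⟨hx.1.le, hx.2.le⟩)
  have hpsi := P.psi_bound hα0 h0 hX1 (hε X hXI)
  have hPhi : |P.Phi α X| ≤ 2 * (Kc n b * (M + ε)) * √X := by
    apply abs_le_of_deriv_le_inv_sqrt (f := fun X => P.Phi α X) (f' := fun X => P.Phi' α X)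
      (b := b) _ _ _ _ X hXI
    · intro x hx
      have c1 := (P.hasDerivAt_Psis x α).continuousAt
      have c2 := (P.hasDerivAt_Psi x α).continuousAt
      have c3 : ContinuousAt (fun X => P.psi X α) x :=
        (P.cont_psi.comp (f := fun X : ℝ => (X, α)) (by fun_prop)).continuousAt
      have c4 : ContinuousAt (fun X => P.V (1 - X) (X * α)) x :=
        (P.cV.comp (f := fun X : ℝ => (1 - X, X * α)) (by fun_prop)).continuousAt
      unfold Phi
      exact ContinuousAt.continuousWithinAt (by fun_prop)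
    · simp [Phi, Psi, Psis, psi]
    · exact fun x hx => P.hasDerivAt_Phi α hx.1 (hx.2.trans hb1)
    · intro x hx
      exact P.Phi'_bound hα0 hα1 hb1 hx.1 hx.2.le (hM x ⟨hx.1.le, hx.2.le⟩)
        (hε x ⟨hx.1.le, hx.2.le⟩)
  have hc1 : √(1 - X) ≤ 1 := by
    exact Real.sqrt_le_iff.mpr ⟨by norm_num, by linarith⟩
  have hc0 : 0 ≤ √(1 - X) := Real.sqrt_nonneg _
  have hα2 : 0 ≤ 1 - α ^ 2 := by nlinarith
  have hα2' : 1 - α ^ 2 ≤ 1 := by nlinarith
  -- bound on (1 - α^2) α Psis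
  have hPsis : |(1 - α ^ 2) * (α * P.Psis X α)| ≤
      (2 * (Kc n b * (M + ε)) + 5 * (ε / α) + M) * √X := by
    have heq : (1 - α ^ 2) * (α * P.Psis X α) = P.Phi α X - (1 - α ^ 2) * (2 * P.Psi X α)
        - α ^ 2 * P.psi X α - √X * √(1 - X) * P.V (1 - X) (X * α) := by
      unfold Phi; ring
    rw [heq]
    have t1 : |(1 - α ^ 2) * (2 * P.Psi X α)| ≤ 4 * (ε / α) * √X := by
      rw [abs_mul, abs_mul, abs_of_nonneg hα2, abs_of_pos (by norm_num : (0:ℝ) < 2)]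
      calc (1 - α ^ 2) * (2 * |P.Psi X α|) ≤ 1 * (2 * |P.Psi X α|) :=
            mul_le_mul_of_nonneg_right hα2' (by positivity)
        _ ≤ _ := by linarith
    have t2 : |α ^ 2 * P.psi X α| ≤ (ε / α) * √X := by
      rw [abs_mul, abs_of_nonneg (by positivity : (0:ℝ) ≤ α ^ 2)]
      calc α ^ 2 * |P.psi X α| ≤ 1 * |P.psi X α| := by
            apply mul_le_mul_of_nonneg_right _ (abs_nonneg _)
            nlinarith
        _ ≤ _ := by rw [one_mul]; exact hpsi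
    have t3 : |√X * √(1 - X) * P.V (1 - X) (X * α)| ≤ M * √X := by
      rw [abs_mul, abs_mul, abs_of_pos hs, abs_of_nonneg hc0]
      calc √X * √(1 - X) * |P.V (1 - X) (X * α)| ≤ √X * 1 * M := by
            apply mul_le_mul _ (hM X hXI) (abs_nonneg _) (by positivity)
            exact mul_le_mul_of_nonneg_left hc1 hs.le
        _ = _ := by ring
    calc _ ≤ |P.Phi α X| + |(1 - α ^ 2) * (2 * P.Psi X α)| + |α ^ 2 * P.psi X α|
          + |√X * √(1 - X) * P.V (1 - X) (X * α)| := by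
            refine (abs_sub _ _).trans ?_
            gcongr
            refine (abs_sub _ _).trans ?_
            gcongr
            exact abs_sub _ _
      _ ≤ 2 * (Kc n b * (M + ε)) * √X + 4 * (ε / α) * √X + (ε / α) * √X + M * √X := by
            gcongr
      _ = _ := by ring
  -- the flux
  have hG : P.G X α = α ^ 2 * (((1 - α ^ 2) * (α * P.Psis X α)) * P.psi X α)
      + α ^ 4 * P.psi X α ^ 2 := by
    unfold G; ring
  have u1 : ((1 - α ^ 2) * (α * P.Psis X α)) * P.psi X α ≤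
      ((2 * (Kc n b * (M + ε)) + 5 * (ε / α) + M) * √X) * ((ε / α) * √X) := by
    refine (le_abs_self _).trans ?_
    rw [abs_mul]
    exact mul_le_mul hPsis hpsi (abs_nonneg _) (by positivity)
  have u2 : P.psi X α ^ 2 ≤ ((ε / α) * √X) ^ 2 := by
    rw [← sq_abs]
    exact pow_le_pow_left₀ (abs_nonneg _) hpsi 2
  have u3 : P.G X α ≤ X * (ε * (2 * (Kc n b * (M + ε)) + M + 6 * ε)) := by
    rw [hG]
    calc _ ≤ α ^ 2 * (((2 * (Kc n b * (M + ε)) + 5 * (ε / α) + M) * √X) * ((ε / α) * √X))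
          + α ^ 4 * ((ε / α) * √X) ^ 2 := by
            gcongr
      _ = (√X * √X) * (ε * (α * (2 * (Kc n b * (M + ε)) + M) + 5 * ε + α ^ 2 * ε)) := by
            field_simp
            ring
      _ ≤ (√X * √X) * (ε * (1 * (2 * (Kc n b * (M + ε)) + M) + 5 * ε + 1 * ε)) := by
            have : α ^ 2 ≤ 1 := by nlinarith
            gcongr
      _ = _ := by rw [hXs]; ring
  calc (2 / X) * P.G X α ≤ (2 / X) * (X * (ε * (2 * (Kc n b * (M + ε)) + M + 6 * ε))) :=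
        mul_le_mul_of_nonneg_left u3 (by positivity)
    _ = _ := by field_simp

/-- Main energy estimate. -/
theorem energy_bound {α b M ε : ℝ} (hα0 : 0 < α) (hα1 : α ≤ 1) (hb0 : 0 < b) (hb1 : b < 1)
    (hM : ∀ X ∈ Icc 0 b, |P.V (1 - X) (X * α)| ≤ M)
    (hε : ∀ X ∈ Icc 0 b, |X * α * P.h (1 - X) (X * α)| ≤ ε) :
    ∫ s in (0:ℝ)..α, s ^ 3 * P.psi b s ^ 2 ≤
      Real.exp ((1 + |(n + 1) ^ 2 - 1 / 4| / (1 - b) ^ 2) * b) *
        ((2 * ε * (2 * (Kc n b * (M + ε)) + M + 6 * ε)) * b) := by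
  have hM0 : 0 ≤ M := le_trans (abs_nonneg _) (hM 0 ⟨le_refl _, hb0.le⟩)
  have hε0 : 0 ≤ ε := le_trans (abs_nonneg _) (hε 0 ⟨le_refl _, hb0.le⟩)
  have h1b : 0 < 1 - b := by linarith
  have hK0 : 0 ≤ Kc n b := by
    unfold Kc
    positivity
  have hg := gronwall_zero (H := fun X => P.H α X) (H' := fun X => ∫ s in (0:ℝ)..α, P.En' X s)
    (b := b) (A := 2 * ε * (2 * (Kc n b * (M + ε)) + M + 6 * ε))
    (K := 1 + |(n + 1) ^ 2 - 1 / 4| / (1 - b) ^ 2) (by positivity) (by positivity)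
    (P.contOn_H hα0 hα1 hb1) (P.H_zero α)
    (fun x hx => P.hasDerivAt_H α hx.1 (hx.2.trans hb1))
    (by
      intro x hx
      have h1 := P.H_deriv_le (Q := |(n + 1) ^ 2 - 1 / 4| / (1 - b) ^ 2) hα0 hα1 hx.1
        (hx.2.trans hb1) (by
          unfold q
          rw [abs_div, abs_of_nonneg (by positivity : 0 ≤ (1 - x) ^ 2)]
          apply div_le_div_of_nonneg_left (abs_nonneg _) (by positivity)
          apply pow_le_pow_left₀ h1b.le
          linarith [hx.2])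
      have h2 := P.G_bound hα0 hα1 hb1 hM hε hx.1 hx.2.le
      linarith)
  have h := hg b ⟨hb0.le, le_refl _⟩
  refine le_trans ?_ h
  unfold H
  have hcpsi : Continuous fun s => P.psi b s :=
    P.cont_psi.comp (f := fun s : ℝ => (b, s)) (by fun_prop)
  have hcEn : Continuous fun s => P.En b s := by
    have := (P.contOn_En hb1).comp_continuous (f := fun s : ℝ => (b, s)) (by fun_prop)
      (fun s => ⟨⟨hb0, le_refl _⟩, trivial⟩)
    exact this
  apply intervalIntegral.integral_mono_on hα0.le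
    ((by fun_prop : Continuous fun s => s ^ 3 * P.psi b s ^ 2).intervalIntegrable _ _)
    (hcEn.intervalIntegrable _ _)
  intro s hs
  unfold En
  have hs1 : s ≤ 1 := hs.2.trans hα1
  have hs2 : 0 ≤ 1 - s ^ 2 := by nlinarith [hs.1]
  apply mul_le_mul_of_nonneg_left _ (pow_nonneg hs.1 3)
  have : 0 ≤ (1 - s ^ 2) * P.Psis b s ^ 2 + 15 / 4 * P.Psi b s ^ 2 + (P.Th b s / b) ^ 2 := by
    positivity
  linarith

end MPair

end Pool.Agent.Lib.MP_9de1de_an
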