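import Mathlib

set_option autoImplicit false

namespace Pool.Agent.Lib.MP_9de1de_an

open MeasureTheory Set Filter Topology

/-- Leibniz rule on a compact rectangle. -/
theorem leibniz {F F' : ℝ → ℝ → ℝ} {a b x₀ δ : ℝ} (hδ : 0 < δ)
    (hF : ContinuousOn (fun p : ℝ × ℝ => F p.1 p.2) (Icc (x₀ - δ) (x₀ + δ) ×ˢ uIcc a b))
    (hF' : ContinuousOn (fun p : ℝ × ℝ => F' p.1 p.2) (Icc (x₀ - δ) (x₀ + δ) ×ˢ uIcc a b))
    (hd : ∀ x ∈ Icc (x₀ - δ) (x₀ + δ), ∀ t ∈ uIcc a b,
      HasDerivAt (fun x => F x t) (F' x t) x) :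
    HasDerivAt (fun x => ∫ t in a..b, F x t) (∫ t in a..b, F' x₀ t) x₀ := by
  have hx₀ : x₀ ∈ Icc (x₀ - δ) (x₀ + δ) := ⟨by linarith, by linarith⟩
  have hcomp : IsCompact (Icc (x₀ - δ) (x₀ + δ) ×ˢ uIcc a b) :=
    isCompact_Icc.prod isCompact_uIcc
  obtain ⟨C, hC⟩ := hcomp.exists_bound_of_continuousOn hF'
  have hsec : ∀ x ∈ Icc (x₀ - δ) (x₀ + δ), ContinuousOn (fun t => F x t) (uIcc a b) := by
    intro x hx
    exact hF.comp (f := fun t : ℝ => (x, t)) (by fun_prop) (fun t ht => ⟨hx, ht⟩)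
  have hsec' : ∀ x ∈ Icc (x₀ - δ) (x₀ + δ), ContinuousOn (fun t => F' x t) (uIcc a b) := by
    intro x hx
    exact hF'.comp (f := fun t : ℝ => (x, t)) (by fun_prop) (fun t ht => ⟨hx, ht⟩)
  have hmeas : ∀ {g : ℝ → ℝ}, ContinuousOn g (uIcc a b) →
      AEStronglyMeasurable g (volume.restrict (Set.uIoc a b)) := by
    intro g hg
    exact (hg.mono uIoc_subset_uIcc).aestronglyMeasurable measurableSet_uIoc
  have key := intervalIntegral.hasDerivAt_integral_of_dominated_loc_of_deriv_le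
    (μ := volume) (F := F) (F' := F') (x₀ := x₀) (a := a) (b := b)
    (s := Icc (x₀ - δ) (x₀ + δ)) (bound := fun _ => C)
    (Icc_mem_nhds (by linarith) (by linarith))
    (by
      filter_upwards [Icc_mem_nhds (a := x₀ - δ) (b := x₀ + δ) (by linarith) (by linarith)]
        with x hx
      exact hmeas (hsec x hx))
    ((hsec x₀ hx₀).intervalIntegrable)
    (hmeas (hsec' x₀ hx₀))
    (by
      refine Filter.Eventually.of_forall ?_
      intro t ht x hx
      exact hC (x, t) ⟨hx, uIoc_subset_uIcc ht⟩)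
    (by simp)
    (by
      refine Filter.Eventually.of_forall ?_
      intro t ht x hx
      exact hd x hx t (uIoc_subset_uIcc ht))
  exact key.2

/-- If `f` is continuous on `[0, b)`, `f 0 = 0` and the derivative vanishes on `(0, b)`
then `f = 0`. -/
theorem eq_zero_of_deriv_zero {f : ℝ → ℝ} {b : ℝ}
    (hc : ContinuousOn f (Ico 0 b)) (h0 : f 0 = 0)
    (hd : ∀ x ∈ Ioo 0 b, HasDerivAt f 0 x) : ∀ x ∈ Ico 0 b, f x = 0 := by
  intro x hx
  rcases eq_or_lt_of_le hx.1 with h | h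
  · rw [← h, h0]
  · obtain ⟨c, hc1, hc2⟩ := exists_hasDerivAt_eq_slope f (fun _ => 0) h
      (hc.mono (fun y hy => ⟨hy.1, lt_of_le_of_lt hy.2 hx.2⟩))
      (fun y hy => hd y ⟨hy.1, hy.2.trans hx.2⟩)
    have : (f x - f 0) / (x - 0) = 0 := hc2.symm
    rw [h0, sub_zero, sub_zero, div_eq_zero_iff] at this
    rcases this with h' | h'
    · exact h'
    · exact absurd h' (ne_of_gt h)

/-- Comparison: a bound `f' ≤ K / √x` near `0` gives `f ≤ 2 K √x`. -/
theorem le_of_deriv_le_inv_sqrt {f f' : ℝ → ℝ} {b K : ℝ}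
    (hc : ContinuousOn f (Icc 0 b)) (h0 : f 0 = 0)
    (hd : ∀ x ∈ Ioo 0 b, HasDerivAt f (f' x) x)
    (hb : ∀ x ∈ Ioo 0 b, f' x ≤ K / √x) : ∀ x ∈ Icc 0 b, f x ≤ 2 * K * √x := by
  have hanti : AntitoneOn (fun x => f x - 2 * K * √x) (Icc 0 b) := by
    apply antitoneOn_of_deriv_nonpos (convex_Icc 0 b)
    · exact hc.sub (by fun_prop)
    · rw [interior_Icc]
      intro x hx
      have h1 := (hd x hx).sub ((Real.hasDerivAt_sqrt (ne_of_gt hx.1)).const_mul (2 * K))
      exact h1.differentiableAt.differentiableWithinAt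
    · rw [interior_Icc]
      intro x hx
      have h1 := (hd x hx).sub ((Real.hasDerivAt_sqrt (ne_of_gt hx.1)).const_mul (2 * K))
      have h2 : deriv (fun x => f x - 2 * K * √x) x = f' x - 2 * K * (1 / (2 * √x)) := h1.deriv
      rw [h2]
      have h3 := hb x hx
      have h4 : 2 * K * (1 / (2 * √x)) = K / √x := by
        have : √x ≠ 0 := by
          rw [Real.sqrt_ne_zero']; exact hx.1
        field_simp
      rw [h4]; linarith
  intro x hx
  have h := hanti (left_mem_Icc.2 (hx.1.trans hx.2)) hx hx.1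
  simp only [h0, Real.sqrt_zero, mul_zero, sub_zero] at h
  linarith

theorem abs_le_of_deriv_le_inv_sqrt {f f' : ℝ → ℝ} {b K : ℝ}
    (hc : ContinuousOn f (Icc 0 b)) (h0 : f 0 = 0)
    (hd : ∀ x ∈ Ioo 0 b, HasDerivAt f (f' x) x)
    (hb : ∀ x ∈ Ioo 0 b, |f' x| ≤ K / √x) : ∀ x ∈ Icc 0 b, |f x| ≤ 2 * K * √x := by
  intro x hx
  rw [abs_le]
  constructor
  · have := le_of_deriv_le_inv_sqrt (f := fun x => - f x) (f' := fun x => - f' x) hc.neg
      (by simp [h0]) (fun y hy => (hd y hy).neg)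
      (fun y hy => le_trans (neg_le_abs _) (hb y hy)) x hx
    linarith
  · exact le_of_deriv_le_inv_sqrt hc h0 hd (fun y hy => le_trans (le_abs_self _) (hb y hy)) x hx

/-- Gronwall on `(0, b]` with zero limit at `0`. -/
theorem gronwall_zero {H H' : ℝ → ℝ} {b A K : ℝ} (_hA : 0 ≤ A) (hK : 0 ≤ K)
    (hc : ContinuousOn H (Icc 0 b)) (h0 : H 0 = 0)
    (hd : ∀ x ∈ Ioo 0 b, HasDerivAt H (H' x) x)
    (hb : ∀ x ∈ Ioo 0 b, H' x ≤ A + K * H x) :
    ∀ x ∈ Icc 0 b, H x ≤ Real.exp (K * x) * (A * x) := by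
  have hanti : AntitoneOn (fun x => Real.exp (-(K * x)) * H x - A * x) (Icc 0 b) := by
    apply antitoneOn_of_deriv_nonpos (convex_Icc 0 b)
    · exact ((by fun_prop : ContinuousOn (fun x : ℝ => Real.exp (-(K * x))) (Icc 0 b)).mul hc).sub
        (by fun_prop)
    · rw [interior_Icc]
      intro x hx
      have h1 : HasDerivAt (fun x : ℝ => Real.exp (-(K * x))) (Real.exp (-(K * x)) * (-(K * 1))) x :=
        (((hasDerivAt_id x).const_mul K).neg).exp
      have h2 := (h1.mul (hd x hx)).sub ((hasDerivAt_id x).const_mul A)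
      exact h2.differentiableAt.differentiableWithinAt
    · rw [interior_Icc]
      intro x hx
      have h1 : HasDerivAt (fun x : ℝ => Real.exp (-(K * x))) (Real.exp (-(K * x)) * (-(K * 1))) x :=
        (((hasDerivAt_id x).const_mul K).neg).exp
      have h2 := (h1.mul (hd x hx)).sub ((hasDerivAt_id x).const_mul A)
      have h3 : deriv (fun x => Real.exp (-(K * x)) * H x - A * x) x
          = Real.exp (-(K * x)) * (-(K * 1)) * H x + Real.exp (-(K * x)) * H' x - A * 1 := h2.deriv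
      rw [h3]
      have h4 := hb x hx
      have h5 : 0 < Real.exp (-(K * x)) := Real.exp_pos _
      have h6 : Real.exp (-(K * x)) ≤ 1 := by
        rw [Real.exp_le_one_iff]
        have := mul_nonneg hK hx.1.le
        linarith
      have h7 : Real.exp (-(K * x)) * (H' x - K * H x) ≤ Real.exp (-(K * x)) * A :=
        mul_le_mul_of_nonneg_left (by linarith) h5.le
      have h8 : Real.exp (-(K * x)) * A ≤ 1 * A := mul_le_mul_of_nonneg_right h6 _hA
      nlinarith
  intro x hx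
  have h := hanti (left_mem_Icc.2 (hx.1.trans hx.2)) hx hx.1
  simp only [h0, mul_zero, sub_zero] at h
  have h5 : 0 < Real.exp (K * x) := Real.exp_pos _
  have h6 : Real.exp (K * x) * Real.exp (-(K * x)) = 1 := by
    rw [← Real.exp_add]; simp
  have h7 : Real.exp (-(K * x)) * H x ≤ A * x := by linarith
  calc H x = Real.exp (K * x) * Real.exp (-(K * x)) * H x := by rw [h6]; ring
    _ = Real.exp (K * x) * (Real.exp (-(K * x)) * H x) := by ring
    _ ≤ Real.exp (K * x) * (A * x) := mul_le_mul_of_nonneg_left h7 h5.le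

end Pool.Agent.Lib.MP_9de1de_an
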