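import Pool.Agent.Lib.MP_9de1de_an.Calc

set_option autoImplicit false

namespace Pool.Agent.Lib.MP_9de1de_an

open MeasureTheory Set Filter Topology

/-- `h` has (total) derivative given by the two partial derivatives `hx`, `hr`. -/
def HasD (h hx hr : ℝ → ℝ → ℝ) : Prop :=
  ∀ (u w : ℝ → ℝ) (u' w' t : ℝ), HasDerivAt u u' t → HasDerivAt w w' t →
    HasDerivAt (fun s => h (u s) (w s)) (hx (u t) (w t) * u' + hr (u t) (w t) * w') t

/-- Circle moments of a smooth function of angular mode `n`: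
`r * h x r` is the first moment, `V x r` the mean over the circle of centre `x`, radius `r`. -/
structure MPair (n : ℝ) where
  h : ℝ → ℝ → ℝ
  hx : ℝ → ℝ → ℝ
  hr : ℝ → ℝ → ℝ
  hxx : ℝ → ℝ → ℝ
  hxr : ℝ → ℝ → ℝ
  hrr : ℝ → ℝ → ℝ
  V : ℝ → ℝ → ℝ
  Vx : ℝ → ℝ → ℝ
  Vr : ℝ → ℝ → ℝ
  dh : HasD h hx hr
  dhx : HasD hx hxx hxr
  dhr : HasD hr hxr hrr
  dV : HasD V Vx Vr
  ch : Continuous fun p : ℝ × ℝ => h p.1 p.2
  chx : Continuous fun p : ℝ × ℝ => hx p.1 p.2
  chr : Continuous fun p : ℝ × ℝ => hr p.1 p.2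
  chrr : Continuous fun p : ℝ × ℝ => hrr p.1 p.2
  cV : Continuous fun p : ℝ × ℝ => V p.1 p.2
  e1 : ∀ x r, x * Vr x r = r * (x * hx x r + (n + 1) * h x r)
  e2 : ∀ x r, x * (r * hr x r + 2 * h x r) = x * Vx x r - n * V x r
  e3 : ∀ x r, x ^ 2 * (r * hrr x r + 3 * hr x r)
    = r * (x ^ 2 * hxx x r + x * hx x r - (n + 1) ^ 2 * h x r)

namespace MPair

variable {n : ℝ} (P : MPair n)

/-- The potential. -/
noncomputable def q (n X : ℝ) : ℝ := ((n + 1) ^ 2 - 1 / 4) / (1 - X) ^ 2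

noncomputable def ker0 (y s : ℝ) : ℝ := √y * √(1 - y) * P.h (1 - y) (y * s)
noncomputable def ker1 (y s : ℝ) : ℝ := y * √y * √(1 - y) * P.hr (1 - y) (y * s)
noncomputable def ker2 (y s : ℝ) : ℝ := y ^ 2 * √y * √(1 - y) * P.hrr (1 - y) (y * s)
noncomputable def kerT (y s : ℝ) : ℝ := q n y * (y ^ 2 * √y * √(1 - y) * P.h (1 - y) (y * s))

noncomputable def psi (X s : ℝ) : ℝ := X * P.ker0 X s
noncomputable def psis (X s : ℝ) : ℝ := X * P.ker1 X s
noncomputable def Psi (X s : ℝ) : ℝ := ∫ y in (0:ℝ)..X, P.ker0 y s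
noncomputable def Psis (X s : ℝ) : ℝ := ∫ y in (0:ℝ)..X, P.ker1 y s
noncomputable def Psiss (X s : ℝ) : ℝ := ∫ y in (0:ℝ)..X, P.ker2 y s
noncomputable def Th (X s : ℝ) : ℝ := ∫ y in (0:ℝ)..X, P.kerT y s

/-- `X ∂_X ψ`. -/
noncomputable def spsi (X s : ℝ) : ℝ :=
  X * √X * √(1 - X) * ((3 / 2) * P.h (1 - X) (X * s) - X / (2 * (1 - X)) * P.h (1 - X) (X * s)
    - X * P.hx (1 - X) (X * s) + X * s * P.hr (1 - X) (X * s))

theorem cont_ker0 : Continuous fun p : ℝ × ℝ => P.ker0 p.1 p.2 := by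
  have h := P.ch.comp (f := fun p : ℝ × ℝ => (1 - p.1, p.1 * p.2)) (by fun_prop)
  unfold ker0
  exact (by fun_prop : Continuous fun p : ℝ × ℝ => √p.1 * √(1 - p.1)).mul h

theorem cont_ker1 : Continuous fun p : ℝ × ℝ => P.ker1 p.1 p.2 := by
  have h := P.chr.comp (f := fun p : ℝ × ℝ => (1 - p.1, p.1 * p.2)) (by fun_prop)
  unfold ker1
  exact (by fun_prop : Continuous fun p : ℝ × ℝ => p.1 * √p.1 * √(1 - p.1)).mul h

theorem cont_ker2 : Continuous fun p : ℝ × ℝ => P.ker2 p.1 p.2 := by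
  have h := P.chrr.comp (f := fun p : ℝ × ℝ => (1 - p.1, p.1 * p.2)) (by fun_prop)
  unfold ker2
  exact (by fun_prop : Continuous fun p : ℝ × ℝ => p.1 ^ 2 * √p.1 * √(1 - p.1)).mul h

theorem cont_kerT : ContinuousOn (fun p : ℝ × ℝ => P.kerT p.1 p.2) {p | p.1 < 1} := by
  have h := P.ch.comp (f := fun p : ℝ × ℝ => (1 - p.1, p.1 * p.2)) (by fun_prop)
  unfold kerT q
  apply ContinuousOn.mul
  · apply ContinuousOn.div (by fun_prop) (by fun_prop)
    intro p hp
    have : p.1 < 1 := hp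
    have : (1 - p.1) ≠ 0 := by intro h0; linarith
    exact pow_ne_zero 2 this
  · exact ((by fun_prop : Continuous fun p : ℝ × ℝ => p.1 ^ 2 * √p.1 * √(1 - p.1)).mul h).continuousOn

theorem cont_psi : Continuous fun p : ℝ × ℝ => P.psi p.1 p.2 := by
  unfold psi
  exact continuous_fst.mul P.cont_ker0

theorem cont_psis : Continuous fun p : ℝ × ℝ => P.psis p.1 p.2 := by
  unfold psis
  exact continuous_fst.mul P.cont_ker1

theorem hasDerivAt_sqrt_one_sub {X : ℝ} (hX : X < 1) :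
    HasDerivAt (fun X : ℝ => √(1 - X)) (-1 / (2 * √(1 - X))) X := by
  have h1 : HasDerivAt (fun X : ℝ => 1 - X) (-1) X := by
    simpa using (hasDerivAt_id X).const_sub 1
  exact h1.sqrt (by intro h0; linarith)

theorem hasDerivAt_ray (s X : ℝ) :
    HasDerivAt (fun X => P.h (1 - X) (X * s))
      (P.hx (1 - X) (X * s) * (-1) + P.hr (1 - X) (X * s) * s) X := by
  have h1 : HasDerivAt (fun X : ℝ => 1 - X) (-1) X := by
    simpa using (hasDerivAt_id X).const_sub 1
  have h2 : HasDerivAt (fun X : ℝ => X * s) s X := by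
    simpa using (hasDerivAt_id X).mul_const s
  exact P.dh _ _ _ _ X h1 h2

theorem hasDerivAt_ray_x (s X : ℝ) :
    HasDerivAt (fun X => P.hx (1 - X) (X * s))
      (P.hxx (1 - X) (X * s) * (-1) + P.hxr (1 - X) (X * s) * s) X := by
  have h1 : HasDerivAt (fun X : ℝ => 1 - X) (-1) X := by
    simpa using (hasDerivAt_id X).const_sub 1
  have h2 : HasDerivAt (fun X : ℝ => X * s) s X := by
    simpa using (hasDerivAt_id X).mul_const s
  exact P.dhx _ _ _ _ X h1 h2

theorem hasDerivAt_ray_r (s X : ℝ) :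
    HasDerivAt (fun X => P.hr (1 - X) (X * s))
      (P.hxr (1 - X) (X * s) * (-1) + P.hrr (1 - X) (X * s) * s) X := by
  have h1 : HasDerivAt (fun X : ℝ => 1 - X) (-1) X := by
    simpa using (hasDerivAt_id X).const_sub 1
  have h2 : HasDerivAt (fun X : ℝ => X * s) s X := by
    simpa using (hasDerivAt_id X).mul_const s
  exact P.dhr _ _ _ _ X h1 h2

theorem hasDerivAt_ray_V (s X : ℝ) :
    HasDerivAt (fun X => P.V (1 - X) (X * s))
      (P.Vx (1 - X) (X * s) * (-1) + P.Vr (1 - X) (X * s) * s) X := by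
  have h1 : HasDerivAt (fun X : ℝ => 1 - X) (-1) X := by
    simpa using (hasDerivAt_id X).const_sub 1
  have h2 : HasDerivAt (fun X : ℝ => X * s) s X := by
    simpa using (hasDerivAt_id X).mul_const s
  exact P.dV _ _ _ _ X h1 h2

theorem hasDerivAt_psi {X : ℝ} (s : ℝ) (h0 : 0 < X) (h1 : X < 1) :
    HasDerivAt (fun X => P.psi X s) (P.spsi X s / X) X := by
  have ha := (Real.hasDerivAt_sqrt (ne_of_gt h0))
  have hb := hasDerivAt_sqrt_one_sub h1
  have hh := P.hasDerivAt_ray s X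
  have key := (hasDerivAt_id' X).fun_mul ((ha.fun_mul hb).fun_mul hh)
  refine key.congr_deriv ?_
  unfold spsi
  have ha0 : 0 < √X := Real.sqrt_pos.2 h0
  have hb0 : 0 < √(1 - X) := Real.sqrt_pos.2 (by linarith)
  have ha2 : X = √X ^ 2 := (Real.sq_sqrt h0.le).symm
  have hb2 : 1 - X = √(1 - X) ^ 2 := (Real.sq_sqrt (by linarith)).symm
  generalize P.h (1 - X) (X * s) = H at *
  generalize P.hx (1 - X) (X * s) = Hx at *
  generalize P.hr (1 - X) (X * s) = Hr at *
  generalize √(1 - X) = b at *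
  generalize √X = a at *
  subst ha2
  rw [hb2]
  field_simp
  ring

theorem hasDerivAt_Psi (X s : ℝ) : HasDerivAt (fun X => P.Psi X s) (P.ker0 X s) X := by
  have hc : Continuous fun y => P.ker0 y s :=
    P.cont_ker0.comp (f := fun y : ℝ => (y, s)) (by fun_prop)
  exact intervalIntegral.integral_hasDerivAt_right (hc.intervalIntegrable _ _)
    hc.aestronglyMeasurable.stronglyMeasurableAtFilter hc.continuousAt

theorem hasDerivAt_Psis (X s : ℝ) : HasDerivAt (fun X => P.Psis X s) (P.ker1 X s) X := by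
  have hc : Continuous fun y => P.ker1 y s :=
    P.cont_ker1.comp (f := fun y : ℝ => (y, s)) (by fun_prop)
  exact intervalIntegral.integral_hasDerivAt_right (hc.intervalIntegrable _ _)
    hc.aestronglyMeasurable.stronglyMeasurableAtFilter hc.continuousAt

theorem hasDerivAt_Psiss (X s : ℝ) : HasDerivAt (fun X => P.Psiss X s) (P.ker2 X s) X := by
  have hc : Continuous fun y => P.ker2 y s :=
    P.cont_ker2.comp (f := fun y : ℝ => (y, s)) (by fun_prop)
  exact intervalIntegral.integral_hasDerivAt_right (hc.intervalIntegrable _ _)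
    hc.aestronglyMeasurable.stronglyMeasurableAtFilter hc.continuousAt

theorem contOn_kerT (s : ℝ) : ContinuousOn (fun y => P.kerT y s) (Iio 1) :=
  P.cont_kerT.comp (f := fun y : ℝ => (y, s)) (by fun_prop) (fun y hy => hy)

theorem hasDerivAt_Th {X : ℝ} (s : ℝ) (h0 : 0 ≤ X) (h1 : X < 1) :
    HasDerivAt (fun X => P.Th X s) (P.kerT X s) X := by
  have hc := P.contOn_kerT s
  refine intervalIntegral.integral_hasDerivAt_right ?_ ?_ ?_
  · apply ContinuousOn.intervalIntegrable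
    apply hc.mono
    intro y hy
    rw [uIcc_of_le h0] at hy
    exact lt_of_le_of_lt hy.2 h1
  · exact hc.stronglyMeasurableAtFilter isOpen_Iio X h1
  · exact hc.continuousAt (Iio_mem_nhds h1)

theorem hasDerivAt_amp {X : ℝ} (h0 : 0 < X) (h1 : X < 1) :
    HasDerivAt (fun X : ℝ => X * (√X * √(1 - X)))
      (√X * √(1 - X) * (3 / 2 - X / (2 * (1 - X)))) X := by
  have ha := (Real.hasDerivAt_sqrt (ne_of_gt h0))
  have hb := hasDerivAt_sqrt_one_sub h1
  have key := (hasDerivAt_id' X).fun_mul (ha.fun_mul hb)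
  refine key.congr_deriv ?_
  have ha0 : 0 < √X := Real.sqrt_pos.2 h0
  have hb0 : 0 < √(1 - X) := Real.sqrt_pos.2 (by linarith)
  have ha2 : X = √X ^ 2 := (Real.sq_sqrt h0.le).symm
  have hb2 : 1 - X = √(1 - X) ^ 2 := (Real.sq_sqrt (by linarith)).symm
  generalize √(1 - X) = b at *
  generalize √X = a at *
  subst ha2
  rw [hb2]
  field_simp
  ring

theorem star_aux (n s X c H Hx Hr Hxx Hxr Hrr : ℝ) (hX : 0 < X) (hX1 : 0 < 1 - X)
    (e3 : (1 - X) ^ 2 * ((X * s) * Hrr + 3 * Hr)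
      = (X * s) * ((1 - X) ^ 2 * Hxx + (1 - X) * Hx - (n + 1) ^ 2 * H)) :
    s * ((c * (3 / 2 - X / (2 * (1 - X)))) *
      ((3 / 2) * H - X / (2 * (1 - X)) * H - X * Hx + X * s * Hr)
      + X * c * ((3 / 2) * (Hx * (-1) + Hr * s)
        - ((1 * (2 * (1 - X)) - X * (2 * (-1))) / (2 * (1 - X)) ^ 2 * H
          + X / (2 * (1 - X)) * (Hx * (-1) + Hr * s))
        - (1 * Hx + X * (Hxx * (-1) + Hxr * s))
        + (1 * s * Hr + X * s * (Hxr * (-1) + Hrr * s)))) =
    s * (1 - s ^ 2) * (X ^ 2 * c * Hrr) + (3 - 5 * s ^ 2) * (X * c * Hr)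
      + 2 * s ^ 2 * (1 * (X * c * Hr) + X *
          (c * (3 / 2 - X / (2 * (1 - X))) * Hr + X * c * (Hxr * (-1) + Hrr * s)))
      + 4 * s * (c * (3 / 2 - X / (2 * (1 - X))) * H + X * c * (Hx * (-1) + Hr * s))
      - (15 / 4) * s * (c * H)
      + s * (((n + 1) ^ 2 - 1 / 4) / (1 - X) ^ 2 * (X ^ 2 * c * H)) := by
  have hX1' : (1 - X) ≠ 0 := ne_of_gt hX1
  have hX' : X ≠ 0 := ne_of_gt hX
  have : Hrr * (X * s) = -3 * Hr + (X * s) * (Hxx + Hx / (1 - X) - (n + 1) ^ 2 * H / (1 - X) ^ 2) := by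
    field_simp
    linear_combination e3
  rw [← sub_eq_zero]
  have h2 : ∀ L R : ℝ, L - R = (-X * c) * (Hrr * (X * s) - (-3 * Hr + (X * s) * (Hxx + Hx / (1 - X)
      - (n + 1) ^ 2 * H / (1 - X) ^ 2))) → L - R = 0 := by
    intro L R h
    rw [h, this, sub_self, mul_zero]
  apply h2
  field_simp
  ring

theorem spsi_eq (X s : ℝ) : P.spsi X s = X * (√X * √(1 - X)) *
    ((3 / 2) * P.h (1 - X) (X * s) - X / (2 * (1 - X)) * P.h (1 - X) (X * s)
    - X * P.hx (1 - X) (X * s) + X * s * P.hr (1 - X) (X * s)) := by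
  unfold spsi; ring

theorem hasDerivAt_spsi {X : ℝ} (s : ℝ) (h0 : 0 < X) (h1 : X < 1) :
    HasDerivAt (fun X => P.spsi X s)
      ((√X * √(1 - X) * (3 / 2 - X / (2 * (1 - X)))) *
      ((3 / 2) * P.h (1 - X) (X * s) - X / (2 * (1 - X)) * P.h (1 - X) (X * s)
        - X * P.hx (1 - X) (X * s) + X * s * P.hr (1 - X) (X * s))
      + X * (√X * √(1 - X)) * ((3 / 2) * (P.hx (1 - X) (X * s) * (-1) + P.hr (1 - X) (X * s) * s)
        - ((1 * (2 * (1 - X)) - X * (2 * (-1))) / (2 * (1 - X)) ^ 2 * P.h (1 - X) (X * s)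
          + X / (2 * (1 - X)) * (P.hx (1 - X) (X * s) * (-1) + P.hr (1 - X) (X * s) * s))
        - (1 * P.hx (1 - X) (X * s)
          + X * (P.hxx (1 - X) (X * s) * (-1) + P.hxr (1 - X) (X * s) * s))
        + (1 * s * P.hr (1 - X) (X * s)
          + X * s * (P.hxr (1 - X) (X * s) * (-1) + P.hrr (1 - X) (X * s) * s)))) X := by
  have hA := hasDerivAt_amp h0 h1
  have hH := P.hasDerivAt_ray s X
  have hHx := P.hasDerivAt_ray_x s X
  have hHr := P.hasDerivAt_ray_r s X
  have hid := hasDerivAt_id' X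
  have hsub : HasDerivAt (fun X : ℝ => 2 * (1 - X)) (2 * (-1)) X := by
    have := ((hasDerivAt_id' X).const_sub 1).const_mul (2 : ℝ)
    exact this
  have hdiv := hid.fun_div hsub (by
    have : 0 < 1 - X := by linarith
    positivity)
  have hB := ((((hH.const_mul (3 / 2)).fun_sub (hdiv.fun_mul hH)).fun_sub (hid.fun_mul hHx)).fun_add
    ((hid.mul_const s).fun_mul hHr))
  have key := hA.fun_mul hB
  have hfun : (fun X => P.spsi X s) = fun X => X * (√X * √(1 - X)) *
    ((3 / 2) * P.h (1 - X) (X * s) - X / (2 * (1 - X)) * P.h (1 - X) (X * s)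
    - X * P.hx (1 - X) (X * s) + X * s * P.hr (1 - X) (X * s)) := by
    funext X; exact P.spsi_eq X s
  rw [hfun]
  exact key

theorem continuousOn_spsi (s : ℝ) : ContinuousOn (fun X => P.spsi X s) (Iio 1) := by
  have h1 : Continuous fun X : ℝ => P.h (1 - X) (X * s) :=
    P.ch.comp (f := fun X : ℝ => (1 - X, X * s)) (by fun_prop)
  have h2 : Continuous fun X : ℝ => P.hx (1 - X) (X * s) :=
    P.chx.comp (f := fun X : ℝ => (1 - X, X * s)) (by fun_prop)
  have h3 : Continuous fun X : ℝ => P.hr (1 - X) (X * s) :=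
    P.chr.comp (f := fun X : ℝ => (1 - X, X * s)) (by fun_prop)
  unfold spsi
  apply ContinuousOn.mul (by fun_prop)
  apply ContinuousOn.add
  · apply ContinuousOn.sub
    · apply ContinuousOn.sub
      · exact (continuous_const.mul h1).continuousOn
      · apply ContinuousOn.mul _ h1.continuousOn
        apply ContinuousOn.div (by fun_prop) (by fun_prop)
        intro x hx
        have : x < 1 := hx
        have : 0 < 1 - x := by linarith
        positivity
    · exact (continuous_id.mul h2).continuousOn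
  · exact ((continuous_id.mul continuous_const).mul h3).continuousOn

theorem hasDerivAt_psis {X : ℝ} (s : ℝ) (h0 : 0 < X) (h1 : X < 1) :
    HasDerivAt (fun X => P.psis X s)
      (1 * (X * (√X * √(1 - X)) * P.hr (1 - X) (X * s)) + X *
          (√X * √(1 - X) * (3 / 2 - X / (2 * (1 - X))) * P.hr (1 - X) (X * s)
            + X * (√X * √(1 - X)) * (P.hxr (1 - X) (X * s) * (-1) + P.hrr (1 - X) (X * s) * s))) X := by
  have key := (hasDerivAt_id' X).fun_mul ((hasDerivAt_amp h0 h1).fun_mul (P.hasDerivAt_ray_r s X))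
  have hfun : (fun X => P.psis X s) = fun X => X * (X * (√X * √(1 - X)) * P.hr (1 - X) (X * s)) := by
    funext X; unfold psis ker1; ring
  rw [hfun]
  exact key

theorem hasDerivAt_psi' {X : ℝ} (s : ℝ) (h0 : 0 < X) (h1 : X < 1) :
    HasDerivAt (fun X => P.psi X s)
      (√X * √(1 - X) * (3 / 2 - X / (2 * (1 - X))) * P.h (1 - X) (X * s)
        + X * (√X * √(1 - X)) * (P.hx (1 - X) (X * s) * (-1) + P.hr (1 - X) (X * s) * s)) X := by
  have key := ((hasDerivAt_amp h0 h1).fun_mul (P.hasDerivAt_ray s X))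
  have hfun : (fun X => P.psi X s) = fun X => (X * (√X * √(1 - X)) * P.h (1 - X) (X * s)) := by
    funext X; unfold psi ker0; ring
  rw [hfun]
  exact key

theorem star (s : ℝ) : ∀ X ∈ Ico (0:ℝ) 1, s * P.spsi X s =
    s * (1 - s ^ 2) * P.Psiss X s + (3 - 5 * s ^ 2) * P.Psis X s + 2 * s ^ 2 * P.psis X s
      + 4 * s * P.psi X s - (15 / 4) * s * P.Psi X s + s * P.Th X s := by
  have main : ∀ X ∈ Ico (0:ℝ) 1, (fun X => s * P.spsi X s -
      (s * (1 - s ^ 2) * P.Psiss X s + (3 - 5 * s ^ 2) * P.Psis X s + 2 * s ^ 2 * P.psis X s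
      + 4 * s * P.psi X s - (15 / 4) * s * P.Psi X s + s * P.Th X s)) X = 0 := by
    apply eq_zero_of_deriv_zero
    · apply ContinuousOn.sub
      · exact ((P.continuousOn_spsi s).mono (fun x hx => hx.2)).const_mul s |>.congr (fun x _ => rfl)
      · intro X hX
        have c1 := (P.hasDerivAt_Psiss X s).continuousAt
        have c2 := (P.hasDerivAt_Psis X s).continuousAt
        have c3 : ContinuousAt (fun X => P.psis X s) X :=
          (P.cont_psis.comp (f := fun X : ℝ => (X, s)) (by fun_prop)).continuousAt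
        have c4 : ContinuousAt (fun X => P.psi X s) X :=
          (P.cont_psi.comp (f := fun X : ℝ => (X, s)) (by fun_prop)).continuousAt
        have c5 := (P.hasDerivAt_Psi X s).continuousAt
        have c6 := (P.hasDerivAt_Th s hX.1 hX.2).continuousAt
        exact ContinuousAt.continuousWithinAt (by fun_prop)
    · simp [spsi, psis, psi, Psi, Psis, Psiss, Th]
    · intro X hX
      have k1 := (P.hasDerivAt_spsi s hX.1 hX.2).const_mul s
      have k2 := (P.hasDerivAt_Psiss X s).const_mul (s * (1 - s ^ 2))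
      have k3 := (P.hasDerivAt_Psis X s).const_mul (3 - 5 * s ^ 2)
      have k4 := (P.hasDerivAt_psis s hX.1 hX.2).const_mul (2 * s ^ 2)
      have k5 := (P.hasDerivAt_psi' s hX.1 hX.2).const_mul (4 * s)
      have k6 := (P.hasDerivAt_Psi X s).const_mul ((15 / 4) * s)
      have k7 := (P.hasDerivAt_Th s hX.1.le hX.2).const_mul s
      have key := k1.fun_sub (((((k2.fun_add k3).fun_add k4).fun_add k5).fun_sub k6).fun_add k7)
      refine key.congr_deriv ?_
      have e3 := P.e3 (1 - X) (X * s)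
      have aux := star_aux n s X (√X * √(1 - X)) (P.h (1 - X) (X * s)) (P.hx (1 - X) (X * s))
        (P.hr (1 - X) (X * s)) (P.hxx (1 - X) (X * s)) (P.hxr (1 - X) (X * s))
        (P.hrr (1 - X) (X * s)) hX.1 (by linarith [hX.2]) e3
      unfold ker0 ker1 ker2 kerT q
      rw [sub_eq_zero]
      linear_combination aux
  intro X hX
  have := main X hX
  simp only at this
  linarith

end MPair

end Pool.Agent.Lib.MP_9de1de_an
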