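import Pool.Agent.Lib.MP_9de1de_an.Core

set_option autoImplicit false

namespace Pool.Agent.Lib.MP_9de1de_an

open MeasureTheory Set Filter Topology

namespace MPair

variable {n : ℝ} (P : MPair n)

theorem cont_Psi : Continuous fun p : ℝ × ℝ => P.Psi p.1 p.2 := by
  have h := intervalIntegral.continuous_parametric_intervalIntegral_of_continuous
    (μ := volume) (a₀ := 0) (X := ℝ × ℝ) (f := fun p y => P.ker0 y p.2)
    (by
      have := P.cont_ker0.comp (f := fun z : (ℝ × ℝ) × ℝ => (z.2, z.1.2)) (by fun_prop)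
      exact this) (s := fun p => p.1) continuous_fst
  exact h

theorem cont_Psis : Continuous fun p : ℝ × ℝ => P.Psis p.1 p.2 := by
  have h := intervalIntegral.continuous_parametric_intervalIntegral_of_continuous
    (μ := volume) (a₀ := 0) (X := ℝ × ℝ) (f := fun p y => P.ker1 y p.2)
    (by
      have := P.cont_ker1.comp (f := fun z : (ℝ × ℝ) × ℝ => (z.2, z.1.2)) (by fun_prop)
      exact this) (s := fun p => p.1) continuous_fst
  exact h

theorem cont_Psiss : Continuous fun p : ℝ × ℝ => P.Psiss p.1 p.2 := by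
  have h := intervalIntegral.continuous_parametric_intervalIntegral_of_continuous
    (μ := volume) (a₀ := 0) (X := ℝ × ℝ) (f := fun p y => P.ker2 y p.2)
    (by
      have := P.cont_ker2.comp (f := fun z : (ℝ × ℝ) × ℝ => (z.2, z.1.2)) (by fun_prop)
      exact this) (s := fun p => p.1) continuous_fst
  exact h

theorem contOn_Th {b : ℝ} (hb : b < 1) :
    ContinuousOn (fun p : ℝ × ℝ => P.Th p.1 p.2) (Icc 0 b ×ˢ univ) := by
  have h := intervalIntegral.continuous_parametric_intervalIntegral_of_continuous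
    (μ := volume) (a₀ := 0) (X := ℝ × ℝ) (f := fun p y => P.kerT (min y b) p.2)
    (by
      have : Continuous ((fun p : ℝ × ℝ => P.kerT p.1 p.2) ∘
          fun z : (ℝ × ℝ) × ℝ => (min z.2 b, z.1.2)) := by
        apply P.cont_kerT.comp_continuous (by fun_prop)
        intro z
        exact lt_of_le_of_lt (min_le_right _ _) hb
      exact this) (s := fun p => p.1) continuous_fst
  apply h.continuousOn.congr
  intro p hp
  unfold Th
  apply intervalIntegral.integral_congr
  intro y hy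
  rw [uIcc_of_le hp.1.1] at hy
  simp only
  rw [min_eq_left (hy.2.trans hp.1.2)]

theorem contOn_spsi : ContinuousOn (fun p : ℝ × ℝ => P.spsi p.1 p.2) (Iio 1 ×ˢ univ) := by
  have h1 : Continuous fun p : ℝ × ℝ => P.h (1 - p.1) (p.1 * p.2) :=
    P.ch.comp (f := fun p : ℝ × ℝ => (1 - p.1, p.1 * p.2)) (by fun_prop)
  have h2 : Continuous fun p : ℝ × ℝ => P.hx (1 - p.1) (p.1 * p.2) :=
    P.chx.comp (f := fun p : ℝ × ℝ => (1 - p.1, p.1 * p.2)) (by fun_prop)
  have h3 : Continuous fun p : ℝ × ℝ => P.hr (1 - p.1) (p.1 * p.2) :=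
    P.chr.comp (f := fun p : ℝ × ℝ => (1 - p.1, p.1 * p.2)) (by fun_prop)
  unfold spsi
  apply ContinuousOn.mul (by fun_prop)
  apply ContinuousOn.add
  · apply ContinuousOn.sub
    · apply ContinuousOn.sub
      · exact (continuous_const.mul h1).continuousOn
      · apply ContinuousOn.mul _ h1.continuousOn
        apply ContinuousOn.div (by fun_prop) (by fun_prop)
        intro x hx
        have : x.1 < 1 := hx.1
        have : 0 < 1 - x.1 := by linarith
        positivity
    · exact (continuous_fst.mul h2).continuousOn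
  · exact ((continuous_fst.mul continuous_snd).mul h3).continuousOn

theorem hasDerivAt_Psis_s (X s : ℝ) :
    HasDerivAt (fun s => P.Psis X s) (P.Psiss X s) s := by
  unfold Psis Psiss
  apply leibniz (F := fun s y => P.ker1 y s) (F' := fun s y => P.ker2 y s) (δ := 1) one_pos
  · exact (P.cont_ker1.comp (f := fun z : ℝ × ℝ => (z.2, z.1)) (by fun_prop)).continuousOn
  · exact (P.cont_ker2.comp (f := fun z : ℝ × ℝ => (z.2, z.1)) (by fun_prop)).continuousOn
  · intro s _ y _
    have h1 := P.dhr (fun _ => 1 - y) (fun s => y * s) 0 y s (hasDerivAt_const _ _)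
      (by simpa using (hasDerivAt_id' s).const_mul y)
    have h2 := h1.const_mul (y * √y * √(1 - y))
    unfold ker1 ker2
    refine h2.congr_deriv ?_
    ring

theorem hasDerivAt_psi_s (X s : ℝ) :
    HasDerivAt (fun s => P.psi X s) (P.psis X s) s := by
  have h1 := P.dh (fun _ => 1 - X) (fun s => X * s) 0 X s (hasDerivAt_const _ _)
    (by simpa using (hasDerivAt_id' s).const_mul X)
  have h2 := (h1.const_mul (√X * √(1 - X))).const_mul X
  unfold psi psis ker0 ker1
  refine h2.congr_deriv ?_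
  ring

/-- energy density -/
noncomputable def En (X s : ℝ) : ℝ :=
  s ^ 3 * (P.psi X s ^ 2 + (1 - s ^ 2) * P.Psis X s ^ 2 + 15 / 4 * P.Psi X s ^ 2
    + (P.Th X s / X) ^ 2)

noncomputable def En' (X s : ℝ) : ℝ :=
  s ^ 3 * (2 * P.psi X s * (P.spsi X s / X) + (1 - s ^ 2) * (2 * P.Psis X s * P.ker1 X s)
    + 15 / 4 * (2 * P.Psi X s * P.ker0 X s)
    + 2 * (P.Th X s / X) * ((P.kerT X s * X - P.Th X s * 1) / X ^ 2))

noncomputable def H (α X : ℝ) : ℝ := ∫ s in (0:ℝ)..α, P.En X s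

theorem hasDerivAt_En {X : ℝ} (s : ℝ) (h0 : 0 < X) (h1 : X < 1) :
    HasDerivAt (fun X => P.En X s) (P.En' X s) X := by
  have k1 := (P.hasDerivAt_psi s h0 h1).fun_pow 2
  have k2 := ((P.hasDerivAt_Psis X s).fun_pow 2).const_mul (1 - s ^ 2)
  have k3 := ((P.hasDerivAt_Psi X s).fun_pow 2).const_mul (15 / 4)
  have k4 := ((P.hasDerivAt_Th s h0.le h1).fun_div (hasDerivAt_id' X) (ne_of_gt h0)).fun_pow 2
  have key := (((k1.fun_add k2).fun_add k3).fun_add k4).const_mul (s ^ 3)
  unfold En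
  refine key.congr_deriv ?_
  unfold En'
  simp only [Nat.cast_ofNat, Nat.add_one_sub_one, pow_one]

theorem contOn_En {b : ℝ} (hb : b < 1) :
    ContinuousOn (fun p : ℝ × ℝ => P.En p.1 p.2) (Ioc 0 b ×ˢ univ) := by
  have c1 := P.cont_psi.continuousOn (s := Ioc 0 b ×ˢ univ)
  have c2 := P.cont_Psis.continuousOn (s := Ioc 0 b ×ˢ univ)
  have c3 := P.cont_Psi.continuousOn (s := Ioc 0 b ×ˢ univ)
  have c4 := (P.contOn_Th hb).mono (prod_mono Ioc_subset_Icc_self (Subset.refl univ))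
  have c5 : ContinuousOn (fun p : ℝ × ℝ => P.Th p.1 p.2 / p.1) (Ioc 0 b ×ˢ univ) :=
    c4.div continuousOn_fst (fun p hp => ne_of_gt hp.1.1)
  unfold En
  fun_prop

theorem contOn_En' {b : ℝ} (hb : b < 1) :
    ContinuousOn (fun p : ℝ × ℝ => P.En' p.1 p.2) (Ioc 0 b ×ˢ univ) := by
  have c1 := P.cont_psi.continuousOn (s := Ioc 0 b ×ˢ univ)
  have c2 := P.cont_Psis.continuousOn (s := Ioc 0 b ×ˢ univ)
  have c3 := P.cont_Psi.continuousOn (s := Ioc 0 b ×ˢ univ)
  have c4 := (P.contOn_Th hb).mono (prod_mono Ioc_subset_Icc_self (Subset.refl univ))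
  have c5 : ContinuousOn (fun p : ℝ × ℝ => P.Th p.1 p.2 / p.1) (Ioc 0 b ×ˢ univ) :=
    c4.div continuousOn_fst (fun p hp => ne_of_gt hp.1.1)
  have c6 : ContinuousOn (fun p : ℝ × ℝ => P.spsi p.1 p.2 / p.1) (Ioc 0 b ×ˢ univ) :=
    (P.contOn_spsi.mono (prod_mono (fun x hx => lt_of_le_of_lt hx.2 hb) (Subset.refl univ))).div
      continuousOn_fst (fun p hp => ne_of_gt hp.1.1)
  have c7 := P.cont_ker0.continuousOn (s := Ioc 0 b ×ˢ univ)
  have c8 := P.cont_ker1.continuousOn (s := Ioc 0 b ×ˢ univ)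
  have c9 := P.cont_kerT.mono (s := {p | p.1 < 1}) (t := Ioc 0 b ×ˢ univ)
    (fun p hp => lt_of_le_of_lt hp.1.2 hb)
  have c10 : ContinuousOn (fun p : ℝ × ℝ => (P.kerT p.1 p.2 * p.1 - P.Th p.1 p.2 * 1) / p.1 ^ 2)
      (Ioc 0 b ×ˢ univ) :=
    ((c9.mul continuousOn_fst).sub (c4.mul continuousOn_const)).div (by fun_prop)
      (fun p hp => pow_ne_zero 2 (ne_of_gt hp.1.1))
  unfold En'
  fun_prop

theorem hasDerivAt_H {X : ℝ} (α : ℝ) (h0 : 0 < X) (h1 : X < 1) :
    HasDerivAt (fun X => P.H α X) (∫ s in (0:ℝ)..α, P.En' X s) X := by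
  obtain ⟨δ, hδ, hδ0, hδ1⟩ : ∃ δ : ℝ, 0 < δ ∧ 0 < X - δ ∧ X + δ < 1 := by
    refine ⟨min X (1 - X) / 2, ?_, ?_, ?_⟩
    · have : 0 < min X (1 - X) := lt_min h0 (by linarith)
      linarith
    · have := min_le_left X (1 - X)
      linarith
    · have := min_le_right X (1 - X)
      linarith
  unfold H
  apply leibniz (F := P.En) (F' := P.En') hδ
  · apply (P.contOn_En hδ1).mono
    exact prod_mono (fun x hx => ⟨by linarith [hx.1], hx.2⟩) (subset_univ _)
  · apply (P.contOn_En' hδ1).mono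
    exact prod_mono (fun x hx => ⟨by linarith [hx.1], hx.2⟩) (subset_univ _)
  · intro x hx s _
    exact P.hasDerivAt_En s (by linarith [hx.1]) (by linarith [hx.2])

noncomputable def G' (X s : ℝ) : ℝ :=
  (3 * s ^ 2 - 5 * s ^ 4) * P.Psis X s * P.psi X s
    + (s ^ 3 - s ^ 5) * (P.Psiss X s * P.psi X s + P.Psis X s * P.psis X s)
    + 4 * s ^ 3 * P.psi X s ^ 2 + 2 * s ^ 4 * P.psi X s * P.psis X s

noncomputable def G (X s : ℝ) : ℝ :=
  s ^ 3 * (1 - s ^ 2) * (P.Psis X s * P.psi X s) + s ^ 4 * P.psi X s ^ 2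

theorem hasDerivAt_G (X s : ℝ) : HasDerivAt (fun s => P.G X s) (P.G' X s) s := by
  have k1 := P.hasDerivAt_Psis_s X s
  have k2 := P.hasDerivAt_psi_s X s
  have k3 := (hasDerivAt_pow 3 s).fun_mul ((hasDerivAt_pow 2 s).const_sub 1)
  have k4 := (k3.fun_mul (k1.fun_mul k2)).fun_add ((hasDerivAt_pow 4 s).fun_mul (k2.fun_pow 2))
  unfold G
  refine k4.congr_deriv ?_
  unfold G'
  simp only [Nat.cast_ofNat, Nat.add_one_sub_one, pow_one]
  ring

theorem cont_G' (X : ℝ) : Continuous fun s => P.G' X s := by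
  have c1 : Continuous fun s => P.Psis X s :=
    P.cont_Psis.comp (f := fun s : ℝ => (X, s)) (by fun_prop)
  have c2 : Continuous fun s => P.psi X s :=
    P.cont_psi.comp (f := fun s : ℝ => (X, s)) (by fun_prop)
  have c3 : Continuous fun s => P.psis X s :=
    P.cont_psis.comp (f := fun s : ℝ => (X, s)) (by fun_prop)
  have c4 : Continuous fun s => P.Psiss X s :=
    P.cont_Psiss.comp (f := fun s : ℝ => (X, s)) (by fun_prop)
  unfold G'
  fun_prop

theorem En'_eq {X : ℝ} (s : ℝ) (h0 : 0 < X) (h1 : X < 1) :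
    P.En' X s = (2 / X) * P.G' X s
      + 2 * s ^ 3 * ((1 + q n X) * P.psi X s * (P.Th X s / X) - (P.Th X s / X) ^ 2 / X) := by
  have hs := P.star s X ⟨h0.le, h1⟩
  have e0 : P.ker0 X s = P.psi X s / X := by
    unfold psi; field_simp
  have e1 : P.ker1 X s = P.psis X s / X := by
    unfold psis; field_simp
  have eT : P.kerT X s = q n X * (X * P.psi X s) := by
    unfold psi kerT ker0; ring
  unfold En' G'
  rw [e0, e1, eT]
  have hX : X ≠ 0 := ne_of_gt h0
  have key : ∀ L R : ℝ, L - R = (2 / X * s ^ 2 * P.psi X s) * (s * P.spsi X s -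
    (s * (1 - s ^ 2) * P.Psiss X s + (3 - 5 * s ^ 2) * P.Psis X s + 2 * s ^ 2 * P.psis X s
      + 4 * s * P.psi X s - (15 / 4) * s * P.Psi X s + s * P.Th X s)) → L = R := by
    intro L R h
    rw [hs, sub_self, mul_zero] at h
    linarith
  apply key
  field_simp
  ring

theorem H_deriv_le {α X Q : ℝ} (hα0 : 0 < α) (hα1 : α ≤ 1) (h0 : 0 < X) (h1 : X < 1)
    (hQ : |q n X| ≤ Q) :
    ∫ s in (0:ℝ)..α, P.En' X s ≤ (2 / X) * P.G X α + (1 + Q) * P.H α X := by
  have hcTh : Continuous fun s => P.Th X s := by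
    have := (P.contOn_Th h1).comp_continuous (f := fun s : ℝ => (X, s)) (by fun_prop)
      (fun s => ⟨⟨h0.le, le_refl _⟩, trivial⟩)
    exact this
  have c2 : Continuous fun s => P.psi X s :=
    P.cont_psi.comp (f := fun s : ℝ => (X, s)) (by fun_prop)
  have hcG' := P.cont_G' X
  have hcEn : Continuous fun s => P.En X s := by
    have := (P.contOn_En h1).comp_continuous (f := fun s : ℝ => (X, s)) (by fun_prop)
      (fun s => ⟨⟨h0, le_refl _⟩, trivial⟩)
    exact this
  have hcR : Continuous fun s => 2 * s ^ 3 * ((1 + q n X) * P.psi X s * (P.Th X s / X)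
      - (P.Th X s / X) ^ 2 / X) := by fun_prop
  have hI : ∫ s in (0:ℝ)..α, P.En' X s = (2 / X) * P.G X α
      + ∫ s in (0:ℝ)..α, 2 * s ^ 3 * ((1 + q n X) * P.psi X s * (P.Th X s / X)
      - (P.Th X s / X) ^ 2 / X) := by
    rw [show (fun s => P.En' X s) = fun s => (2 / X) * P.G' X s
      + 2 * s ^ 3 * ((1 + q n X) * P.psi X s * (P.Th X s / X) - (P.Th X s / X) ^ 2 / X) from
      funext fun s => P.En'_eq s h0 h1]
    rw [intervalIntegral.integral_add ((hcG'.intervalIntegrable _ _).const_mul _)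
      (hcR.intervalIntegrable _ _)]
    rw [intervalIntegral.integral_const_mul]
    rw [intervalIntegral.integral_eq_sub_of_hasDerivAt (fun s _ => P.hasDerivAt_G X s)
      (hcG'.intervalIntegrable _ _)]
    have : P.G X 0 = 0 := by unfold G; ring
    rw [this, sub_zero]
  rw [hI]
  have hle : ∫ s in (0:ℝ)..α, 2 * s ^ 3 * ((1 + q n X) * P.psi X s * (P.Th X s / X)
      - (P.Th X s / X) ^ 2 / X) ≤ ∫ s in (0:ℝ)..α, (1 + Q) * P.En X s := by
    apply intervalIntegral.integral_mono_on hα0.le (hcR.intervalIntegrable _ _)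
      ((hcEn.intervalIntegrable _ _).const_mul _)
    intro s hs
    have hs0 : 0 ≤ s := hs.1
    have hs1 : s ≤ 1 := hs.2.trans hα1
    unfold En
    set u := P.psi X s
    set v := P.Th X s / X
    have hq : |1 + q n X| ≤ 1 + Q := by
      calc |1 + q n X| ≤ |1| + |q n X| := abs_add_le _ _
        _ ≤ 1 + Q := by rw [abs_one]; linarith
    have hQ0 : 0 ≤ 1 + Q := le_trans (abs_nonneg _) hq
    have h3 : (1 + q n X) * u * v ≤ (1 + Q) * ((u ^ 2 + v ^ 2) / 2) := by
      have h4 : (1 + q n X) * u * v ≤ |1 + q n X| * |u * v| := by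
        rw [← abs_mul, mul_assoc]; exact le_abs_self _
      have h5 : |u * v| ≤ (u ^ 2 + v ^ 2) / 2 := by
        rw [abs_le]
        constructor <;> nlinarith [sq_nonneg (u + v), sq_nonneg (u - v)]
      calc _ ≤ _ := h4
        _ ≤ (1 + Q) * ((u ^ 2 + v ^ 2) / 2) :=
          mul_le_mul hq h5 (abs_nonneg _) hQ0
    have h6 : 0 ≤ v ^ 2 / X := by positivity
    have h7 : 0 ≤ (1 - s ^ 2) * P.Psis X s ^ 2 + 15 / 4 * P.Psi X s ^ 2 := by
      have : 0 ≤ 1 - s ^ 2 := by nlinarith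
      positivity
    have h8 : 0 ≤ s ^ 3 := by positivity
    calc 2 * s ^ 3 * ((1 + q n X) * u * v - v ^ 2 / X)
        = s ^ 3 * (2 * ((1 + q n X) * u * v - v ^ 2 / X)) := by ring
      _ ≤ s ^ 3 * ((1 + Q) * (u ^ 2 + v ^ 2 + ((1 - s ^ 2) * P.Psis X s ^ 2
          + 15 / 4 * P.Psi X s ^ 2))) := by
          apply mul_le_mul_of_nonneg_left _ h8
          nlinarith [mul_nonneg hQ0 h7]
      _ = _ := by ring
  rw [intervalIntegral.integral_const_mul] at hle
  unfold H
  linarith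

end MPair

end Pool.Agent.Lib.MP_9de1de_an
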