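import Pool.Agent.Lib.MP_9de1de_an.Mode

set_option autoImplicit false

namespace Pool.Agent.Lib.MP_9de1de_an

open MeasureTheory Set Filter Topology Complex

theorem interval_swap {f : ℝ → ℝ → ℂ} (hf : Continuous (Function.uncurry f)) {a b c d : ℝ}
    (hab : a ≤ b) (hcd : c ≤ d) :
    ∫ x in a..b, ∫ y in c..d, f x y = ∫ y in c..d, ∫ x in a..b, f x y := by
  simp only [intervalIntegral.integral_of_le hab, intervalIntegral.integral_of_le hcd]
  apply integral_integral_swap
  rw [Measure.prod_restrict]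
  have h1 : IntegrableOn (Function.uncurry f) (Icc a b ×ˢ Icc c d)
      ((volume : Measure ℝ).prod (volume : Measure ℝ)) :=
    hf.continuousOn.integrableOn_compact (isCompact_Icc.prod isCompact_Icc)
  exact h1.mono_set (prod_mono Ioc_subset_Icc_self Ioc_subset_Icc_self)

/-- Fourier mode of a function on the plane -/
noncomputable def Fm (f : ℂ → ℂ) (k : ℤ) (z : ℂ) : ℂ :=
  ∫ θ in (0:ℝ)..(2 * Real.pi), f (exp ((θ : ℂ) * I) * z) * exp (-((k : ℂ) * (θ : ℂ) * I))

theorem cont_Fm {f : ℂ → ℂ} (hf : Continuous f) (k : ℤ) : Continuous (Fm f k) := by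
  unfold Fm
  apply intervalIntegral.continuous_parametric_intervalIntegral_of_continuous'
  have h2 : Continuous fun p : ℂ × ℝ => f (exp ((p.2 : ℂ) * I) * p.1) :=
    hf.comp (by fun_prop)
  exact h2.mul (by fun_prop)

theorem Fm_rot {f : ℂ → ℂ} (k : ℤ) (z : ℂ) (φ : ℝ) :
    Fm f k (exp ((φ : ℂ) * I) * z) = exp ((k : ℂ) * (φ : ℂ) * I) * Fm f k z := by
  set g : ℝ → ℂ := fun θ => f (exp ((θ : ℂ) * I) * z) * exp (-((k : ℂ) * (θ : ℂ) * I)) with hg
  have hper : Function.Periodic g (2 * Real.pi) := by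
    intro θ
    simp only [hg]
    have h1 : exp (((θ + 2 * Real.pi : ℝ) : ℂ) * I) = exp ((θ : ℂ) * I) := by
      push_cast
      rw [add_mul, exp_add, exp_two_pi_mul_I, mul_one]
    have h2 : exp (-((k : ℂ) * ((θ + 2 * Real.pi : ℝ) : ℂ) * I)) = exp (-((k : ℂ) * (θ : ℂ) * I)) := by
      have h3 : exp (((-k : ℤ) : ℂ) * (2 * Real.pi * I)) = 1 := exp_int_mul_two_pi_mul_I (-k)
      calc exp (-((k : ℂ) * ((θ + 2 * Real.pi : ℝ) : ℂ) * I))
          = exp (-((k : ℂ) * (θ : ℂ) * I) + ((-k : ℤ) : ℂ) * (2 * Real.pi * I)) := by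
            congr 1; push_cast; ring
        _ = _ := by rw [exp_add, h3, mul_one]
    rw [h1, h2]
  have h1 : Fm f k (exp ((φ : ℂ) * I) * z)
      = ∫ θ in (0:ℝ)..(2 * Real.pi), exp ((k : ℂ) * (φ : ℂ) * I) * g (θ + φ) := by
    unfold Fm
    congr 1
    funext θ
    simp only [hg]
    have e1 : exp ((θ : ℂ) * I) * (exp ((φ : ℂ) * I) * z) = exp (((θ + φ : ℝ) : ℂ) * I) * z := by
      push_cast
      rw [add_mul, exp_add]; ring
    have e2 : exp (-((k : ℂ) * (θ : ℂ) * I))
        = exp ((k : ℂ) * (φ : ℂ) * I) * exp (-((k : ℂ) * ((θ + φ : ℝ) : ℂ) * I)) := by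
      rw [← exp_add]; congr 1; push_cast; ring
    rw [e1, e2]
    ring
  rw [h1, intervalIntegral.integral_const_mul, intervalIntegral.integral_comp_add_right]
  congr 1
  have := hper.intervalIntegral_add_eq φ 0
  rw [zero_add] at this
  rw [zero_add, add_comm (2 * Real.pi) φ, this]
  rfl

theorem mom_Fm {f : ℂ → ℂ} (hf : Continuous f) {α : ℝ}
    (h : ∀ z : ℂ, ‖z‖ < 1 → mom (fun w => f (z + w)) 1 0 (α * (1 - ‖z‖)) = 0)
    (k : ℤ) (x : ℝ) (hx0 : 0 ≤ x) (hx1 : x < 1) :
    mom (Fm f k) 1 x (α * (1 - x)) = 0 := by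
  set r := α * (1 - x) with hr
  have h1 : mom (Fm f k) 1 x r = ∫ t in (0:ℝ)..(2 * Real.pi), ∫ θ in (0:ℝ)..(2 * Real.pi),
      f (exp ((θ : ℂ) * I) * pt x r t) * exp (-((k : ℂ) * (θ : ℂ) * I)) * exp (((1:ℤ) : ℂ) * (t : ℂ) * I) := by
    unfold mom Fm
    congr 1
    funext t
    rw [← intervalIntegral.integral_mul_const]
  have hpt : Continuous fun t : ℝ => pt x r t := by unfold pt; fun_prop
  rw [h1, interval_swap (by
      have c1 : Continuous fun p : ℝ × ℝ => f (exp ((p.2 : ℂ) * I) * pt x r p.1) :=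
        hf.comp (by fun_prop)
      have c2 : Continuous fun p : ℝ × ℝ => exp (-((k : ℂ) * (p.2 : ℂ) * I)) := by fun_prop
      have c3 : Continuous fun p : ℝ × ℝ => exp (((1:ℤ) : ℂ) * (p.1 : ℂ) * I) := by fun_prop
      exact (c1.mul c2).mul c3) (by positivity) (by positivity)]
  have hinner : ∀ θ : ℝ, ∫ t in (0:ℝ)..(2 * Real.pi),
      f (exp ((θ : ℂ) * I) * pt x r t) * exp (-((k : ℂ) * (θ : ℂ) * I)) * exp (((1:ℤ) : ℂ) * (t : ℂ) * I)
      = 0 := by
    intro θ
    set z : ℂ := exp ((θ : ℂ) * I) * x with hz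
    have hnz : ‖z‖ = x := by
      rw [hz, norm_mul, norm_exp_ofReal_mul_I, one_mul, norm_real, Real.norm_of_nonneg hx0]
    have h2 := h z (by rw [hnz]; exact hx1)
    rw [hnz, ← hr] at h2
    unfold mom at h2
    set g : ℝ → ℂ := fun t => f (z + pt 0 r t) * exp (((1:ℤ) : ℂ) * (t : ℂ) * I) with hg
    have hper : Function.Periodic g (2 * Real.pi) := by
      intro t
      simp only [hg, pt]
      have h1 : exp (((t + 2 * Real.pi : ℝ) : ℂ) * I) = exp ((t : ℂ) * I) := by
        push_cast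
        rw [add_mul, exp_add, exp_two_pi_mul_I, mul_one]
      have h2 : exp (((1:ℤ) : ℂ) * ((t + 2 * Real.pi : ℝ) : ℂ) * I) = exp (((1:ℤ) : ℂ) * (t : ℂ) * I) := by
        push_cast
        rw [one_mul, one_mul, add_mul, exp_add, exp_two_pi_mul_I, mul_one]
      rw [h1, h2]
    have h3 : (fun t : ℝ => f (exp ((θ : ℂ) * I) * pt x r t) * exp (-((k : ℂ) * (θ : ℂ) * I))
        * exp (((1:ℤ) : ℂ) * (t : ℂ) * I))
        = fun t : ℝ => (exp (-((k : ℂ) * (θ : ℂ) * I)) * exp (-((θ : ℂ) * I))) * g (t + θ) := by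
      funext t
      simp only [hg]
      have e1 : exp ((θ : ℂ) * I) * pt x r t = z + pt 0 r (t + θ) := by
        unfold pt
        rw [hz]
        push_cast
        rw [add_mul (t : ℂ) (θ : ℂ) I, exp_add]
        ring
      have e2 : exp (((1:ℤ) : ℂ) * (t : ℂ) * I)
          = exp (-((θ : ℂ) * I)) * exp (((1:ℤ) : ℂ) * ((t + θ : ℝ) : ℂ) * I) := by
        rw [← exp_add]; congr 1; push_cast; ring
      rw [e1, e2]
      ring
    rw [h3, intervalIntegral.integral_const_mul, intervalIntegral.integral_comp_add_right]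
    have h4 := hper.intervalIntegral_add_eq θ 0
    rw [zero_add] at h4
    rw [zero_add, add_comm (2 * Real.pi) θ, h4, h2, mul_zero]
  simp only [hinner]
  simp

/-- All modes are `c x ^ k` with `k ≥ 0`. -/
theorem modes {f : ℂ → ℂ} (hf : Continuous f) {α : ℝ} (hα0 : 0 < α) (hα1 : α ≤ 1)
    (h : ∀ z : ℂ, ‖z‖ < 1 → mom (fun w => f (z + w)) 1 0 (α * (1 - ‖z‖)) = 0) (k : ℤ) :
    ∃ c : ℂ, ∀ x : ℝ, 0 < x → x < 1 → Fm f k x = c * ((x ^ (k : ℝ) : ℝ) : ℂ) := by
  obtain ⟨N, M, hk, hNM⟩ : ∃ N M : ℕ, (k = (N : ℤ) - (M : ℤ)) ∧ (N = 0 ∨ M = 0) := by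
    rcases le_total 0 k with hk | hk
    · exact ⟨k.toNat, 0, by simp [Int.toNat_of_nonneg hk], Or.inr rfl⟩
    · exact ⟨0, (-k).toNat, by rw [Int.toNat_of_nonneg (by linarith)]; simp, Or.inl rfl⟩
  have hm : IsMode (Fm f k) N M := by
    intro z φ
    rw [Fm_rot k z φ, hk]
  have hmode : ∀ x₁ x₂ : ℝ, 0 < x₁ → x₁ < x₂ → x₂ < 1 →
      ((x₂ ^ (-(k : ℝ)) : ℝ) : ℂ) * Fm f k x₂ = ((x₁ ^ (-(k : ℝ)) : ℝ) : ℂ) * Fm f k x₁ := by
    intro x₁ x₂ h1 h2 h3
    have := mode_const (cont_Fm hf k) hm hNM hα0 hα1 (mom_Fm hf h k) h1 h2 h3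
    rw [show (k : ℝ) = (N : ℝ) - (M : ℝ) by rw [hk]; push_cast; ring]
    exact this
  refine ⟨(((1 / 2 : ℝ) ^ (-(k : ℝ)) : ℝ) : ℂ) * Fm f k ((1 / 2 : ℝ) : ℂ), fun x hx0 hx1 => ?_⟩
  have hx : ((x ^ (-(k : ℝ)) : ℝ) : ℂ) * Fm f k x
      = (((1 / 2 : ℝ) ^ (-(k : ℝ)) : ℝ) : ℂ) * Fm f k ((1 / 2 : ℝ) : ℂ) := by
    rcases lt_trichotomy x (1 / 2) with hlt | heq | hgt
    · exact (hmode x (1 / 2) hx0 hlt (by norm_num)).symm
    · rw [heq]
    · exact hmode (1 / 2) x (by norm_num) hgt hx1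
  rw [← hx]
  have h2 : ((x ^ (-(k : ℝ)) : ℝ) : ℂ) * ((x ^ (k : ℝ) : ℝ) : ℂ) = 1 := by
    rw [← ofReal_mul, ← Real.rpow_add hx0]
    simp
  linear_combination (-Fm f k x) * h2

theorem norm_Fm_le {f : ℂ → ℂ} {M : ℝ} (hM : ∀ z : ℂ, ‖z‖ ≤ 1 → ‖f z‖ ≤ M) (k : ℤ) {x : ℝ}
    (hx0 : 0 ≤ x) (hx1 : x ≤ 1) : ‖Fm f k x‖ ≤ M * (2 * Real.pi) := by
  unfold Fm
  have := intervalIntegral.norm_integral_le_of_norm_le_const (a := 0) (b := 2 * Real.pi)
    (f := fun θ : ℝ => f (exp ((θ : ℂ) * I) * x) * exp (-((k : ℂ) * (θ : ℂ) * I))) (C := M)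
    (by
      intro θ _
      rw [norm_mul]
      have h1 : ‖exp (-((k : ℂ) * (θ : ℂ) * I))‖ = 1 := by
        rw [show -((k : ℂ) * (θ : ℂ) * I) = ((-(k : ℝ) * θ : ℝ) : ℂ) * I by push_cast; ring]
        exact norm_exp_ofReal_mul_I _
      rw [h1, mul_one]
      apply hM
      rw [norm_mul, norm_exp_ofReal_mul_I, one_mul, norm_real, Real.norm_of_nonneg hx0]
      exact hx1)
  rw [sub_zero, abs_of_pos (by positivity)] at this
  exact this

/-- Main theorem for globally continuous `f`. -/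
theorem main_continuous {f : ℂ → ℂ} (hf : Continuous f) {α : ℝ} (hα0 : 0 < α) (hα1 : α ≤ 1)
    (h : ∀ z : ℂ, ‖z‖ < 1 → mom (fun w => f (z + w)) 1 0 (α * (1 - ‖z‖)) = 0) :
    DifferentiableOn ℂ f (Metric.ball (0 : ℂ) 1) := by
  have h2π : (0:ℝ) < 2 * Real.pi := by positivity
  -- bound for f
  obtain ⟨M, hM⟩ := (isCompact_closedBall (0:ℂ) 1).exists_bound_of_continuousOn hf.continuousOn
  have hM' : ∀ z : ℂ, ‖z‖ ≤ 1 → ‖f z‖ ≤ M := fun z hz => hM z (by simpa using hz)
  have hM0 : 0 ≤ M := le_trans (norm_nonneg _) (hM' 0 (by simp))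
  choose c hc using modes hf hα0 hα1 h
  -- negative modes vanish
  have hneg : ∀ k : ℤ, k < 0 → c k = 0 := by
    intro k hk
    by_contra hne
    have hpos : 0 < ‖c k‖ := norm_pos_iff.2 hne
    set B := M * (2 * Real.pi) with hB
    have hB0 : 0 ≤ B := by positivity
    have key : ∀ x : ℝ, 0 < x → x < 1 → ‖c k‖ ≤ B * x := by
      intro x hx0 hx1
      have h1 := norm_Fm_le hM' k hx0.le hx1.le
      rw [hc k x hx0 hx1, norm_mul, norm_real, Real.norm_of_nonneg (Real.rpow_nonneg hx0.le _)] at h1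
      have h2 : x⁻¹ ≤ x ^ (k : ℝ) := by
        rw [← Real.rpow_neg_one]
        apply Real.rpow_le_rpow_of_exponent_ge hx0 hx1.le
        have : k ≤ -1 := by omega
        exact_mod_cast this
      have h3 : ‖c k‖ * x⁻¹ ≤ B := (mul_le_mul_of_nonneg_left h2 hpos.le).trans h1
      calc ‖c k‖ = (‖c k‖ * x⁻¹) * x := by field_simp
        _ ≤ B * x := mul_le_mul_of_nonneg_right h3 hx0.le
    have h1 := key (min (1 / 2) (‖c k‖ / (2 * (B + 1)))) (by positivity)
      (lt_of_le_of_lt (min_le_left _ _) (by norm_num))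
    have h2 : B * min (1 / 2) (‖c k‖ / (2 * (B + 1))) ≤ (B + 1) * (‖c k‖ / (2 * (B + 1))) :=
      mul_le_mul (by linarith) (min_le_right _ _) (by positivity) (by positivity)
    have h3 : (B + 1) * (‖c k‖ / (2 * (B + 1))) = ‖c k‖ / 2 := by field_simp
    linarith
  -- bound on nonnegative modes
  have hbd : ∀ k : ℤ, 0 ≤ k → ‖c k‖ ≤ M * (2 * Real.pi) := by
    intro k hk
    have key : ∀ x ∈ Ioo (0:ℝ) 1, ‖c k‖ * x ^ (k : ℝ) ≤ M * (2 * Real.pi) := by
      intro x hx
      have h1 := norm_Fm_le hM' k hx.1.le hx.2.le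
      rwa [hc k x hx.1 hx.2, norm_mul, norm_real,
        Real.norm_of_nonneg (Real.rpow_nonneg hx.1.le _)] at h1
    have ht : Tendsto (fun x : ℝ => ‖c k‖ * x ^ (k : ℝ)) (𝓝[<] 1) (𝓝 (‖c k‖ * 1 ^ (k : ℝ))) := by
      apply Tendsto.const_mul
      exact ((Real.continuousAt_rpow_const 1 (k : ℝ) (Or.inl one_ne_zero)).tendsto).mono_left
        nhdsWithin_le_nhds
    rw [Real.one_rpow, mul_one] at ht
    apply le_of_tendsto ht
    filter_upwards [Ioo_mem_nhdsLT (show (0:ℝ) < 1 by norm_num)] with x hx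
    exact key x hx
  set a : ℕ → ℂ := fun n => c n / ((2 * Real.pi : ℝ) : ℂ) with ha
  have ha_bd : ∀ n, ‖a n‖ ≤ M := by
    intro n
    simp only [ha]
    rw [norm_div, norm_real, Real.norm_of_nonneg h2π.le, div_le_iff₀ h2π]
    exact hbd n (by positivity)
  have : Fact (0 < 2 * Real.pi) := ⟨h2π⟩
  -- the expansion
  have hsum : ∀ z : ℂ, 0 < ‖z‖ → ‖z‖ < 1 → f z = ∑' n : ℕ, a n * z ^ n := by
    intro z hz0 hz1
    set ρ := ‖z‖ with hρ
    set φ := arg z with hφ
    have hzz : z = (ρ : ℂ) * exp ((φ : ℂ) * I) := (norm_mul_exp_arg_mul_I z).symm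
    set g : C(AddCircle (2 * Real.pi), ℂ) :=
      ⟨fun θ => f ((ρ : ℂ) * (AddCircle.toCircle θ : ℂ)), by
        have h1 : Continuous fun θ : AddCircle (2 * Real.pi) => (AddCircle.toCircle θ : ℂ) :=
          continuous_subtype_val.comp AddCircle.continuous_toCircle
        exact hf.comp (continuous_const.mul h1)⟩ with hg
    have htc : ∀ θ : ℝ, (AddCircle.toCircle (θ : AddCircle (2 * Real.pi)) : ℂ) = exp ((θ : ℂ) * I) := by
      intro θ
      rw [AddCircle.toCircle_apply_mk, Circle.coe_exp]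
      congr 2
      rw [div_self h2π.ne', one_mul]
    have hcoef : ∀ n : ℤ, fourierCoeff g n = (c n / ((2 * Real.pi : ℝ) : ℂ)) * ((ρ ^ (n : ℝ) : ℝ) : ℂ) := by
      intro n
      rw [fourierCoeff_eq_intervalIntegral _ n 0, zero_add]
      have h1 : (∫ x in (0:ℝ)..(2 * Real.pi), (fourier (-n) (x : AddCircle (2 * Real.pi)) : ℂ) • g x)
          = Fm f n ρ := by
        unfold Fm
        congr 1
        funext θ
        rw [fourier_coe_apply]
        simp only [hg, ContinuousMap.coe_mk, smul_eq_mul]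
        rw [htc, mul_comm (ρ : ℂ), mul_comm]
        congr 1
        congr 1
        push_cast
        have : (2 * (Real.pi : ℂ)) ≠ 0 := by exact_mod_cast h2π.ne'
        field_simp
      rw [h1, hc n ρ hz0 hz1]
      rw [real_smul]
      push_cast
      ring
    have hsummable : Summable (fourierCoeff g) := by
      rw [summable_int_iff_summable_nat_and_neg]
      constructor
      · apply Summable.of_norm_bounded (g := fun n : ℕ => M * ρ ^ n)
          ((summable_geometric_of_lt_one hz0.le hz1).mul_left M)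
        intro n
        rw [hcoef, norm_mul]
        apply mul_le_mul (ha_bd n) _ (norm_nonneg _) hM0
        rw [norm_real, Real.norm_of_nonneg (Real.rpow_nonneg hz0.le _)]
        simp
      · apply Summable.of_norm_bounded (g := fun n : ℕ => M * ρ ^ n)
          ((summable_geometric_of_lt_one hz0.le hz1).mul_left M)
        intro n
        rcases Nat.eq_zero_or_pos n with h0 | h0
        · subst h0
          rw [hcoef, norm_mul]
          simp only [Nat.cast_zero, neg_zero, Int.cast_zero, Real.rpow_zero, ofReal_one,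
            norm_one, mul_one, pow_zero]
          exact ha_bd 0
        · rw [hcoef, hneg (-(n : ℤ)) (by omega)]
          simp only [zero_div, zero_mul, norm_zero]
          positivity
    have hps := has_pointwise_sum_fourier_series_of_summable hsummable
      ((φ : ℝ) : AddCircle (2 * Real.pi))
    have hgz : g ((φ : ℝ) : AddCircle (2 * Real.pi)) = f z := by
      simp only [hg, ContinuousMap.coe_mk]
      rw [htc, hzz]
    rw [hgz] at hps
    have hps' : HasSum (fun n : ℕ => a n * z ^ n) (f z) := by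
      have hinj : Function.Injective (fun n : ℕ => (n : ℤ)) := Nat.cast_injective
      rw [← hinj.hasSum_iff] at hps
      · convert hps using 1
        funext n
        simp only [Function.comp]
        rw [hcoef, fourier_coe_apply]
        simp only [ha]
        rw [hzz, mul_pow, ← exp_nat_mul, smul_eq_mul]
        have e1 : exp ((n : ℂ) * ((φ : ℂ) * I))
            = exp (2 * (Real.pi : ℂ) * I * ((n : ℤ) : ℂ) * (φ : ℂ) / ((2 * Real.pi : ℝ) : ℂ)) := by
          congr 1
          have : (2 * (Real.pi : ℂ)) ≠ 0 := by exact_mod_cast h2π.ne'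
          push_cast
          field_simp
        rw [e1]
        simp
        ring
      · intro n hn
        rw [hcoef, hneg n (by
          by_contra hge
          apply hn
          exact ⟨n.toNat, by simp [Int.toNat_of_nonneg (not_lt.1 hge)]⟩)]
        simp
    exact hps'.tsum_eq.symm
  -- differentiability of the power series
  have hps : ∀ R : ℝ, 0 < R → R < 1 →
      DifferentiableOn ℂ (fun z : ℂ => ∑' n : ℕ, a n * z ^ n) (Metric.ball 0 R) := by
    intro R hR0 hR1
    apply differentiableOn_tsum_of_summable_norm (u := fun n : ℕ => M * R ^ n)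
      ((summable_geometric_of_lt_one hR0.le hR1).mul_left M)
    · intro n
      fun_prop
    · exact Metric.isOpen_ball
    · intro n w hw
      rw [mem_ball_zero_iff] at hw
      rw [norm_mul, norm_pow]
      exact mul_le_mul (ha_bd n) (pow_le_pow_left₀ (norm_nonneg _) hw.le n) (by positivity) hM0
  -- differentiability of f off 0
  have hoff : DifferentiableOn ℂ f (Metric.ball (0:ℂ) 1 \ {0}) := by
    intro z hz
    have hz1 : ‖z‖ < 1 := by simpa using hz.1
    have hz0 : 0 < ‖z‖ := norm_pos_iff.2 hz.2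
    set R := (‖z‖ + 1) / 2 with hR
    have hzR : ‖z‖ < R := by rw [hR]; linarith
    have hR1 : R < 1 := by rw [hR]; linarith
    have hR0 : 0 < R := hz0.trans hzR
    have hd : DifferentiableAt ℂ (fun z : ℂ => ∑' n : ℕ, a n * z ^ n) z :=
      (hps R hR0 hR1).differentiableAt (Metric.isOpen_ball.mem_nhds (by simpa using hzR))
    have hev : f =ᶠ[𝓝 z] fun z : ℂ => ∑' n : ℕ, a n * z ^ n := by
      have hU : IsOpen (Metric.ball (0:ℂ) 1 \ {0}) := Metric.isOpen_ball.sdiff isClosed_singleton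
      filter_upwards [hU.mem_nhds hz] with w hw
      exact hsum w (norm_pos_iff.2 hw.2) (by simpa using hw.1)
    exact (hev.differentiableAt_iff.2 hd).differentiableWithinAt
  exact (Complex.differentiableOn_compl_singleton_and_continuousAt_iff
    (Metric.isOpen_ball.mem_nhds (by simp))).1 ⟨hoff, hf.continuousAt⟩

/-- Main theorem. -/
theorem main {α : ℝ} (hα0 : 0 < α) (hα1 : α ≤ 1) {f : ℂ → ℂ}
    (hf : ContinuousOn f (Metric.closedBall (0 : ℂ) 1))
    (h : ∀ z : ℂ, ‖z‖ < 1 → circleIntegral f z (α * (1 - ‖z‖)) = 0) :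
    AnalyticOn ℂ f (Metric.ball (0 : ℂ) 1) := by
  -- extend f continuously to the plane
  set ret : ℂ → ℂ := fun z => ((max 1 ‖z‖)⁻¹ : ℝ) * z with hret
  have hmax : ∀ z : ℂ, 0 < max 1 ‖z‖ := fun z => lt_of_lt_of_le one_pos (le_max_left _ _)
  have hretc : Continuous ret := by
    simp only [hret]
    apply Continuous.mul _ continuous_id
    apply continuous_ofReal.comp
    apply Continuous.inv₀ (by fun_prop)
    intro z
    exact (hmax z).ne'
  have hretb : ∀ z, ret z ∈ Metric.closedBall (0:ℂ) 1 := by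
    intro z
    rw [mem_closedBall_zero_iff]
    simp only [hret]
    rw [norm_mul, norm_real, Real.norm_of_nonneg (by positivity), inv_mul_le_iff₀ (hmax z), mul_one]
    exact le_max_right _ _
  have hretid : ∀ z : ℂ, ‖z‖ ≤ 1 → ret z = z := by
    intro z hz
    simp only [hret]
    rw [max_eq_left hz]
    simp
  have hg : Continuous (fun z => f (ret z)) := hf.comp_continuous hretc hretb
  have hgf : ∀ z : ℂ, ‖z‖ ≤ 1 → f (ret z) = f z := by
    intro z hz
    rw [hretid z hz]
  have key := main_continuous hg hα0 hα1 (by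
    intro z hz
    set r := α * (1 - ‖z‖) with hr
    have hr0 : 0 < r := mul_pos hα0 (by linarith)
    have h1 := h z hz
    rw [← hr, circleIntegral] at h1
    have h2 : (∫ θ in (0:ℝ)..(2 * Real.pi), deriv (circleMap z r) θ • f (circleMap z r θ))
        = (r * I) * mom (fun w => f (ret (z + w))) 1 0 r := by
      unfold mom
      rw [← intervalIntegral.integral_const_mul]
      congr 1
      funext θ
      rw [deriv_circleMap]
      unfold pt
      have hn : ‖z + ((0:ℝ) + (r : ℂ) * exp ((θ : ℂ) * I))‖ ≤ 1 := by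
        calc ‖z + ((0:ℝ) + (r : ℂ) * exp ((θ : ℂ) * I))‖
            ≤ ‖z‖ + ‖((0:ℝ) + (r : ℂ) * exp ((θ : ℂ) * I))‖ := norm_add_le _ _
          _ = ‖z‖ + r := by
              rw [ofReal_zero, zero_add, norm_mul, norm_exp_ofReal_mul_I, norm_real,
                Real.norm_of_nonneg hr0.le, mul_one]
          _ ≤ 1 := by
              rw [hr]
              nlinarith [norm_nonneg z]
      beta_reduce
      rw [hgf _ hn]
      simp only [circleMap, ofReal_zero, zero_add, smul_eq_mul, Int.cast_one, one_mul]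
      ring
    rw [h2] at h1
    rcases mul_eq_zero.1 h1 with h3 | h3
    · exfalso
      have : (r : ℂ) * I ≠ 0 := mul_ne_zero (by exact_mod_cast hr0.ne') I_ne_zero
      exact this h3
    · exact h3)
  have hd : DifferentiableOn ℂ f (Metric.ball (0:ℂ) 1) := by
    apply key.congr
    intro z hz
    rw [hgf z (by rw [mem_ball_zero_iff] at hz; exact hz.le)]
  exact hd.analyticOn Metric.isOpen_ball

end Pool.Agent.Lib.MP_9de1de_an
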