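import Pool.Agent.Lib.MP_9de1de_an.Bound

set_option autoImplicit false

namespace Pool.Agent.Lib.MP_9de1de_an

open MeasureTheory Set Filter Topology

/-- the closed triangle -/
def Tri : Set (ℝ × ℝ) := {p | 0 ≤ p.1 ∧ 0 ≤ p.2 ∧ p.1 + p.2 ≤ 1}

theorem isCompact_Tri : IsCompact Tri := by
  have hcl : IsClosed Tri := by
    have h1 : IsClosed {p : ℝ × ℝ | 0 ≤ p.1} := isClosed_le continuous_const continuous_fst
    have h2 : IsClosed {p : ℝ × ℝ | 0 ≤ p.2} := isClosed_le continuous_const continuous_snd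
    have h3 : IsClosed {p : ℝ × ℝ | p.1 + p.2 ≤ 1} :=
      isClosed_le (continuous_fst.add continuous_snd) continuous_const
    exact h1.inter (h2.inter h3)
  apply (isCompact_Icc.prod isCompact_Icc : IsCompact (Icc (0:ℝ) 1 ×ˢ Icc (0:ℝ) 1)).of_isClosed_subset hcl
  intro p hp
  exact ⟨⟨hp.1, by linarith [hp.2.1, hp.2.2]⟩, ⟨hp.2.1, by linarith [hp.1, hp.2.2]⟩⟩

/-- `u, v` are uniform limits on the triangle of moments of smooth functions of mode `n`. -/
def Approx (n : ℝ) (u v : ℝ → ℝ → ℝ) : Prop :=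
  ∀ ε > 0, ∃ P : MPair n, ∀ p ∈ Tri, |p.2 * P.h p.1 p.2 - u p.1 p.2| ≤ ε ∧
    |P.V p.1 p.2 - v p.1 p.2| ≤ ε

theorem u_zero {n α : ℝ} {u v : ℝ → ℝ → ℝ} (hα0 : 0 < α) (hα1 : α ≤ 1)
    (hA : Approx n u v)
    (hu : ContinuousOn (fun p : ℝ × ℝ => u p.1 p.2) Tri)
    (hv : ContinuousOn (fun p : ℝ × ℝ => v p.1 p.2) Tri)
    (h0 : ∀ x, 0 ≤ x → x < 1 → u x (α * (1 - x)) = 0)
    {b : ℝ} (hb0 : 0 < b) (hb1 : b < 1) {s : ℝ} (hs : s ∈ Icc 0 α) (hs0 : 0 < s) :
    u (1 - b) (b * s) = 0 := by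
  by_contra hne
  obtain ⟨M, hM⟩ := isCompact_Tri.exists_bound_of_continuousOn hv
  have hM' : ∀ p ∈ Tri, |v p.1 p.2| ≤ M := fun p hp => hM p hp
  have hray : ∀ s ∈ Icc 0 α, (1 - b, b * s) ∈ Tri := by
    intro s hs
    refine ⟨by simp only; linarith, mul_nonneg hb0.le hs.1, ?_⟩
    simp only
    nlinarith [hs.2]
  have hφ : ContinuousOn (fun s => u (1 - b) (b * s)) (Icc 0 α) :=
    hu.comp (f := fun s : ℝ => (1 - b, b * s)) (by fun_prop) hray
  have hpos : 0 < ∫ s in (0:ℝ)..α, s * u (1 - b) (b * s) ^ 2 := by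
    apply intervalIntegral.integral_pos hα0
    · exact continuousOn_id.mul (hφ.pow 2)
    · intro x hx
      exact mul_nonneg hx.1.le (sq_nonneg _)
    · exact ⟨s, hs, mul_pos hs0 (by positivity)⟩
  set I := ∫ s in (0:ℝ)..α, s * u (1 - b) (b * s) ^ 2 with hI
  have hMM : 0 ≤ M := le_trans (abs_nonneg _) (hM' (0, 0) ⟨le_refl _, le_refl _, by norm_num⟩)
  have h1b : 0 < 1 - b := by linarith
  have hK0 : 0 ≤ MPair.Kc n b := by
    unfold MPair.Kc
    positivity
  set E := Real.exp ((1 + |(n + 1) ^ 2 - 1 / 4| / (1 - b) ^ 2) * b) with hE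
  have hE0 : 0 < E := Real.exp_pos _
  set C := E * ((2 * (2 * (MPair.Kc n b * (M + 2)) + (M + 1) + 6)) * b) with hC
  have hC0 : 0 ≤ C := by positivity
  have hbb : 0 < b * (1 - b) := mul_pos hb0 h1b
  -- for every small ε, the integral is bounded by a constant times ε
  have key : ∀ ε : ℝ, 0 < ε → ε ≤ 1 → I ≤ (2 / (b * (1 - b)) * C + 2) * ε := by
    intro ε hε hε1
    obtain ⟨P, hP⟩ := hA ε hε
    have hrayT : ∀ X ∈ Icc 0 b, (1 - X, X * α) ∈ Tri := by
      intro X hX
      refine ⟨by simp only; linarith [hX.2], mul_nonneg hX.1 hα0.le, ?_⟩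
      simp only
      nlinarith [hX.1]
    have e1 := P.energy_bound (α := α) (b := b) (M := M + 1) (ε := ε) hα0 hα1 hb0 hb1
      (by
        intro X hX
        have h1 := (hP _ (hrayT X hX)).2
        have h2 := hM' _ (hrayT X hX)
        simp only at h1 h2
        calc |P.V (1 - X) (X * α)| = |(P.V (1 - X) (X * α) - v (1 - X) (X * α))
              + v (1 - X) (X * α)| := by ring_nf
          _ ≤ |P.V (1 - X) (X * α) - v (1 - X) (X * α)| + |v (1 - X) (X * α)| := abs_add_le _ _
          _ ≤ M + 1 := by linarith)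
      (by
        intro X hX
        have h1 := (hP _ (hrayT X hX)).1
        simp only at h1
        rcases eq_or_lt_of_le hX.1 with h | h
        · rw [← h]; simp [hε.le]
        · have h2 := h0 (1 - X) (by linarith [hX.2]) (by linarith)
          rw [show α * (1 - (1 - X)) = X * α by ring] at h2
          rw [h2, sub_zero] at h1
          exact h1)
    have e2 : Real.exp ((1 + |(n + 1) ^ 2 - 1 / 4| / (1 - b) ^ 2) * b) *
        ((2 * ε * (2 * (MPair.Kc n b * ((M + 1) + ε)) + (M + 1) + 6 * ε)) * b) ≤ C * ε := by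
      rw [hC, ← hE]
      have h3 : 2 * ε * (2 * (MPair.Kc n b * ((M + 1) + ε)) + (M + 1) + 6 * ε)
          ≤ 2 * ε * (2 * (MPair.Kc n b * (M + 2)) + (M + 1) + 6) := by
        apply mul_le_mul_of_nonneg_left _ (by positivity)
        have : MPair.Kc n b * ((M + 1) + ε) ≤ MPair.Kc n b * (M + 2) :=
          mul_le_mul_of_nonneg_left (by linarith) hK0
        linarith
      calc E * ((2 * ε * (2 * (MPair.Kc n b * ((M + 1) + ε)) + (M + 1) + 6 * ε)) * b)
          ≤ E * ((2 * ε * (2 * (MPair.Kc n b * (M + 2)) + (M + 1) + 6)) * b) := by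
            apply mul_le_mul_of_nonneg_left _ hE0.le
            exact mul_le_mul_of_nonneg_right h3 hb0.le
        _ = _ := by ring
    have hcpsi : Continuous fun s => P.psi b s :=
      P.cont_psi.comp (f := fun s : ℝ => (b, s)) (by fun_prop)
    have hci : Continuous fun s : ℝ => s ^ 3 * P.psi b s ^ 2 := by fun_prop
    have e3 : I ≤ ∫ s in (0:ℝ)..α, (2 / (b * (1 - b)) * (s ^ 3 * P.psi b s ^ 2) + 2 * ε ^ 2 * s) := by
      rw [hI]
      apply intervalIntegral.integral_mono_on hα0.le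
      · apply ContinuousOn.intervalIntegrable
        rw [uIcc_of_le hα0.le]
        exact continuousOn_id.mul (hφ.pow 2)
      · exact (by fun_prop : Continuous fun s : ℝ =>
          (2 / (b * (1 - b)) * (s ^ 3 * P.psi b s ^ 2) + 2 * ε ^ 2 * s)).intervalIntegrable _ _
      · intro s hs
        have h1 := (hP _ (hray s hs)).1
        simp only at h1
        have h2 : s ^ 3 * P.psi b s ^ 2 = (b * (1 - b)) * (s * (b * s * P.h (1 - b) (b * s)) ^ 2) := by
          unfold MPair.psi MPair.ker0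
          have hbs : √b ^ 2 = b := Real.sq_sqrt hb0.le
          have hbs' : √(1 - b) ^ 2 = 1 - b := Real.sq_sqrt h1b.le
          calc s ^ 3 * (b * (√b * √(1 - b) * P.h (1 - b) (b * s))) ^ 2
              = s ^ 3 * b ^ 2 * (√b ^ 2) * (√(1 - b) ^ 2) * P.h (1 - b) (b * s) ^ 2 := by ring
            _ = _ := by rw [hbs, hbs']; ring
        rw [h2]
        set a := b * s * P.h (1 - b) (b * s)
        set w := u (1 - b) (b * s)
        have h3 : w ^ 2 ≤ 2 * a ^ 2 + 2 * ε ^ 2 := by
          have h4 : (a - w) ^ 2 ≤ ε ^ 2 := by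
            rw [← sq_abs]; exact pow_le_pow_left₀ (abs_nonneg _) h1 2
          nlinarith [sq_nonneg (2 * a - w)]
        calc s * w ^ 2 ≤ s * (2 * a ^ 2 + 2 * ε ^ 2) := mul_le_mul_of_nonneg_left h3 hs.1
          _ = 2 / (b * (1 - b)) * (b * (1 - b) * (s * a ^ 2)) + 2 * ε ^ 2 * s := by
            field_simp
    rw [intervalIntegral.integral_add ((hci.intervalIntegrable _ _).const_mul _)
      ((by fun_prop : Continuous fun s : ℝ => 2 * ε ^ 2 * s).intervalIntegrable _ _),
      intervalIntegral.integral_const_mul] at e3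
    have e4 : ∫ s in (0:ℝ)..α, 2 * ε ^ 2 * s ≤ 2 * ε := by
      rw [intervalIntegral.integral_const_mul, integral_id]
      have : α ^ 2 ≤ 1 := by nlinarith
      have : ε ^ 2 ≤ ε := by nlinarith
      nlinarith [sq_nonneg ε]
    have e5 : 2 / (b * (1 - b)) * ∫ s in (0:ℝ)..α, s ^ 3 * P.psi b s ^ 2 ≤
        2 / (b * (1 - b)) * (C * ε) :=
      mul_le_mul_of_nonneg_left (e1.trans e2) (by positivity)
    linarith
  set D := 2 / (b * (1 - b)) * C + 2 with hD
  have hD0 : 0 < D := by positivity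
  have h1 := key (min 1 (I / (2 * D))) (by positivity) (min_le_left _ _)
  have h2 : D * min 1 (I / (2 * D)) ≤ D * (I / (2 * D)) :=
    mul_le_mul_of_nonneg_left (min_le_right _ _) hD0.le
  have h3 : D * (I / (2 * D)) = I / 2 := by field_simp
  linarith

/-- weighted radial mean -/
noncomputable def Jint (v : ℝ → ℝ → ℝ) (R x : ℝ) : ℝ := ∫ r in (0:ℝ)..R, r * v x r

theorem MPair.hasDerivAt_J {n : ℝ} (P : MPair n) {R x : ℝ} (hx : 0 < x) :
    HasDerivAt (fun x => Jint P.V R x)
      (R ^ 2 * P.h x R + n / x * Jint P.V R x) x := by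
  have hVx : ∀ x r : ℝ, 0 < x → P.Vx x r = (r * P.hr x r + 2 * P.h x r) + n / x * P.V x r := by
    intro x r hx
    have := P.e2 x r
    field_simp
    linarith
  have h1 : HasDerivAt (fun x => Jint P.V R x)
      (∫ r in (0:ℝ)..R, r * ((r * P.hr x r + 2 * P.h x r) + n / x * P.V x r)) x := by
    unfold Jint
    apply leibniz (F := fun x r => r * P.V x r)
      (F' := fun x r => r * ((r * P.hr x r + 2 * P.h x r) + n / x * P.V x r)) (δ := x / 2)
      (by positivity)
    · exact (continuous_snd.mul P.cV).continuousOn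
    · have c1 := P.chr.continuousOn (s := Icc (x - x / 2) (x + x / 2) ×ˢ uIcc 0 R)
      have c2 := P.ch.continuousOn (s := Icc (x - x / 2) (x + x / 2) ×ˢ uIcc 0 R)
      have c3 := P.cV.continuousOn (s := Icc (x - x / 2) (x + x / 2) ×ˢ uIcc 0 R)
      have c4 : ContinuousOn (fun p : ℝ × ℝ => n / p.1) (Icc (x - x / 2) (x + x / 2) ×ˢ uIcc 0 R) := by
        apply ContinuousOn.div (by fun_prop) (by fun_prop)
        intro p hp
        have := hp.1.1
        intro h0
        rw [h0] at this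
        linarith
      fun_prop
    · intro y hy r _
      have hy0 : 0 < y := by linarith [hy.1]
      have hd := P.dV (fun x => x) (fun _ => r) 1 0 y (hasDerivAt_id' y) (hasDerivAt_const _ _)
      have := hd.const_mul r
      refine this.congr_deriv ?_
      rw [hVx y r hy0]
      ring
  refine h1.congr_deriv ?_
  have hc1 : Continuous fun r => P.hr x r := P.chr.comp (f := fun r : ℝ => (x, r)) (by fun_prop)
  have hc2 : Continuous fun r => P.h x r := P.ch.comp (f := fun r : ℝ => (x, r)) (by fun_prop)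
  have hc3 : Continuous fun r => P.V x r := P.cV.comp (f := fun r : ℝ => (x, r)) (by fun_prop)
  rw [show (fun r => r * ((r * P.hr x r + 2 * P.h x r) + n / x * P.V x r)) =
    fun r => (2 * r * P.h x r + r ^ 2 * P.hr x r) + n / x * (r * P.V x r) by funext r; ring]
  rw [intervalIntegral.integral_add ((by fun_prop : Continuous fun r =>
      2 * r * P.h x r + r ^ 2 * P.hr x r).intervalIntegrable _ _)
      ((by fun_prop : Continuous fun r => n / x * (r * P.V x r)).intervalIntegrable _ _),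
    intervalIntegral.integral_const_mul]
  congr 1
  have hd : ∀ r ∈ uIcc 0 R, HasDerivAt (fun r => r ^ 2 * P.h x r)
      (2 * r * P.h x r + r ^ 2 * P.hr x r) r := by
    intro r _
    have h2 := P.dh (fun _ => x) (fun r => r) 0 1 r (hasDerivAt_const _ _) (hasDerivAt_id' r)
    have h3 := (hasDerivAt_pow 2 r).fun_mul h2
    refine h3.congr_deriv ?_
    simp only [Nat.cast_ofNat, Nat.add_one_sub_one, pow_one]
    ring
  rw [intervalIntegral.integral_eq_sub_of_hasDerivAt hd ((by fun_prop : Continuous fun r =>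
      2 * r * P.h x r + r ^ 2 * P.hr x r).intervalIntegrable _ _)]
  ring

theorem v_const {n α : ℝ} {u v : ℝ → ℝ → ℝ} (hα0 : 0 < α) (hα1 : α ≤ 1)
    (hA : Approx n u v)
    (hu : ContinuousOn (fun p : ℝ × ℝ => u p.1 p.2) Tri)
    (hv : ContinuousOn (fun p : ℝ × ℝ => v p.1 p.2) Tri)
    (h0 : ∀ x, 0 ≤ x → x < 1 → u x (α * (1 - x)) = 0)
    {x₁ x₂ : ℝ} (hx1 : 0 < x₁) (hx12 : x₁ < x₂) (hx2 : x₂ < 1) :
    x₂ ^ (-n) * v x₂ 0 = x₁ ^ (-n) * v x₁ 0 := by
  set R₀ := α * (1 - x₂) with hR₀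
  have hR₀pos : 0 < R₀ := mul_pos hα0 (by linarith)
  -- u vanishes
  have hu0 : ∀ x ∈ Icc x₁ x₂, ∀ r, 0 < r → r ≤ R₀ → u x r = 0 := by
    intro x hx r hr hrR
    have h1x : 0 < 1 - x := by linarith [hx.2]
    have := u_zero hα0 hα1 hA hu hv h0 (b := 1 - x) h1x (by linarith [hx.1])
      (s := r / (1 - x)) ⟨by positivity, by
        rw [div_le_iff₀ h1x]
        refine hrR.trans ?_
        rw [hR₀]
        apply mul_le_mul_of_nonneg_left _ hα0.le
        linarith [hx.2]⟩ (by positivity)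
    rw [show 1 - (1 - x) = x by ring, show (1 - x) * (r / (1 - x)) = r by field_simp] at this
    exact this
  have hTri : ∀ x ∈ Icc x₁ x₂, ∀ r ∈ Icc 0 R₀, (x, r) ∈ Tri := by
    intro x hx r hr
    refine ⟨by simp only; linarith [hx.1], hr.1, ?_⟩
    simp only
    have : R₀ ≤ 1 - x₂ := by
      rw [hR₀]; nlinarith
    linarith [hr.2, hx.2]
  have hx1I : x₁ ∈ Icc x₁ x₂ := ⟨le_refl _, hx12.le⟩
  have hx2I : x₂ ∈ Icc x₁ x₂ := ⟨hx12.le, le_refl _⟩
  have hx20 : 0 < x₂ := hx1.trans hx12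
  -- equality of the weighted J integrals
  have hJ : ∀ R, 0 < R → R ≤ R₀ → x₂ ^ (-n) * Jint v R x₂ = x₁ ^ (-n) * Jint v R x₁ := by
    intro R hR hRR
    have hcv : ∀ x ∈ Icc x₁ x₂, ContinuousOn (fun r => v x r) (Icc 0 R) := by
      intro x hx
      exact hv.comp (f := fun r : ℝ => (x, r)) (by fun_prop)
        (fun r hr => hTri x hx r ⟨hr.1, hr.2.trans hRR⟩)
    -- bound for x^{-n} on the interval
    obtain ⟨Cx, hCx⟩ := (isCompact_Icc (a := x₁) (b := x₂)).exists_bound_of_continuousOn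
      (f := fun x : ℝ => x ^ (-n)) (by
        intro x hx
        exact (Real.continuousAt_rpow_const x (-n) (Or.inl (by linarith [hx.1]))).continuousWithinAt)
    have hCx0 : 0 ≤ Cx := le_trans (norm_nonneg _) (hCx x₁ hx1I)
    have main : ∀ ε > 0, |x₂ ^ (-n) * Jint v R x₂ - x₁ ^ (-n) * Jint v R x₁| ≤
        (Cx * R * (x₂ - x₁) + 2 * Cx * (R * R)) * ε := by
      intro ε hε
      obtain ⟨P, hP⟩ := hA ε hε
      -- J_P close to J
      have hclose : ∀ x ∈ Icc x₁ x₂, |Jint P.V R x - Jint v R x| ≤ R * R * ε := by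
        intro x hx
        have hc3 : Continuous fun r => P.V x r :=
          P.cV.comp (f := fun r : ℝ => (x, r)) (by fun_prop)
        unfold Jint
        rw [← intervalIntegral.integral_sub]
        · have := MPair.abs_integral_le (f := fun r => r * P.V x r - r * v x r) (X := R)
            (C := R * ε) hR.le (by
              intro r hr
              have h1 := (hP (x, r) (hTri x hx r ⟨hr.1, hr.2.trans hRR⟩)).2
              simp only at h1
              rw [← mul_sub, abs_mul, abs_of_nonneg hr.1]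
              exact mul_le_mul hr.2 h1 (abs_nonneg _) hR.le)
          calc _ ≤ _ := this
            _ = _ := by ring
        · exact (by fun_prop : Continuous fun r => r * P.V x r).intervalIntegrable _ _
        · apply ContinuousOn.intervalIntegrable
          rw [uIcc_of_le hR.le]
          exact continuousOn_id.mul (hcv x hx)
      -- derivative of x^{-n} J_P
      have hder : ∀ x ∈ Icc x₁ x₂, HasDerivAt (fun x => x ^ (-n) * Jint P.V R x)
          (x ^ (-n) * (R ^ 2 * P.h x R)) x := by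
        intro x hx
        have hx0 : 0 < x := by linarith [hx.1]
        have h1 := (Real.hasDerivAt_rpow_const (x := x) (p := -n) (Or.inl hx0.ne')).fun_mul
          (P.hasDerivAt_J (R := R) hx0)
        refine h1.congr_deriv ?_
        rw [Real.rpow_sub_one hx0.ne']
        field_simp
        ring
      have hmv : ‖x₂ ^ (-n) * Jint P.V R x₂ - x₁ ^ (-n) * Jint P.V R x₁‖ ≤
          (Cx * R * ε) * ‖x₂ - x₁‖ := by
        apply (convex_Icc x₁ x₂).norm_image_sub_le_of_norm_hasDerivWithin_le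
          (f := fun x => x ^ (-n) * Jint P.V R x) (f' := fun x => x ^ (-n) * (R ^ 2 * P.h x R))
          (fun x hx => (hder x hx).hasDerivWithinAt) _ hx1I hx2I
        intro x hx
        have h1 := (hP (x, R) (hTri x hx R ⟨hR.le, hRR⟩)).1
        simp only at h1
        rw [hu0 x hx R hR hRR, sub_zero] at h1
        rw [norm_mul]
        have h2 : ‖R ^ 2 * P.h x R‖ ≤ R * ε := by
          rw [Real.norm_eq_abs, show R ^ 2 * P.h x R = R * (R * P.h x R) by ring, abs_mul,
            abs_of_pos hR]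
          exact mul_le_mul_of_nonneg_left h1 hR.le
        calc ‖x ^ (-n)‖ * ‖R ^ 2 * P.h x R‖ ≤ Cx * (R * ε) :=
              mul_le_mul (hCx x hx) h2 (norm_nonneg _) hCx0
          _ = _ := by ring
      rw [Real.norm_eq_abs, Real.norm_eq_abs, abs_of_pos (by linarith : 0 < x₂ - x₁)] at hmv
      have k1 : |x₂ ^ (-n) * (Jint P.V R x₂ - Jint v R x₂)| ≤ Cx * (R * R * ε) := by
        rw [abs_mul]
        exact mul_le_mul (hCx x₂ hx2I) (hclose x₂ hx2I) (abs_nonneg _) hCx0
      have k2 : |x₁ ^ (-n) * (Jint P.V R x₁ - Jint v R x₁)| ≤ Cx * (R * R * ε) := by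
        rw [abs_mul]
        exact mul_le_mul (hCx x₁ hx1I) (hclose x₁ hx1I) (abs_nonneg _) hCx0
      calc |x₂ ^ (-n) * Jint v R x₂ - x₁ ^ (-n) * Jint v R x₁|
          = |(x₂ ^ (-n) * Jint P.V R x₂ - x₁ ^ (-n) * Jint P.V R x₁)
            - x₂ ^ (-n) * (Jint P.V R x₂ - Jint v R x₂)
            + x₁ ^ (-n) * (Jint P.V R x₁ - Jint v R x₁)| := by congr 1; ring
        _ ≤ |(x₂ ^ (-n) * Jint P.V R x₂ - x₁ ^ (-n) * Jint P.V R x₁)
            - x₂ ^ (-n) * (Jint P.V R x₂ - Jint v R x₂)|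
            + |x₁ ^ (-n) * (Jint P.V R x₁ - Jint v R x₁)| := abs_add_le _ _
        _ ≤ (|(x₂ ^ (-n) * Jint P.V R x₂ - x₁ ^ (-n) * Jint P.V R x₁)|
            + |x₂ ^ (-n) * (Jint P.V R x₂ - Jint v R x₂)|)
            + |x₁ ^ (-n) * (Jint P.V R x₁ - Jint v R x₁)| := by
              gcongr; exact abs_sub _ _
        _ ≤ ((Cx * R * ε) * (x₂ - x₁) + Cx * (R * R * ε)) + Cx * (R * R * ε) := by
              gcongr
        _ = _ := by ring
    by_contra hne
    set K := Cx * R * (x₂ - x₁) + 2 * Cx * (R * R) with hK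
    have hK0 : 0 ≤ K := by
      have : 0 < x₂ - x₁ := by linarith
      positivity
    have hd : 0 < |x₂ ^ (-n) * Jint v R x₂ - x₁ ^ (-n) * Jint v R x₁| :=
      abs_pos.2 (sub_ne_zero.2 hne)
    set d := |x₂ ^ (-n) * Jint v R x₂ - x₁ ^ (-n) * Jint v R x₁| with hd'
    have h1 := main (d / (2 * (K + 1))) (by positivity)
    have h2 : K * (d / (2 * (K + 1))) ≤ (K + 1) * (d / (2 * (K + 1))) :=
      mul_le_mul_of_nonneg_right (by linarith) (by positivity)
    have h3 : (K + 1) * (d / (2 * (K + 1))) = d / 2 := by field_simp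
    linarith
  -- conclude
  by_contra hne
  set w : ℝ → ℝ := fun r => x₂ ^ (-n) * v x₂ r - x₁ ^ (-n) * v x₁ r with hw
  have hcv : ∀ x ∈ Icc x₁ x₂, ContinuousOn (fun r => v x r) (Icc 0 R₀) := by
    intro x hx
    exact hv.comp (f := fun r : ℝ => (x, r)) (by fun_prop)
      (fun r hr => hTri x hx r hr)
  have hwc : ContinuousOn w (Icc 0 R₀) :=
    (continuousOn_const.mul (hcv x₂ hx2I)).sub (continuousOn_const.mul (hcv x₁ hx1I))
  have hw0 : w 0 ≠ 0 := sub_ne_zero.2 hne
  have hint : ∀ R, 0 < R → R ≤ R₀ → ∫ r in (0:ℝ)..R, r * w r = 0 := by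
    intro R hR hRR
    have hm : Icc 0 R ⊆ Icc 0 R₀ := Icc_subset_Icc_right hRR
    have e1 := hJ R hR hRR
    unfold Jint at e1
    have : ∫ r in (0:ℝ)..R, r * w r = x₂ ^ (-n) * (∫ r in (0:ℝ)..R, r * v x₂ r)
        - x₁ ^ (-n) * (∫ r in (0:ℝ)..R, r * v x₁ r) := by
      rw [← intervalIntegral.integral_const_mul, ← intervalIntegral.integral_const_mul,
        ← intervalIntegral.integral_sub]
      · congr 1
        funext r
        simp only [hw]
        ring
      · apply ContinuousOn.intervalIntegrable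
        rw [uIcc_of_le hR.le]
        exact continuousOn_const.mul (continuousOn_id.mul ((hcv x₂ hx2I).mono hm))
      · apply ContinuousOn.intervalIntegrable
        rw [uIcc_of_le hR.le]
        exact continuousOn_const.mul (continuousOn_id.mul ((hcv x₁ hx1I).mono hm))
    rw [this, e1, sub_self]
  -- w has constant sign near 0
  have hsq : ContinuousOn (fun r => w r * w 0) (Icc 0 R₀) := hwc.mul continuousOn_const
  have hpos0 : 0 < w 0 * w 0 := mul_self_pos.2 hw0
  have hev : ∀ᶠ r in 𝓝[Icc 0 R₀] 0, 0 < w r * w 0 :=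
    (hsq 0 ⟨le_refl _, hR₀pos.le⟩).eventually (lt_mem_nhds hpos0)
  rw [eventually_nhdsWithin_iff, Metric.eventually_nhds_iff] at hev
  obtain ⟨δ, hδ, hδ'⟩ := hev
  set R := min (δ / 2) R₀ with hR
  have hRpos : 0 < R := lt_min (by linarith) hR₀pos
  have hRle : R ≤ R₀ := min_le_right _ _
  have hRδ : R ≤ δ / 2 := min_le_left _ _
  have hm : Icc 0 R ⊆ Icc 0 R₀ := Icc_subset_Icc_right hRle
  have hposw : ∀ r ∈ Icc 0 R, 0 < w r * w 0 := by
    intro r hr
    apply hδ' _ (hm hr)
    rw [Real.dist_eq, sub_zero, abs_of_nonneg hr.1]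
    linarith [hr.2]
  have hposI : 0 < ∫ r in (0:ℝ)..R, r * (w r * w 0) := by
    apply intervalIntegral.integral_pos hRpos
    · exact continuousOn_id.mul (hsq.mono hm)
    · intro x hx
      exact mul_nonneg hx.1.le (hposw x ⟨hx.1.le, hx.2⟩).le
    · exact ⟨R, ⟨hRpos.le, le_refl _⟩, mul_pos hRpos (hposw R ⟨hRpos.le, le_refl _⟩)⟩
  have hzero : ∫ r in (0:ℝ)..R, r * (w r * w 0) = 0 := by
    rw [show (fun r => r * (w r * w 0)) = fun r => (r * w r) * w 0 by funext r; ring,
      intervalIntegral.integral_mul_const, hint R hRpos hRle, zero_mul]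
  linarith

end Pool.Agent.Lib.MP_9de1de_an
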