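import Pool.Agent.Lib.MP_9de1de_an.Moments

set_option autoImplicit false

namespace Pool.Agent.Lib.MP_9de1de_an

open MeasureTheory Set Filter Topology Complex

theorem cont_pt : Continuous fun z : (ℝ × ℝ) × ℝ => pt z.1.1 z.1.2 z.2 := by
  unfold pt; fun_prop

theorem cont_integrand {F : ℂ → ℂ} (hF : Continuous F) (k : ℤ) (x r : ℝ) :
    Continuous fun t : ℝ => F (pt x r t) * exp ((k : ℂ) * (t : ℂ) * I) := by
  have : Continuous fun t : ℝ => pt x r t := by unfold pt; fun_prop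
  fun_prop

theorem cont_mom {F : ℂ → ℂ} (hF : Continuous F) (k : ℤ) :
    Continuous fun p : ℝ × ℝ => mom F k p.1 p.2 := by
  unfold mom
  apply intervalIntegral.continuous_parametric_intervalIntegral_of_continuous'
  have h1 := cont_pt
  have h2 := hF.comp h1
  exact h2.mul (by fun_prop)

theorem norm_pt_le {p : ℝ × ℝ} (hp : p ∈ Tri) (t : ℝ) : ‖pt p.1 p.2 t‖ ≤ 1 := by
  unfold pt
  calc ‖(p.1 : ℂ) + (p.2 : ℂ) * exp ((t : ℂ) * I)‖ ≤ ‖(p.1 : ℂ)‖ + ‖(p.2 : ℂ) * exp ((t : ℂ) * I)‖ :=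
        norm_add_le _ _
    _ = p.1 + p.2 := by
        rw [norm_mul, norm_exp_ofReal_mul_I, mul_one, norm_real, norm_real,
          Real.norm_of_nonneg hp.1, Real.norm_of_nonneg hp.2.1]
    _ ≤ 1 := hp.2.2

theorem mom_sub_le {F G : ℂ → ℂ} (hF : Continuous F) (hG : Continuous G) {ε : ℝ}
    (h : ∀ z : ℂ, ‖z‖ ≤ 1 → ‖G z - F z‖ ≤ ε) (k : ℤ) {p : ℝ × ℝ} (hp : p ∈ Tri) :
    ‖mom G k p.1 p.2 - mom F k p.1 p.2‖ ≤ ε * (2 * Real.pi) := by
  unfold mom
  rw [← intervalIntegral.integral_sub ((cont_integrand hG k _ _).intervalIntegrable _ _)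
    ((cont_integrand hF k _ _).intervalIntegrable _ _)]
  have := intervalIntegral.norm_integral_le_of_norm_le_const (a := 0) (b := 2 * Real.pi)
    (f := fun t => G (pt p.1 p.2 t) * exp ((k : ℂ) * (t : ℂ) * I)
      - F (pt p.1 p.2 t) * exp ((k : ℂ) * (t : ℂ) * I)) (C := ε)
    (by
      intro t _
      rw [← sub_mul, norm_mul]
      have : ‖exp ((k : ℂ) * (t : ℂ) * I)‖ = 1 := by
        rw [show (k : ℂ) * (t : ℂ) * I = (((k : ℝ) * t : ℝ) : ℂ) * I by push_cast; ring]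
        exact norm_exp_ofReal_mul_I _
      rw [this, mul_one]
      exact h _ (norm_pt_le hp t))
  rw [sub_zero, abs_of_pos (by positivity)] at this
  exact this

/-- polynomial functions of a given mode -/
noncomputable def Fp (N M : ℕ) (p : Polynomial ℝ) (z : ℂ) : ℂ :=
  z ^ N * ((starRingEnd ℂ) z) ^ M * ((p.eval (normSq z) : ℝ) : ℂ)

theorem cont_Fp (N M : ℕ) (p : Polynomial ℝ) : Continuous (Fp N M p) := by
  unfold Fp
  have h1 : Continuous fun z : ℂ => (p.eval (normSq z) : ℝ) :=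
    p.continuous.comp continuous_normSq
  have h2 : Continuous fun z : ℂ => (starRingEnd ℂ) z := continuous_conj
  exact ((continuous_id.pow N).mul (h2.pow M)).mul (continuous_ofReal.comp h1)

theorem mom_add {F G : ℂ → ℂ} (hF : Continuous F) (hG : Continuous G) (k : ℤ) (x r : ℝ) :
    mom (fun z => F z + G z) k x r = mom F k x r + mom G k x r := by
  unfold mom
  rw [← intervalIntegral.integral_add ((cont_integrand hF k _ _).intervalIntegrable _ _)
    ((cont_integrand hG k _ _).intervalIntegrable _ _)]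
  congr 1
  funext t
  ring

theorem mom_smul (c : ℂ) (F : ℂ → ℂ) (k : ℤ) (x r : ℝ) :
    mom (fun z => c * F z) k x r = c * mom F k x r := by
  unfold mom
  rw [← intervalIntegral.integral_const_mul]
  congr 1
  funext t
  ring

theorem exists_mpair (N M : ℕ) (n : ℝ) (hn : n = (N : ℝ) - M) (p : Polynomial ℝ) :
    ∃ P : MPair n, ∀ x r : ℝ,
      mom (Fp N M p) 1 x r = (2 * Real.pi : ℂ) * ((r * P.h x r : ℝ) : ℂ) ∧
      mom (Fp N M p) 0 x r = (2 * Real.pi : ℂ) * ((P.V x r : ℝ) : ℂ) := by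
  induction p using Polynomial.induction_on' with
  | add p q hp hq =>
    obtain ⟨P, hP⟩ := hp
    obtain ⟨Q, hQ⟩ := hq
    refine ⟨P.add Q, fun x r => ?_⟩
    have hF : Fp N M (p + q) = fun z => Fp N M p z + Fp N M q z := by
      funext z
      unfold Fp
      rw [Polynomial.eval_add]
      push_cast
      ring
    rw [hF, mom_add (cont_Fp N M p) (cont_Fp N M q), mom_add (cont_Fp N M p) (cont_Fp N M q),
      (hP x r).1, (hP x r).2, (hQ x r).1, (hQ x r).2]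
    constructor
    · simp only [MPair.add]; push_cast; ring
    · simp only [MPair.add]; push_cast; ring
  | monomial a c =>
    have hn' : n = ((N + a : ℕ) : ℝ) - ((M + a : ℕ) : ℝ) := by rw [hn]; push_cast; ring
    refine ⟨(monoMP (M + a) (N + a) n hn').smul c, fun x r => ?_⟩
    have hF : Fp N M (Polynomial.monomial a c) = fun z => (c : ℂ) *
        (z ^ (N + a) * ((starRingEnd ℂ) z) ^ (M + a)) := by
      funext z
      unfold Fp
      rw [Polynomial.eval_monomial]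
      push_cast
      rw [← mul_conj z]
      ring
    rw [hF, mom_smul (c : ℂ) (fun z => z ^ (N + a) * ((starRingEnd ℂ) z) ^ (M + a)),
      mom_smul (c : ℂ) (fun z => z ^ (N + a) * ((starRingEnd ℂ) z) ^ (M + a)),
      mom_one (M + a) (N + a) n hn', mom_zero (M + a) (N + a) n hn']
    constructor
    · simp only [MPair.smul]; push_cast; ring
    · simp only [MPair.smul]; push_cast; ring

/-- polynomial approximation on the segment -/
theorem approx_segment {F : ℂ → ℂ} (hF : Continuous F) (N M : ℕ)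
    (h0 : N + M = 0 ∨ F 0 = 0) {ε : ℝ} (hε : 0 < ε) :
    ∃ p q : Polynomial ℝ, ∀ x ∈ Icc (0:ℝ) 1,
      ‖(x : ℂ) ^ (N + M) * (((p.eval (x ^ 2) : ℝ) : ℂ) + I * ((q.eval (x ^ 2) : ℝ) : ℂ)) - F x‖ ≤ ε := by
  -- choose η
  obtain ⟨η, hη, hη'⟩ : ∃ η > 0, N + M = 0 ∨ ∀ x ∈ Icc 0 η, ‖F (x : ℝ)‖ ≤ ε / 3 := by
    rcases h0 with h | h
    · exact ⟨1, one_pos, Or.inl h⟩
    · have hc : Continuous fun x : ℝ => F (x : ℂ) := hF.comp continuous_ofReal
      have := Metric.continuous_iff.1 hc 0 (ε / 3) (by positivity)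
      obtain ⟨δ, hδ, hδ'⟩ := this
      refine ⟨δ / 2, by positivity, Or.inr ?_⟩
      intro x hx
      have h1 := hδ' x (by
        rw [Real.dist_eq, sub_zero, abs_of_nonneg hx.1]
        linarith [hx.2])
      rw [ofReal_zero, h, dist_zero_right] at h1
      exact h1.le
  set m : ℝ → ℝ := fun x => max x η with hm
  have hmpos : ∀ x, 0 < m x := fun x => lt_of_lt_of_le hη (le_max_right _ _)
  set Gc : ℝ → ℂ := fun u => F (√u : ℝ) / ((m (√u) : ℝ) : ℂ) ^ (N + M) with hG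
  have hGc : Continuous Gc := by
    have h1 : Continuous fun u : ℝ => F ((√u : ℝ) : ℂ) :=
      hF.comp (continuous_ofReal.comp Real.continuous_sqrt)
    have h2 : Continuous fun u : ℝ => ((m (√u) : ℝ) : ℂ) ^ (N + M) := by
      simp only [hm]
      fun_prop
    apply h1.div h2
    intro u
    exact pow_ne_zero _ (by exact_mod_cast (hmpos _).ne')
  obtain ⟨p, hp⟩ := exists_polynomial_near_of_continuousOn 0 1 (fun u => (Gc u).re)
    (continuous_re.comp hGc).continuousOn (ε / 3) (by positivity)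
  obtain ⟨q, hq⟩ := exists_polynomial_near_of_continuousOn 0 1 (fun u => (Gc u).im)
    (continuous_im.comp hGc).continuousOn (ε / 3) (by positivity)
  refine ⟨p, q, fun x hx => ?_⟩
  have hx2 : x ^ 2 ∈ Icc (0:ℝ) 1 := ⟨by positivity, pow_le_one₀ hx.1 hx.2⟩
  have hp' := hp _ hx2
  have hq' := hq _ hx2
  have hs : √(x ^ 2) = x := Real.sqrt_sq hx.1
  set K := N + M with hK
  -- difference between x^K G(x^2) and F x
  have hd1 : ‖(x : ℂ) ^ K * Gc (x ^ 2) - F x‖ ≤ ε / 3 := by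
    simp only [hG, hs]
    rcases hη' with h | h
    · rw [h]; simp; positivity
    · rcases le_or_gt η x with hx1 | hx1
      · have : m x = x := max_eq_left hx1
        rw [this]
        have hx0 : (x : ℂ) ≠ 0 := by
          have : 0 < x := lt_of_lt_of_le hη hx1
          exact_mod_cast this.ne'
        rw [mul_div_cancel₀ _ (pow_ne_zero _ hx0), sub_self, norm_zero]
        positivity
      · have hmx : m x = η := max_eq_right hx1.le
        rw [hmx]
        have h1 := h x ⟨hx.1, hx1.le⟩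
        have h2 : (x : ℂ) ^ K * (F x / (η : ℂ) ^ K) - F x
            = -((((1 - (x / η) ^ K : ℝ)) : ℂ) * F x) := by
          have h9 : (η : ℂ) ^ K ≠ 0 := pow_ne_zero _ (by exact_mod_cast hη.ne')
          rw [show ((1 - (x / η) ^ K : ℝ) : ℂ) = 1 - (x : ℂ) ^ K / (η : ℂ) ^ K by
            push_cast; rw [div_pow]]
          field_simp
          ring
        rw [h2, norm_neg, norm_mul, norm_real, Real.norm_eq_abs]
        have h3 : |1 - (x / η) ^ K| ≤ 1 := by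
          have h4 : 0 ≤ x / η := div_nonneg hx.1 hη.le
          have h5 : x / η ≤ 1 := by rw [div_le_one hη]; exact hx1.le
          have h6 : (x / η) ^ K ≤ 1 := pow_le_one₀ h4 h5
          have h7 : 0 ≤ (x / η) ^ K := pow_nonneg h4 K
          rw [abs_le]
          constructor <;> linarith
        calc |1 - (x / η) ^ K| * ‖F x‖ ≤ 1 * (ε / 3) :=
              mul_le_mul h3 h1 (norm_nonneg _) zero_le_one
          _ = ε / 3 := one_mul _
  have hd2 : ‖(((p.eval (x ^ 2) : ℝ) : ℂ) + I * ((q.eval (x ^ 2) : ℝ) : ℂ)) - Gc (x ^ 2)‖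
      ≤ ε / 3 + ε / 3 := by
    have h1 : (((p.eval (x ^ 2) : ℝ) : ℂ) + I * ((q.eval (x ^ 2) : ℝ) : ℂ)) - Gc (x ^ 2)
        = ((p.eval (x ^ 2) - (Gc (x ^ 2)).re : ℝ) : ℂ)
          + I * ((q.eval (x ^ 2) - (Gc (x ^ 2)).im : ℝ) : ℂ) := by
      conv_lhs => rw [← re_add_im (Gc (x ^ 2))]
      push_cast
      ring
    rw [h1]
    refine (norm_add_le _ _).trans ?_
    rw [norm_mul, norm_I, one_mul, norm_real, norm_real, Real.norm_eq_abs, Real.norm_eq_abs]
    exact add_le_add hp'.le hq'.le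
  have h3 : (x : ℂ) ^ K * (((p.eval (x ^ 2) : ℝ) : ℂ) + I * ((q.eval (x ^ 2) : ℝ) : ℂ)) - F x
      = (x : ℂ) ^ K * ((((p.eval (x ^ 2) : ℝ) : ℂ) + I * ((q.eval (x ^ 2) : ℝ) : ℂ)) - Gc (x ^ 2))
        + ((x : ℂ) ^ K * Gc (x ^ 2) - F x) := by ring
  rw [h3]
  refine (norm_add_le _ _).trans ?_
  rw [norm_mul, norm_pow, norm_real, Real.norm_of_nonneg hx.1]
  have h4 : x ^ K ≤ 1 := pow_le_one₀ hx.1 hx.2
  have h5 : 0 ≤ x ^ K := pow_nonneg hx.1 K
  calc _ ≤ 1 * (ε / 3 + ε / 3) + ε / 3 := by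
        apply add_le_add _ hd1
        exact mul_le_mul h4 hd2 (norm_nonneg _) zero_le_one
    _ = ε := by ring

/-- `F` has angular mode `n = N - M`. -/
def IsMode (F : ℂ → ℂ) (N M : ℕ) : Prop :=
  ∀ (z : ℂ) (φ : ℝ), F (exp ((φ : ℂ) * I) * z) = exp ((((N : ℤ) - (M : ℤ) : ℤ) : ℂ) * (φ : ℂ) * I) * F z

theorem IsMode.zero {F : ℂ → ℂ} {N M : ℕ} (hF : IsMode F N M) (hNM : N = 0 ∨ M = 0) :
    N + M = 0 ∨ F 0 = 0 := by
  by_cases h : N + M = 0
  · exact Or.inl h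
  · right
    have hk : ((N : ℝ) - (M : ℝ)) ≠ 0 := by
      rcases hNM with h1 | h1
      · subst h1
        have : (M : ℝ) ≠ 0 := by exact_mod_cast (by omega : M ≠ 0)
        simpa using this
      · subst h1
        have : (N : ℝ) ≠ 0 := by exact_mod_cast (by omega : N ≠ 0)
        simpa using this
    have h1 := hF 0 (Real.pi / ((N : ℝ) - (M : ℝ)))
    rw [mul_zero] at h1
    have hkc : ((N : ℂ) - (M : ℂ)) ≠ 0 := by exact_mod_cast hk
    have h2 : exp ((((N : ℤ) - (M : ℤ) : ℤ) : ℂ) * ((Real.pi / ((N : ℝ) - (M : ℝ)) : ℝ) : ℂ) * I) = -1 := by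
      rw [← exp_pi_mul_I]
      congr 1
      push_cast
      field_simp
    rw [h2] at h1
    have : 2 * F 0 = 0 := by linear_combination h1
    simpa using this

theorem approx_disc {F : ℂ → ℂ} (hF : Continuous F) {N M : ℕ} (hm : IsMode F N M)
    (hNM : N = 0 ∨ M = 0) {ε : ℝ} (hε : 0 < ε) :
    ∃ p q : Polynomial ℝ, ∀ z : ℂ, ‖z‖ ≤ 1 → ‖(Fp N M p z + I * Fp N M q z) - F z‖ ≤ ε := by
  obtain ⟨p, q, h⟩ := approx_segment hF N M (hm.zero hNM) hε
  refine ⟨p, q, fun z hz => ?_⟩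
  have hx := h ‖z‖ ⟨norm_nonneg z, hz⟩
  set x := ‖z‖ with hxz
  set φ := arg z with hφ
  have hz' : z = exp ((φ : ℂ) * I) * (x : ℂ) := by
    rw [mul_comm]; exact (norm_mul_exp_arg_mul_I z).symm
  have h1 : F z = exp ((((N : ℤ) - (M : ℤ) : ℤ) : ℂ) * (φ : ℂ) * I) * F x := by
    conv_lhs => rw [hz']
    exact hm x φ
  have hns : normSq z = x ^ 2 := normSq_eq_norm_sq z
  have hpow : z ^ N * ((starRingEnd ℂ) z) ^ M
      = exp ((((N : ℤ) - (M : ℤ) : ℤ) : ℂ) * (φ : ℂ) * I) * (x : ℂ) ^ (N + M) := by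
    conv_lhs => rw [hz']
    rw [map_mul, conj_ofReal, ← exp_conj, map_mul, conj_ofReal, conj_I, mul_pow, mul_pow,
      ← exp_nat_mul, ← exp_nat_mul]
    rw [show exp ((N : ℂ) * ((φ : ℂ) * I)) * (x : ℂ) ^ N * (exp ((M : ℂ) * ((φ : ℂ) * -I)) * (x : ℂ) ^ M)
      = (exp ((N : ℂ) * ((φ : ℂ) * I)) * exp ((M : ℂ) * ((φ : ℂ) * -I))) * ((x : ℂ) ^ N * (x : ℂ) ^ M) by ring,
      ← exp_add, ← pow_add]
    congr 2
    push_cast
    ring
  have h2 : (Fp N M p z + I * Fp N M q z) - F z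
      = exp ((((N : ℤ) - (M : ℤ) : ℤ) : ℂ) * (φ : ℂ) * I) *
        ((x : ℂ) ^ (N + M) * (((p.eval (x ^ 2) : ℝ) : ℂ) + I * ((q.eval (x ^ 2) : ℝ) : ℂ)) - F x) := by
    unfold Fp
    rw [h1, hpow, hns]
    ring
  rw [h2, norm_mul]
  have : ‖exp ((((N : ℤ) - (M : ℤ) : ℤ) : ℂ) * (φ : ℂ) * I)‖ = 1 := by
    rw [show (((N : ℤ) - (M : ℤ) : ℤ) : ℂ) * (φ : ℂ) * I
      = (((((N : ℤ) - (M : ℤ) : ℤ) : ℝ) * φ : ℝ) : ℂ) * I by push_cast; ring]
    exact norm_exp_ofReal_mul_I _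
  rw [this, one_mul]
  exact hx

theorem approx_re {F : ℂ → ℂ} (hF : Continuous F) {N M : ℕ} (hm : IsMode F N M)
    (hNM : N = 0 ∨ M = 0) :
    Approx ((N : ℝ) - M) (fun x r => (mom F 1 x r).re / (2 * Real.pi))
      (fun x r => (mom F 0 x r).re / (2 * Real.pi)) := by
  intro ε hε
  obtain ⟨p, q, h⟩ := approx_disc hF hm hNM hε
  obtain ⟨P, hP⟩ := exists_mpair N M _ rfl p
  obtain ⟨Q, hQ⟩ := exists_mpair N M _ rfl q
  have hG : Continuous fun z => Fp N M p z + I * Fp N M q z :=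
    (cont_Fp N M p).add (continuous_const.mul (cont_Fp N M q))
  have hmom : ∀ k x r, mom (fun z => Fp N M p z + I * Fp N M q z) k x r
      = mom (Fp N M p) k x r + I * mom (Fp N M q) k x r := by
    intro k x r
    rw [mom_add (F := Fp N M p) (G := fun z => I * Fp N M q z) (cont_Fp N M p)
      (continuous_const.mul (cont_Fp N M q)), mom_smul]
  have h2π : 0 < 2 * Real.pi := by positivity
  refine ⟨P, fun z hz => ⟨?_, ?_⟩⟩
  · have h1 := mom_sub_le hF hG h 1 hz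
    rw [hmom, (hP z.1 z.2).1, (hQ z.1 z.2).1] at h1
    have h2 := (abs_re_le_norm _).trans h1
    have h3 : ((2 * Real.pi : ℂ) * ((z.2 * P.h z.1 z.2 : ℝ) : ℂ)
        + I * ((2 * Real.pi : ℂ) * ((z.2 * Q.h z.1 z.2 : ℝ) : ℂ)) - mom F 1 z.1 z.2).re
        = (2 * Real.pi) * (z.2 * P.h z.1 z.2 - (mom F 1 z.1 z.2).re / (2 * Real.pi)) := by
      rw [show (2 * Real.pi : ℂ) * ((z.2 * P.h z.1 z.2 : ℝ) : ℂ)
        = ((2 * Real.pi * (z.2 * P.h z.1 z.2) : ℝ) : ℂ) by push_cast; ring,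
        show (2 * Real.pi : ℂ) * ((z.2 * Q.h z.1 z.2 : ℝ) : ℂ)
        = ((2 * Real.pi * (z.2 * Q.h z.1 z.2) : ℝ) : ℂ) by push_cast; ring,
        sub_re, add_re, I_mul_re, ofReal_im, ofReal_re]
      field_simp
      ring
    rw [h3, abs_mul, abs_of_pos h2π, mul_comm ε] at h2
    exact le_of_mul_le_mul_left h2 h2π
  · have h1 := mom_sub_le hF hG h 0 hz
    rw [hmom, (hP z.1 z.2).2, (hQ z.1 z.2).2] at h1
    have h2 := (abs_re_le_norm _).trans h1
    have h3 : ((2 * Real.pi : ℂ) * ((P.V z.1 z.2 : ℝ) : ℂ)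
        + I * ((2 * Real.pi : ℂ) * ((Q.V z.1 z.2 : ℝ) : ℂ)) - mom F 0 z.1 z.2).re
        = (2 * Real.pi) * (P.V z.1 z.2 - (mom F 0 z.1 z.2).re / (2 * Real.pi)) := by
      rw [show (2 * Real.pi : ℂ) * ((P.V z.1 z.2 : ℝ) : ℂ)
        = ((2 * Real.pi * (P.V z.1 z.2) : ℝ) : ℂ) by push_cast; ring,
        show (2 * Real.pi : ℂ) * ((Q.V z.1 z.2 : ℝ) : ℂ)
        = ((2 * Real.pi * (Q.V z.1 z.2) : ℝ) : ℂ) by push_cast; ring,
        sub_re, add_re, I_mul_re, ofReal_im, ofReal_re]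
      field_simp
      ring
    rw [h3, abs_mul, abs_of_pos h2π, mul_comm ε] at h2
    exact le_of_mul_le_mul_left h2 h2π

theorem mode_re {F : ℂ → ℂ} (hF : Continuous F) {N M : ℕ} (hm : IsMode F N M)
    (hNM : N = 0 ∨ M = 0) {α : ℝ} (hα0 : 0 < α) (hα1 : α ≤ 1)
    (h0 : ∀ x : ℝ, 0 ≤ x → x < 1 → mom F 1 x (α * (1 - x)) = 0)
    {x₁ x₂ : ℝ} (hx1 : 0 < x₁) (hx12 : x₁ < x₂) (hx2 : x₂ < 1) :
    x₂ ^ (-((N : ℝ) - M)) * (F x₂).re = x₁ ^ (-((N : ℝ) - M)) * (F x₁).re := by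
  have h2π : 0 < 2 * Real.pi := by positivity
  have key := v_const hα0 hα1 (approx_re hF hm hNM)
    ((continuous_re.comp (cont_mom hF 1)).div_const _).continuousOn
    ((continuous_re.comp (cont_mom hF 0)).div_const _).continuousOn
    (fun x hx0 hx1 => by
      show (mom F 1 x (α * (1 - x))).re / (2 * Real.pi) = 0
      rw [h0 x hx0 hx1]; simp) hx1 hx12 hx2
  have hv : ∀ x : ℝ, (mom F 0 x 0).re / (2 * Real.pi) = (F x).re := by
    intro x
    unfold mom pt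
    simp only [ofReal_zero, zero_mul, add_zero, Int.cast_zero, exp_zero, mul_one]
    rw [intervalIntegral.integral_const]
    simp
  simp only [hv] at key
  exact key

theorem mode_const {F : ℂ → ℂ} (hF : Continuous F) {N M : ℕ} (hm : IsMode F N M)
    (hNM : N = 0 ∨ M = 0) {α : ℝ} (hα0 : 0 < α) (hα1 : α ≤ 1)
    (h0 : ∀ x : ℝ, 0 ≤ x → x < 1 → mom F 1 x (α * (1 - x)) = 0)
    {x₁ x₂ : ℝ} (hx1 : 0 < x₁) (hx12 : x₁ < x₂) (hx2 : x₂ < 1) :
    ((x₂ ^ (-((N : ℝ) - M)) : ℝ) : ℂ) * F x₂ = ((x₁ ^ (-((N : ℝ) - M)) : ℝ) : ℂ) * F x₁ := by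
  have h1 := mode_re hF hm hNM hα0 hα1 h0 hx1 hx12 hx2
  have hF' : Continuous fun z => (-I) * F z := continuous_const.mul hF
  have hm' : IsMode (fun z => (-I) * F z) N M := by
    intro z φ
    show -I * F (exp ((φ : ℂ) * I) * z) = _ * (-I * F z)
    rw [hm z φ]; ring
  have h2 := mode_re hF' hm' hNM hα0 hα1 (fun x hx0 hx1 => by
    rw [mom_smul, h0 x hx0 hx1, mul_zero]) hx1 hx12 hx2
  apply Complex.ext
  · rw [re_ofReal_mul, re_ofReal_mul]; exact h1
  · rw [im_ofReal_mul, im_ofReal_mul]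
    simpa using h2

end Pool.Agent.Lib.MP_9de1de_an
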