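import Pool.Agent.Lib.MP_9de1de_an.Mono

set_option autoImplicit false

namespace Pool.Agent.Lib.MP_9de1de_an

open MeasureTheory Set Filter Topology Complex

/-- the point `x + r e^{it}` -/
noncomputable def pt (x r t : ℝ) : ℂ := (x : ℂ) + (r : ℂ) * exp ((t : ℂ) * I)

/-- moments over the circle of centre `x` and radius `r` -/
noncomputable def mom (F : ℂ → ℂ) (k : ℤ) (x r : ℝ) : ℂ :=
  ∫ t in (0:ℝ)..(2 * Real.pi), F (pt x r t) * exp ((k : ℂ) * (t : ℂ) * I)

theorem int_exp (k : ℤ) : ∫ t in (0:ℝ)..(2 * Real.pi), exp ((k : ℂ) * (t : ℂ) * I)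
    = if k = 0 then (2 * Real.pi : ℂ) else 0 := by
  split_ifs with h
  · subst h; simp
  · have hc : (k : ℂ) * I ≠ 0 := mul_ne_zero (by exact_mod_cast h) I_ne_zero
    have h1 := integral_exp_mul_complex (a := 0) (b := 2 * Real.pi) hc
    have h2 : (fun t : ℝ => exp ((k : ℂ) * (t : ℂ) * I)) = fun t : ℝ => exp ((k : ℂ) * I * t) := by
      funext t; congr 1; ring
    rw [h2, h1]
    have h3 : exp ((k : ℂ) * I * ((2 * Real.pi : ℝ) : ℂ)) = 1 := by
      have := exp_int_mul_two_pi_mul_I k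
      rw [← this]; congr 1; push_cast; ring
    rw [h3]
    simp

theorem pow_expand (N B : ℕ) (hN : B + 1 ≤ N) (y x : ℂ) :
    (y + x) ^ B = ∑ i ∈ Finset.range N, (B.choose i : ℂ) * y ^ i * x ^ (B - i) := by
  rw [add_pow]
  rw [← Finset.sum_subset (Finset.range_subset_range.2 hN)]
  · apply Finset.sum_congr rfl
    intro i _
    ring
  · intro i _ hi
    rw [Finset.mem_range, not_lt] at hi
    rw [Nat.choose_eq_zero_of_lt (by omega)]
    simp

theorem conj_pt (x r t : ℝ) : (starRingEnd ℂ) (pt x r t) = (r : ℂ) * exp (-((t : ℂ) * I)) + x := by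
  unfold pt
  rw [map_add, map_mul, conj_ofReal, conj_ofReal, ← exp_conj, map_mul, conj_ofReal, conj_I]
  rw [add_comm]
  congr 3
  ring

theorem mono_expand (A B N : ℕ) (hA : A + 1 ≤ N) (hB : B + 1 ≤ N) (k : ℤ) (x r t : ℝ) :
    (pt x r t) ^ B * ((starRingEnd ℂ) (pt x r t)) ^ A * exp ((k : ℂ) * (t : ℂ) * I)
    = ∑ i ∈ Finset.range N, ∑ l ∈ Finset.range N,
      ((B.choose i : ℂ) * (A.choose l : ℂ) * (r : ℂ) ^ (i + l) * (x : ℂ) ^ ((A - l) + (B - i)))
        * exp ((((i : ℤ) - (l : ℤ) + k : ℤ) : ℂ) * (t : ℂ) * I) := by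
  rw [conj_pt]
  rw [show pt x r t = (r : ℂ) * exp ((t : ℂ) * I) + x by unfold pt; ring]
  rw [pow_expand N B hB, pow_expand N A hA, Finset.sum_mul_sum, Finset.sum_mul]
  apply Finset.sum_congr rfl
  intro i _
  rw [Finset.sum_mul]
  apply Finset.sum_congr rfl
  intro l _
  have h1 : (exp ((t : ℂ) * I)) ^ i * (exp (-((t : ℂ) * I))) ^ l * exp ((k : ℂ) * (t : ℂ) * I)
      = exp ((((i : ℤ) - (l : ℤ) + k : ℤ) : ℂ) * (t : ℂ) * I) := by
    rw [← exp_nat_mul, ← exp_nat_mul, ← exp_add, ← exp_add]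
    congr 1
    push_cast
    ring
  rw [← h1]
  ring

theorem mom_mono (A B N : ℕ) (hA : A + 1 ≤ N) (hB : B + 1 ≤ N) (k : ℤ) (x r : ℝ) :
    mom (fun z => z ^ B * ((starRingEnd ℂ) z) ^ A) k x r
    = ∑ i ∈ Finset.range N, ∑ l ∈ Finset.range N,
      ((B.choose i : ℂ) * (A.choose l : ℂ) * (r : ℂ) ^ (i + l) * (x : ℂ) ^ ((A - l) + (B - i)))
        * (if ((i : ℤ) - (l : ℤ) + k : ℤ) = 0 then (2 * Real.pi : ℂ) else 0) := by
  unfold mom
  rw [show (fun t : ℝ => (fun z : ℂ => z ^ B * ((starRingEnd ℂ) z) ^ A) (pt x r t)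
      * exp ((k : ℂ) * (t : ℂ) * I)) = fun t : ℝ => ∑ i ∈ Finset.range N, ∑ l ∈ Finset.range N,
      ((B.choose i : ℂ) * (A.choose l : ℂ) * (r : ℂ) ^ (i + l) * (x : ℂ) ^ ((A - l) + (B - i)))
        * exp ((((i : ℤ) - (l : ℤ) + k : ℤ) : ℂ) * (t : ℂ) * I) from
    funext fun t => mono_expand A B N hA hB k x r t]
  rw [intervalIntegral.integral_finsetSum]
  · apply Finset.sum_congr rfl
    intro i _
    rw [intervalIntegral.integral_finsetSum]
    · apply Finset.sum_congr rfl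
      intro l _
      rw [intervalIntegral.integral_const_mul, int_exp]
    · intro l _
      apply Continuous.intervalIntegrable
      fun_prop
  · intro i _
    apply Continuous.intervalIntegrable
    fun_prop

theorem mom_one (A B : ℕ) (n : ℝ) (hn : n = (B : ℝ) - A) (x r : ℝ) :
    mom (fun z => z ^ B * ((starRingEnd ℂ) z) ^ A) 1 x r
    = (2 * Real.pi : ℂ) * ((r * (monoMP A B n hn).h x r : ℝ) : ℂ) := by
  rw [mom_mono A B (A + B + 2) (by omega) (by omega)]
  have hin : ∀ i ∈ Finset.range (A + B + 2), (∑ l ∈ Finset.range (A + B + 2),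
      ((B.choose i : ℂ) * (A.choose l : ℂ) * (r : ℂ) ^ (i + l) * (x : ℂ) ^ ((A - l) + (B - i)))
        * (if ((i : ℤ) - (l : ℤ) + 1 : ℤ) = 0 then (2 * Real.pi : ℂ) else 0))
      = (2 * Real.pi : ℂ) * ((r * term (cc A B i) (ee A B i) (2 * i) x r : ℝ) : ℂ) := by
    intro i hi
    rw [Finset.mem_range] at hi
    rcases Nat.lt_or_ge (i + 1) (A + B + 2) with h | h
    · rw [Finset.sum_eq_single (i + 1)]
      · rw [if_pos (by push_cast; ring)]
        unfold term cc ee
        rw [show A - (i + 1) = A - 1 - i by omega]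
        push_cast
        ring
      · intro l _ hl
        rw [if_neg (by omega), mul_zero]
      · intro h'
        exact absurd (Finset.mem_range.2 h) h'
    · have : B.choose i = 0 := Nat.choose_eq_zero_of_lt (by omega)
      rw [cc_zero_of A B i (by omega), this]
      unfold term
      simp
  rw [Finset.sum_congr rfl hin, ← Finset.mul_sum]
  congr 1
  simp only [monoMP]
  rw [Finset.mul_sum]
  push_cast
  symm
  apply Finset.sum_subset (Finset.range_subset_range.2 (by omega))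
  intro i _ hi
  rw [Finset.mem_range, not_lt] at hi
  rw [cc_zero_of' A B i (by omega)]
  unfold term
  simp

theorem mom_zero (A B : ℕ) (n : ℝ) (hn : n = (B : ℝ) - A) (x r : ℝ) :
    mom (fun z => z ^ B * ((starRingEnd ℂ) z) ^ A) 0 x r
    = (2 * Real.pi : ℂ) * (((monoMP A B n hn).V x r : ℝ) : ℂ) := by
  rw [mom_mono A B (A + B + 2) (by omega) (by omega)]
  have hin : ∀ i ∈ Finset.range (A + B + 2), (∑ l ∈ Finset.range (A + B + 2),
      ((B.choose i : ℂ) * (A.choose l : ℂ) * (r : ℂ) ^ (i + l) * (x : ℂ) ^ ((A - l) + (B - i)))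
        * (if ((i : ℤ) - (l : ℤ) + 0 : ℤ) = 0 then (2 * Real.pi : ℂ) else 0))
      = (2 * Real.pi : ℂ) * ((term (dd A B i) (gg A B i) (2 * i) x r : ℝ) : ℂ) := by
    intro i hi
    rw [Finset.sum_eq_single i]
    · rw [if_pos (by ring)]
      unfold term dd gg
      push_cast
      ring
    · intro l _ hl
      rw [if_neg (by omega), mul_zero]
    · intro h'
      exact absurd hi h'
  rw [Finset.sum_congr rfl hin, ← Finset.mul_sum]
  congr 1
  simp only [monoMP]
  push_cast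
  symm
  apply Finset.sum_subset (Finset.range_subset_range.2 (by omega))
  intro i _ hi
  rw [Finset.mem_range, not_lt] at hi
  unfold term dd
  rw [Nat.choose_eq_zero_of_lt (n := A) (k := i) (by omega)]
  simp

end Pool.Agent.Lib.MP_9de1de_an
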