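import Pool.Agent.Lib.MP_9de1de_an.Limit

set_option autoImplicit false

namespace Pool.Agent.Lib.MP_9de1de_an

open MeasureTheory Set Filter Topology

/-- monomial -/
def term (c : ℝ) (p q : ℕ) (x r : ℝ) : ℝ := c * x ^ p * r ^ q

theorem hasD_term (c : ℝ) (p q : ℕ) :
    HasD (term c p q) (term (c * p) (p - 1) q) (term (c * q) p (q - 1)) := by
  intro u w u' w' t hu hw
  have key := ((hu.fun_pow p).const_mul c).fun_mul (hw.fun_pow q)
  unfold term
  refine key.congr_deriv ?_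
  ring

theorem hasD_sum {ι : Type*} (s : Finset ι) {h hx hr : ι → ℝ → ℝ → ℝ}
    (H : ∀ i ∈ s, HasD (h i) (hx i) (hr i)) :
    HasD (fun x r => ∑ i ∈ s, h i x r) (fun x r => ∑ i ∈ s, hx i x r)
      (fun x r => ∑ i ∈ s, hr i x r) := by
  intro u w u' w' t hu hw
  have key := HasDerivAt.fun_sum (u := s) (A := fun i s => h i (u s) (w s))
    (A' := fun i => hx i (u t) (w t) * u' + hr i (u t) (w t) * w') (x := t)
    (fun i hi => H i hi u w u' w' t hu hw)
  refine key.congr_deriv ?_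
  rw [Finset.sum_add_distrib, Finset.sum_mul, Finset.sum_mul]

theorem cont_term (c : ℝ) (p q : ℕ) : Continuous fun z : ℝ × ℝ => term c p q z.1 z.2 := by
  unfold term; fun_prop

theorem hasD_add {h hx hr k kx kr : ℝ → ℝ → ℝ} (H : HasD h hx hr) (K : HasD k kx kr) :
    HasD (fun x r => h x r + k x r) (fun x r => hx x r + kx x r) (fun x r => hr x r + kr x r) := by
  intro u w u' w' t hu hw
  refine ((H u w u' w' t hu hw).fun_add (K u w u' w' t hu hw)).congr_deriv ?_
  ring

theorem hasD_smul {h hx hr : ℝ → ℝ → ℝ} (c : ℝ) (H : HasD h hx hr) :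
    HasD (fun x r => c * h x r) (fun x r => c * hx x r) (fun x r => c * hr x r) := by
  intro u w u' w' t hu hw
  refine ((H u w u' w' t hu hw).const_mul c).congr_deriv ?_
  ring

/-- sum of two moment pairs -/
def MPair.add {n : ℝ} (P Q : MPair n) : MPair n where
  h x r := P.h x r + Q.h x r
  hx x r := P.hx x r + Q.hx x r
  hr x r := P.hr x r + Q.hr x r
  hxx x r := P.hxx x r + Q.hxx x r
  hxr x r := P.hxr x r + Q.hxr x r
  hrr x r := P.hrr x r + Q.hrr x r
  V x r := P.V x r + Q.V x r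
  Vx x r := P.Vx x r + Q.Vx x r
  Vr x r := P.Vr x r + Q.Vr x r
  dh := hasD_add P.dh Q.dh
  dhx := hasD_add P.dhx Q.dhx
  dhr := hasD_add P.dhr Q.dhr
  dV := hasD_add P.dV Q.dV
  ch := P.ch.add Q.ch
  chx := P.chx.add Q.chx
  chr := P.chr.add Q.chr
  chrr := P.chrr.add Q.chrr
  cV := P.cV.add Q.cV
  e1 x r := by linear_combination P.e1 x r + Q.e1 x r
  e2 x r := by linear_combination P.e2 x r + Q.e2 x r
  e3 x r := by linear_combination P.e3 x r + Q.e3 x r

/-- scalar multiple of a moment pair -/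
def MPair.smul {n : ℝ} (c : ℝ) (P : MPair n) : MPair n where
  h x r := c * P.h x r
  hx x r := c * P.hx x r
  hr x r := c * P.hr x r
  hxx x r := c * P.hxx x r
  hxr x r := c * P.hxr x r
  hrr x r := c * P.hrr x r
  V x r := c * P.V x r
  Vx x r := c * P.Vx x r
  Vr x r := c * P.Vr x r
  dh := hasD_smul c P.dh
  dhx := hasD_smul c P.dhx
  dhr := hasD_smul c P.dhr
  dV := hasD_smul c P.dV
  ch := continuous_const.mul P.ch
  chx := continuous_const.mul P.chx
  chr := continuous_const.mul P.chr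
  chrr := continuous_const.mul P.chrr
  cV := continuous_const.mul P.cV
  e1 x r := by linear_combination c * P.e1 x r
  e2 x r := by linear_combination c * P.e2 x r
  e3 x r := by linear_combination c * P.e3 x r

section mono

variable (A B : ℕ)

def cc (m : ℕ) : ℝ := (B.choose m : ℝ) * (A.choose (m + 1) : ℝ)
def dd (m : ℕ) : ℝ := (B.choose m : ℝ) * (A.choose m : ℝ)
def ee (m : ℕ) : ℕ := (A - 1 - m) + (B - m)
def gg (m : ℕ) : ℕ := (A - m) + (B - m)

theorem cc_zero_of (m : ℕ) (h : B < m) : cc A B m = 0 := by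
  unfold cc; rw [Nat.choose_eq_zero_of_lt h]; simp

theorem cc_zero_of' (m : ℕ) (h : A < m + 1) : cc A B m = 0 := by
  unfold cc; rw [Nat.choose_eq_zero_of_lt h]; simp

theorem dd_zero_of (m : ℕ) (h : B < m) : dd A B m = 0 := by
  unfold dd; rw [Nat.choose_eq_zero_of_lt h]; simp

/-- `(m+1) * C(A,m+1) = (A-m) * C(A,m)` -/
theorem choose_rec (A m : ℕ) (h : m ≤ A) :
    ((m : ℝ) + 1) * (A.choose (m + 1) : ℝ) = ((A : ℝ) - m) * (A.choose m : ℝ) := by
  have := Nat.choose_succ_right_eq A m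
  have h2 : ((A.choose (m + 1) * (m + 1) : ℕ) : ℝ) = ((A.choose m * (A - m) : ℕ) : ℝ) := by
    rw [this]
  push_cast [h] at h2
  linarith

theorem e2_term (n : ℝ) (hn : n = (B : ℝ) - A) (m : ℕ) (hm : m + 1 ≤ A) (x r : ℝ) :
    x * (r * term (cc A B m * ((2 * m : ℕ) : ℝ)) (ee A B m) (2 * m - 1) x r
      + 2 * term (cc A B m) (ee A B m) (2 * m) x r)
    = x * term (dd A B m * ((gg A B m : ℕ) : ℝ)) (gg A B m - 1) (2 * m) x r
      - n * term (dd A B m) (gg A B m) (2 * m) x r := by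
  by_cases hB : m ≤ B
  · have hg : gg A B m = ee A B m + 1 := by unfold gg ee; omega
    have hgr : ((gg A B m : ℕ) : ℝ) = (A : ℝ) - m + ((B : ℝ) - m) := by
      unfold gg
      push_cast [hB, (by omega : m ≤ A)]
      ring
    have hc := choose_rec A m (by omega)
    have hr : r * (((2 * m : ℕ) : ℝ) * r ^ (2 * m - 1)) = ((2 * m : ℕ) : ℝ) * r ^ (2 * m) := by
      rcases Nat.eq_zero_or_pos m with h0 | h0
      · subst h0; simp
      · have : 2 * m = (2 * m - 1) + 1 := by omega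
        conv_rhs => rw [this, pow_succ]
        rw [← this]
        ring
    have hL : x * (r * term (cc A B m * ((2 * m : ℕ) : ℝ)) (ee A B m) (2 * m - 1) x r
      + 2 * term (cc A B m) (ee A B m) (2 * m) x r)
      = cc A B m * x ^ (ee A B m + 1) * (r * (((2 * m : ℕ) : ℝ) * r ^ (2 * m - 1)) + 2 * r ^ (2 * m)) := by
      unfold term; ring
    rw [hL, hr]
    have hR : x * term (dd A B m * ((gg A B m : ℕ) : ℝ)) (gg A B m - 1) (2 * m) x r
      - n * term (dd A B m) (gg A B m) (2 * m) x r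
      = dd A B m * (((gg A B m : ℕ) : ℝ) - n) * x ^ (ee A B m + 1) * r ^ (2 * m) := by
      unfold term
      rw [show gg A B m - 1 = ee A B m by omega, hg]
      ring
    rw [hR, hgr, hn]
    unfold cc dd
    push_cast
    linear_combination (2 * (B.choose m : ℝ) * x ^ (ee A B m + 1) * r ^ (2 * m)) * hc
  · rw [cc_zero_of A B m (by omega), dd_zero_of A B m (by omega)]
    unfold term; ring

theorem e2_last (n : ℝ) (hn : n = (B : ℝ) - A) (x r : ℝ) :
    x * term (dd A B A * ((gg A B A : ℕ) : ℝ)) (gg A B A - 1) (2 * A) x r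
      - n * term (dd A B A) (gg A B A) (2 * A) x r = 0 := by
  by_cases hB : A ≤ B
  · have hgr : ((gg A B A : ℕ) : ℝ) = (B : ℝ) - A := by
      unfold gg
      push_cast [hB]
      simp
    rcases Nat.eq_zero_or_pos (gg A B A) with h0 | h0
    · rw [h0] at hgr ⊢
      have : n = 0 := by rw [hn, ← hgr]; simp
      rw [this]; unfold term; simp
    · unfold term
      have hx : x * x ^ (gg A B A - 1) = x ^ gg A B A := by
        rw [mul_comm, ← pow_succ]; congr 1; omega
      rw [hgr, hn]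
      linear_combination (dd A B A * ((B : ℝ) - A) * r ^ (2 * A)) * hx
  · rw [dd_zero_of A B A (by omega)]
    unfold term; ring

theorem e1_term (n : ℝ) (hn : n = (B : ℝ) - A) (m : ℕ) (hm : m + 1 ≤ A) (x r : ℝ) :
    x * term (dd A B (m + 1) * ((2 * (m + 1) : ℕ) : ℝ)) (gg A B (m + 1)) (2 * (m + 1) - 1) x r
    = r * (x * term (cc A B m * ((ee A B m : ℕ) : ℝ)) (ee A B m - 1) (2 * m) x r
      + (n + 1) * term (cc A B m) (ee A B m) (2 * m) x r) := by
  by_cases hB : m ≤ B
  · have hee : ((ee A B m : ℕ) : ℝ) = (A : ℝ) - 1 - m + ((B : ℝ) - m) := by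
      unfold ee
      push_cast [hB, (by omega : m ≤ A - 1), (by omega : 1 ≤ A)]
      ring
    have hc := choose_rec B m hB
    -- x * (e x^(e-1)) = e x^e
    have hx : x * (((ee A B m : ℕ) : ℝ) * x ^ (ee A B m - 1)) = ((ee A B m : ℕ) : ℝ) * x ^ (ee A B m) := by
      rcases Nat.eq_zero_or_pos (ee A B m) with h0 | h0
      · rw [h0]; simp
      · have : x ^ ee A B m = x * x ^ (ee A B m - 1) := by
          rw [mul_comm, ← pow_succ]; congr 1; omega
        rw [this]; ring
    have hR : r * (x * term (cc A B m * ((ee A B m : ℕ) : ℝ)) (ee A B m - 1) (2 * m) x r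
      + (n + 1) * term (cc A B m) (ee A B m) (2 * m) x r)
      = cc A B m * (x * (((ee A B m : ℕ) : ℝ) * x ^ (ee A B m - 1)) + (n + 1) * x ^ ee A B m)
        * r ^ (2 * m + 1) := by
      unfold term; ring
    rw [hR, hx, hee, hn]
    rcases Nat.lt_or_ge m B with hlt | hge
    · have hg : gg A B (m + 1) + 1 = ee A B m := by unfold gg ee; omega
      unfold term
      rw [show 2 * (m + 1) - 1 = 2 * m + 1 by omega, ← hg]
      unfold dd cc
      push_cast
      linear_combination (2 * (A.choose (m + 1) : ℝ) * x ^ (gg A B (m + 1) + 1) * r ^ (2 * m + 1)) * hc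
    · have hBm : B = m := by omega
      rw [dd_zero_of A B (m + 1) (by omega)]
      subst hBm
      unfold term
      ring
  · rw [cc_zero_of A B m (by omega), dd_zero_of A B (m + 1) (by omega)]
    unfold term; ring

theorem e3_term (n : ℝ) (hn : n = (B : ℝ) - A) (m : ℕ) (hm : m + 2 ≤ A) (x r : ℝ) :
    x ^ 2 * (r * term (cc A B (m + 1) * ((2 * (m + 1) : ℕ) : ℝ) * ((2 * (m + 1) - 1 : ℕ) : ℝ))
        (ee A B (m + 1)) (2 * (m + 1) - 1 - 1) x r
      + 3 * term (cc A B (m + 1) * ((2 * (m + 1) : ℕ) : ℝ)) (ee A B (m + 1)) (2 * (m + 1) - 1) x r)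
    = r * (x ^ 2 * term (cc A B m * ((ee A B m : ℕ) : ℝ) * ((ee A B m - 1 : ℕ) : ℝ))
        (ee A B m - 1 - 1) (2 * m) x r
      + x * term (cc A B m * ((ee A B m : ℕ) : ℝ)) (ee A B m - 1) (2 * m) x r
      - (n + 1) ^ 2 * term (cc A B m) (ee A B m) (2 * m) x r) := by
  by_cases hB : m ≤ B
  · have hee : ((ee A B m : ℕ) : ℝ) = (A : ℝ) - 1 - m + ((B : ℝ) - m) := by
      unfold ee
      push_cast [hB, (by omega : m ≤ A - 1), (by omega : 1 ≤ A)]
      ring
    have hee1 : 1 ≤ ee A B m := by unfold ee; omega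
    have hx1 : x * (((ee A B m : ℕ) : ℝ) * x ^ (ee A B m - 1)) = ((ee A B m : ℕ) : ℝ) * x ^ (ee A B m) := by
      have : x ^ ee A B m = x * x ^ (ee A B m - 1) := by
        rw [mul_comm, ← pow_succ]; congr 1; omega
      rw [this]; ring
    have hx2 : x ^ 2 * ((((ee A B m : ℕ) : ℝ) * ((ee A B m - 1 : ℕ) : ℝ)) * x ^ (ee A B m - 1 - 1))
        = ((ee A B m : ℕ) : ℝ) * (((ee A B m : ℕ) : ℝ) - 1) * x ^ (ee A B m) := by
      rcases Nat.lt_or_ge (ee A B m) 2 with h0 | h0
      · have : ee A B m = 1 := by omega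
        rw [this]; simp
      · have : x ^ ee A B m = x ^ 2 * x ^ (ee A B m - 1 - 1) := by
          rw [← pow_add]; congr 1; omega
        rw [this]
        push_cast [hee1]
        ring
    have hR : r * (x ^ 2 * term (cc A B m * ((ee A B m : ℕ) : ℝ) * ((ee A B m - 1 : ℕ) : ℝ))
        (ee A B m - 1 - 1) (2 * m) x r
      + x * term (cc A B m * ((ee A B m : ℕ) : ℝ)) (ee A B m - 1) (2 * m) x r
      - (n + 1) ^ 2 * term (cc A B m) (ee A B m) (2 * m) x r)
      = cc A B m * (x ^ 2 * ((((ee A B m : ℕ) : ℝ) * ((ee A B m - 1 : ℕ) : ℝ)) * x ^ (ee A B m - 1 - 1))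
        + x * (((ee A B m : ℕ) : ℝ) * x ^ (ee A B m - 1)) - (n + 1) ^ 2 * x ^ ee A B m)
        * r ^ (2 * m + 1) := by
      unfold term; ring
    have hL : x ^ 2 * (r * term (cc A B (m + 1) * ((2 * (m + 1) : ℕ) : ℝ) * ((2 * (m + 1) - 1 : ℕ) : ℝ))
        (ee A B (m + 1)) (2 * (m + 1) - 1 - 1) x r
      + 3 * term (cc A B (m + 1) * ((2 * (m + 1) : ℕ) : ℝ)) (ee A B (m + 1)) (2 * (m + 1) - 1) x r)
      = cc A B (m + 1) * (2 * ((m : ℝ) + 1)) * (2 * ((m : ℝ) + 2)) * (x ^ 2 * x ^ (ee A B (m + 1)))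
        * r ^ (2 * m + 1) := by
      unfold term
      rw [show 2 * (m + 1) - 1 - 1 = 2 * m by omega, show 2 * (m + 1) - 1 = 2 * m + 1 by omega]
      push_cast
      ring
    rw [hR, hx1, hx2, hee, hn, hL]
    have hcA := choose_rec A (m + 1) (by omega)
    push_cast at hcA
    have hcB := choose_rec B m hB
    rcases Nat.lt_or_ge m B with hlt | hge
    · have hg : x ^ 2 * x ^ (ee A B (m + 1)) = x ^ (ee A B m) := by
        rw [← pow_add]; congr 1; unfold ee; omega
      rw [hg]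
      unfold cc
      have hcA' : ((m : ℝ) + 2) * (A.choose (m + 1 + 1) : ℝ) = ((A : ℝ) - (m + 1)) * (A.choose (m + 1) : ℝ) := by
        linarith
      linear_combination (4 * x ^ (ee A B m) * r ^ (2 * m + 1) * ((B : ℝ) - m) * (B.choose m : ℝ)) * hcA'
        + (4 * x ^ (ee A B m) * r ^ (2 * m + 1) * ((m : ℝ) + 2) * (A.choose (m + 1 + 1) : ℝ)) * hcB
    · have hBm : B = m := by omega
      rw [cc_zero_of A B (m + 1) (by omega)]
      subst hBm
      ring
  · rw [cc_zero_of A B m (by omega), cc_zero_of A B (m + 1) (by omega)]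
    unfold term; ring

theorem e3_last (n : ℝ) (hn : n = (B : ℝ) - A) (hA : 1 ≤ A) (x r : ℝ) :
    r * (x ^ 2 * term (cc A B (A - 1) * ((ee A B (A - 1) : ℕ) : ℝ) * ((ee A B (A - 1) - 1 : ℕ) : ℝ))
        (ee A B (A - 1) - 1 - 1) (2 * (A - 1)) x r
      + x * term (cc A B (A - 1) * ((ee A B (A - 1) : ℕ) : ℝ)) (ee A B (A - 1) - 1) (2 * (A - 1)) x r
      - (n + 1) ^ 2 * term (cc A B (A - 1)) (ee A B (A - 1)) (2 * (A - 1)) x r) = 0 := by
  by_cases hB : A - 1 ≤ B
  · have hee : ((ee A B (A - 1) : ℕ) : ℝ) = (B : ℝ) - A + 1 := by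
      unfold ee
      push_cast [hB, hA]
      simp
      ring
    set e := ee A B (A - 1) with he
    have hx1 : x * (((e : ℕ) : ℝ) * x ^ (e - 1)) = (e : ℝ) * x ^ e := by
      rcases Nat.eq_zero_or_pos e with h0 | h0
      · rw [h0]; simp
      · have : x ^ e = x * x ^ (e - 1) := by
          rw [mul_comm, ← pow_succ]; congr 1; omega
        rw [this]; ring
    have hx2 : x ^ 2 * (((e : ℝ) * ((e - 1 : ℕ) : ℝ)) * x ^ (e - 1 - 1))
        = (e : ℝ) * ((e : ℝ) - 1) * x ^ e := by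
      rcases Nat.lt_or_ge e 2 with h0 | h0
      · interval_cases e <;> simp
      · have : x ^ e = x ^ 2 * x ^ (e - 1 - 1) := by
          rw [← pow_add]; congr 1; omega
        rw [this]
        push_cast [(by omega : 1 ≤ e)]
        ring
    have hR : r * (x ^ 2 * term (cc A B (A - 1) * ((e : ℕ) : ℝ) * ((e - 1 : ℕ) : ℝ))
        (e - 1 - 1) (2 * (A - 1)) x r
      + x * term (cc A B (A - 1) * ((e : ℕ) : ℝ)) (e - 1) (2 * (A - 1)) x r
      - (n + 1) ^ 2 * term (cc A B (A - 1)) (e) (2 * (A - 1)) x r)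
      = cc A B (A - 1) * (x ^ 2 * (((e : ℝ) * ((e - 1 : ℕ) : ℝ)) * x ^ (e - 1 - 1))
        + x * (((e : ℕ) : ℝ) * x ^ (e - 1)) - (n + 1) ^ 2 * x ^ e)
        * (r * r ^ (2 * (A - 1))) := by
      unfold term; ring
    rw [hR, hx1, hx2, hee, hn]
    ring
  · rw [cc_zero_of A B (A - 1) (by omega)]
    unfold term; ring

/-- moments of `ζ ^ B * (conj ζ) ^ A` -/
def monoMP (n : ℝ) (hn : n = (B : ℝ) - A) : MPair n where
  h x r := ∑ m ∈ Finset.range A, term (cc A B m) (ee A B m) (2 * m) x r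
  hx x r := ∑ m ∈ Finset.range A, term (cc A B m * ((ee A B m : ℕ) : ℝ)) (ee A B m - 1) (2 * m) x r
  hr x r := ∑ m ∈ Finset.range A, term (cc A B m * ((2 * m : ℕ) : ℝ)) (ee A B m) (2 * m - 1) x r
  hxx x r := ∑ m ∈ Finset.range A,
    term (cc A B m * ((ee A B m : ℕ) : ℝ) * ((ee A B m - 1 : ℕ) : ℝ)) (ee A B m - 1 - 1) (2 * m) x r
  hxr x r := ∑ m ∈ Finset.range A,
    term (cc A B m * ((ee A B m : ℕ) : ℝ) * ((2 * m : ℕ) : ℝ)) (ee A B m - 1) (2 * m - 1) x r
  hrr x r := ∑ m ∈ Finset.range A,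
    term (cc A B m * ((2 * m : ℕ) : ℝ) * ((2 * m - 1 : ℕ) : ℝ)) (ee A B m) (2 * m - 1 - 1) x r
  V x r := ∑ m ∈ Finset.range (A + 1), term (dd A B m) (gg A B m) (2 * m) x r
  Vx x r := ∑ m ∈ Finset.range (A + 1),
    term (dd A B m * ((gg A B m : ℕ) : ℝ)) (gg A B m - 1) (2 * m) x r
  Vr x r := ∑ m ∈ Finset.range (A + 1),
    term (dd A B m * ((2 * m : ℕ) : ℝ)) (gg A B m) (2 * m - 1) x r
  dh := hasD_sum _ (fun m _ => hasD_term _ _ _)
  dhx := hasD_sum _ (fun m _ => hasD_term _ _ _)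
  dhr := by
    apply hasD_sum
    intro m _
    have := hasD_term (cc A B m * ((2 * m : ℕ) : ℝ)) (ee A B m) (2 * m - 1)
    rw [show cc A B m * ((ee A B m : ℕ) : ℝ) * ((2 * m : ℕ) : ℝ)
      = cc A B m * ((2 * m : ℕ) : ℝ) * ((ee A B m : ℕ) : ℝ) by ring]
    exact this
  dV := hasD_sum _ (fun m _ => hasD_term _ _ _)
  ch := continuous_finsetSum _ (fun m _ => cont_term _ _ _)
  chx := continuous_finsetSum _ (fun m _ => cont_term _ _ _)
  chr := continuous_finsetSum _ (fun m _ => cont_term _ _ _)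
  chrr := continuous_finsetSum _ (fun m _ => cont_term _ _ _)
  cV := continuous_finsetSum _ (fun m _ => cont_term _ _ _)
  e1 x r := by
    rw [Finset.sum_range_succ']
    have h0 : term (dd A B 0 * ((2 * 0 : ℕ) : ℝ)) (gg A B 0) (2 * 0 - 1) x r = 0 := by
      unfold term; simp
    rw [h0, add_zero, Finset.mul_sum, Finset.mul_sum, Finset.mul_sum, ← Finset.sum_add_distrib,
      Finset.mul_sum]
    apply Finset.sum_congr rfl
    intro m hm
    exact e1_term A B n hn m (by have := Finset.mem_range.1 hm; omega) x r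
  e2 x r := by
    rw [Finset.sum_range_succ, Finset.sum_range_succ (fun m => term (dd A B m) (gg A B m) (2 * m) x r)]
    have hl := e2_last A B n hn x r
    have : ∑ m ∈ Finset.range A, (x * (r * term (cc A B m * ((2 * m : ℕ) : ℝ)) (ee A B m) (2 * m - 1) x r
        + 2 * term (cc A B m) (ee A B m) (2 * m) x r))
      = ∑ m ∈ Finset.range A, (x * term (dd A B m * ((gg A B m : ℕ) : ℝ)) (gg A B m - 1) (2 * m) x r
        - n * term (dd A B m) (gg A B m) (2 * m) x r) :=
      Finset.sum_congr rfl (fun m hm =>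
        e2_term A B n hn m (by have := Finset.mem_range.1 hm; omega) x r)
    rw [← Finset.mul_sum, Finset.sum_add_distrib, ← Finset.mul_sum, ← Finset.mul_sum,
      Finset.sum_sub_distrib, ← Finset.mul_sum, ← Finset.mul_sum] at this
    linear_combination this - hl
  e3 x r := by
    rcases Nat.eq_zero_or_pos A with hA | hA
    · subst hA; simp
    · obtain ⟨k, rfl⟩ : ∃ k, A = k + 1 := ⟨A - 1, by omega⟩
      have hl := e3_last (k + 1) B n hn (by omega) x r
      rw [show k + 1 - 1 = k by omega] at hl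
      have hmain : ∑ m ∈ Finset.range k, (x ^ 2 * (r * term (cc (k + 1) B (m + 1)
            * ((2 * (m + 1) : ℕ) : ℝ) * ((2 * (m + 1) - 1 : ℕ) : ℝ))
            (ee (k + 1) B (m + 1)) (2 * (m + 1) - 1 - 1) x r
          + 3 * term (cc (k + 1) B (m + 1) * ((2 * (m + 1) : ℕ) : ℝ)) (ee (k + 1) B (m + 1))
            (2 * (m + 1) - 1) x r))
        = ∑ m ∈ Finset.range k, (r * (x ^ 2 * term (cc (k + 1) B m * ((ee (k + 1) B m : ℕ) : ℝ)
            * ((ee (k + 1) B m - 1 : ℕ) : ℝ)) (ee (k + 1) B m - 1 - 1) (2 * m) x r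
          + x * term (cc (k + 1) B m * ((ee (k + 1) B m : ℕ) : ℝ)) (ee (k + 1) B m - 1) (2 * m) x r
          - (n + 1) ^ 2 * term (cc (k + 1) B m) (ee (k + 1) B m) (2 * m) x r)) :=
        Finset.sum_congr rfl (fun m hm =>
          e3_term (k + 1) B n hn m (by have := Finset.mem_range.1 hm; omega) x r)
      rw [← Finset.mul_sum, Finset.sum_add_distrib, ← Finset.mul_sum, ← Finset.mul_sum,
        ← Finset.mul_sum, Finset.sum_sub_distrib, Finset.sum_add_distrib, ← Finset.mul_sum,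
        ← Finset.mul_sum, ← Finset.mul_sum] at hmain
      rw [Finset.sum_range_succ' (fun m => term (cc (k + 1) B m * ((2 * m : ℕ) : ℝ)
          * ((2 * m - 1 : ℕ) : ℝ)) (ee (k + 1) B m) (2 * m - 1 - 1) x r),
        Finset.sum_range_succ' (fun m => term (cc (k + 1) B m * ((2 * m : ℕ) : ℝ))
          (ee (k + 1) B m) (2 * m - 1) x r),
        Finset.sum_range_succ, Finset.sum_range_succ, Finset.sum_range_succ]
      have h0 : term (cc (k + 1) B 0 * ((2 * 0 : ℕ) : ℝ) * ((2 * 0 - 1 : ℕ) : ℝ))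
          (ee (k + 1) B 0) (2 * 0 - 1 - 1) x r = 0 := by
        unfold term; simp
      have h1 : term (cc (k + 1) B 0 * ((2 * 0 : ℕ) : ℝ)) (ee (k + 1) B 0) (2 * 0 - 1) x r = 0 := by
        unfold term; simp
      rw [h0, h1]
      linear_combination hmain - hl

end mono

end Pool.Agent.Lib.MP_9de1de_an
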